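import Pool.Agent.H656R2.AK.Step

/-!
# Hub games and generalized geography
-/

namespace Pool.Agent.H656R2.AK

set_option linter.unusedSectionVars false

open Finset

/-- The player to move wins (normal play, the game given by the relation `mv`): there is a move
after which every move of the opponent leads to a position won by the player to move. -/
inductive W {α : Type*} (mv : α → α → Prop) : α → Prop
  | mk (a b : α) (h : mv a b) (hb : ∀ c, mv b c → W mv c) : W mv a

section General

variable {α : Type*} {mv : α → α → Prop}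

theorem W.not_all {a : α} (h : W mv a) : ¬ ∀ b, mv a b → W mv b := by
  induction h with
  | mk a b h hb ih =>
    intro hall
    have hWb := hall b h
    cases hWb with
    | mk _ c hc hd => exact ih c hc hd

theorem W_or (wf : WellFounded fun b a => mv a b) (a : α) : W mv a ∨ ∀ b, mv a b → W mv b := by
  induction a using wf.induction with
  | _ a ih =>
    by_cases h : ∃ b, mv a b ∧ ¬ W mv b
    · obtain ⟨b, hb, hW⟩ := h
      exact Or.inl (W.mk a b hb ((ih b hb).resolve_left hW))
    · push Not at h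
      exact Or.inr h

theorem W_iff (wf : WellFounded fun b a => mv a b) (a : α) : W mv a ↔ ∃ b, mv a b ∧ ¬ W mv b := by
  constructor
  · rintro ⟨_, b, h, hb⟩
    exact ⟨b, h, fun hW => hW.not_all hb⟩
  · rintro ⟨b, hb, hW⟩
    exact W.mk a b hb ((W_or wf b).resolve_left hW)

theorem not_W_of_class (wf : WellFounded fun b a => mv a b) (P : α → Prop)
    (hP : ∀ a b, P a → mv a b → ∃ c, mv b c ∧ P c) {a : α} (h : P a) : ¬ W mv a := by
  induction a using wf.transGen.induction with
  | _ a ih =>
    rw [W_iff wf]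
    rintro ⟨b, hb, hW⟩
    obtain ⟨c, hc, hPc⟩ := hP a b h hb
    exact hW ((W_iff wf b).2 ⟨c, hc, ih c (.tail (.single hc) hb) hPc⟩)

end General

theorem xor_lt {m a : ℕ} (h : m.testBit a = true) : m ^^^ 2 ^ a < m := by
  refine Nat.lt_of_testBit a ?_ h ?_
  · rw [Nat.testBit_xor, h, Nat.testBit_two_pow_self]
    rfl
  · intro j hj
    rw [Nat.testBit_xor, Nat.testBit_two_pow_of_ne (by omega)]
    simp

theorem edges_ne : ∀ k : Kind, ∀ e ∈ edges k, e.1 ≠ e.2 := by decide

theorem moves_lt {k : Kind} {m m' : ℕ} (h : m' ∈ moves k m) : m' < m := by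
  unfold moves at h
  rw [List.mem_map] at h
  obtain ⟨e, he, rfl⟩ := h
  rw [List.mem_filter] at he
  obtain ⟨he, hb⟩ := he
  simp only [Bool.and_eq_true] at hb
  have hne := edges_ne k e he
  refine lt_trans (xor_lt ?_) (xor_lt hb.1)
  rw [Nat.testBit_xor, Nat.testBit_two_pow_of_ne hne]
  simpa using hb.2

variable {ι : Type} [DecidableEq ι] [Fintype ι]

/-- a measure -/
def Pos.size (p : Pos ι) : ℕ := ∑ c, p.s c

theorem size_upd {p : Pos ι} {H : Finset ι} {c : Cmp ι} {m : ℕ} (h : m < p.s c) :
    (p.upd H c m).size < p.size := by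
  unfold Pos.size
  refine Finset.sum_lt_sum (fun c' _ => ?_) ⟨c, mem_univ c, by simpa using h⟩
  by_cases hc : c' = c
  · subst hc
    rw [Pos.upd_self]
    exact h.le
  · rw [Pos.upd_ne hc]

theorem Mv.size_lt {N : Net ι} {p p' : Pos ι} (h : Mv N p p') : p'.size < p.size := by
  cases h with
  | loc c m h => exact size_upd (moves_lt h)
  | hub g c v hg hp hv => exact size_upd (xor_lt hv)

theorem Mv.wf (N : Net ι) : WellFounded fun b a => Mv N a b :=
  Subrelation.wf (r := fun b a : Pos ι => b.size < a.size) (fun h => h.size_lt)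
    (measure Pos.size).wf

theorem ZP.not_W {N : Net ι} {p : Pos ι} (h : ZP N p) : ¬ W (Mv N) p :=
  not_W_of_class (Mv.wf N) (ZP N) (fun _ _ h h' => h.step h') h

theorem CL.not_W {N : Net ι} {i : ι} {p : Pos ι} (h : CL N true i p) : ¬ W (Mv N) p := by
  induction p using (Mv.wf N).transGen.induction with
  | _ p ih =>
    rw [W_iff (Mv.wf N)]
    rintro ⟨p', hp', hW⟩
    rcases h.step hp' with ⟨p'', h1, h2⟩ | ⟨p'', h1, h2⟩ | ⟨h1, _⟩
    · exact hW ((W_iff (Mv.wf N) _).2 ⟨p'', h1, h2.not_W⟩)
    · exact hW ((W_iff (Mv.wf N) _).2 ⟨p'', h1, ih p'' (.tail (.single h1) hp') h2⟩)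
    · exact absurd h1 (by simp)

/-- The moves of generalized geography: the positions are the sets of unvisited vertices together
with the current one, and the current vertex. -/
def ggMv (N : Net ι) (x y : Finset ι × ι) : Prop :=
  x.2 ∈ x.1 ∧ y.1 = x.1.erase x.2 ∧ y.2 ∈ y.1 ∧ N.E x.2 y.2

omit [Fintype ι] in
theorem ggMv.wf (N : Net ι) : WellFounded fun b a => ggMv N a b :=
  Subrelation.wf (r := fun b a : Finset ι × ι => b.1.card < a.1.card)
    (fun {b a} h => by
      obtain ⟨h1, h2, _⟩ := h
      rw [h2]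
      exact Finset.card_erase_lt_of_mem h1) (measure fun x : Finset ι × ι => x.1.card).wf

theorem CL.iff {N : Net ι} {i : ι} {p : Pos ι} (h : CL N false i p) :
    W (Mv N) p ↔ W (ggMv N) (p.H, i) := by
  induction p using (Mv.wf N).induction generalizing i with
  | _ p ih =>
    rw [W_iff (Mv.wf N), W_iff (ggMv.wf N)]
    constructor
    · rintro ⟨p', hp', hW⟩
      rcases h.step hp' with ⟨p'', h1, h2⟩ | ⟨p'', h1, h2⟩ | ⟨_, J, hJ, hJi, hE, hcl, hH⟩
      · exact absurd ((W_iff (Mv.wf N) _).2 ⟨p'', h1, h2.not_W⟩) hW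
      · exact absurd ((W_iff (Mv.wf N) _).2 ⟨p'', h1, h2.not_W⟩) hW
      · refine ⟨(p'.H, J), ⟨h.hi, hH, hcl.hi, hE⟩, ?_⟩
        rw [← ih p' hp' hcl]
        exact hW
    · rintro ⟨⟨H, J⟩, ⟨_, hH, hJ, hE⟩, hW⟩
      simp only at hH hJ hE
      rw [hH] at hJ hW
      have hJi := Finset.ne_of_mem_erase hJ
      have hJ' := Finset.mem_of_mem_erase hJ
      have h31 := h.oth J hJ' hJi 0
      rw [full_X] at h31
      have hmv : Mv N p (p.upd (p.H.erase i) (.inl (J, 0)) (p.s (.inl (J, 0)) ^^^ 2 ^ 1)) :=
        Mv.hub p i (.inl (J, 0)) 1 h.hi (Or.inr ⟨rfl, rfl, hE⟩) (by rw [h31]; decide)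
      refine ⟨_, hmv, ?_⟩
      rw [ih _ hmv (h.next hJ' hJi hE)]
      exact hW

/-- The initial position: everything is intact, except that the token is at `i0`. -/
def start (N : Net ι) (i0 : ι) : Pos ι :=
  ⟨univ, fun c => if c = .inl (i0, 0) then 29 else full (N.kind c)⟩

theorem sum_gadget (N : Net ι) (g : ι) :
    ∑ a : Fin 7, gr (N.kind (.inl (g, a))) (full (N.kind (.inl (g, a)))) = 0 := by
  rw [Fin.sum_univ_seven]
  simp only [Net.kind]
  cases N.typ g <;> decide +kernel

theorem start_CL (N : Net ι) (i0 : ι) (h : N.typ i0 = true) : CL N false i0 (start N i0) := by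
  have hs : start N i0 = (⟨univ, fun c => full (N.kind c)⟩ : Pos ι).upd univ (.inl (i0, 0)) 29 := by
    unfold start Pos.upd
    congr 1
    funext c
    by_cases hc : c = .inl (i0, 0)
    · subst hc; simp
    · simp [hc]
  constructor
  · intro c
    simp only [start]
    split_ifs with hc
    · subst hc
      rw [kind_X]; decide +kernel
    · cases N.kind c <;> decide +kernel
  · rw [hs, Phi_upd]
    have h1 : N.Phi (⟨univ, fun c => full (N.kind c)⟩ : Pos ι) = (1, 0) := by
      unfold Net.Phi
      rw [Fintype.sum_sum_type, Fintype.sum_prod_type]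
      rw [Finset.sum_eq_zero (fun g _ => sum_gadget N g)]
      simp only [Net.kind, Fintype.sum_bool]
      decide +kernel
    have h2 : (⟨univ, fun c => full (N.kind c)⟩ : Pos ι).s (.inl (i0, 0)) = 31 := full_X N i0
    rw [h1, kind_X, h, h2]
    decide +kernel
  · exact mem_univ _
  · simp [start]
  · intro c hc
    simp [start, hc]
  · intro g _ hg c
    simp [start, hg]
  · intro g hg
    exact absurd (mem_univ g) hg
  · simp [start]
  · simp [start]

/-- The hub game of a bipartite graph is won by the first player if and only if generalized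
geography is. -/
theorem start_iff (N : Net ι) (i0 : ι) (h : N.typ i0 = true) :
    W (Mv N) (start N i0) ↔ W (ggMv N) (univ, i0) := (start_CL N i0 h).iff

end Pool.Agent.H656R2.AK
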