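import Pool.Agent.H656R2.AK.Defs
import Pool.Agent.H656R2.AK.Game

/-!
# The hub game as a game of Arc-Kayles
-/

namespace Pool.Agent.H656R2.AK

set_option linter.unusedSectionVars false

/-- The moves of Arc-Kayles. -/
def akMv {V : Type*} (G : SimpleGraph V) (S S' : Set V) : Prop :=
  ∃ u v, u ∈ S ∧ v ∈ S ∧ G.Adj u v ∧ S' = S \ {u, v}

theorem firstWins_iff {V : Type*} (G : SimpleGraph V) (S : Set V) :
    FirstWins G S ↔ W (akMv G) S := by
  constructor
  · intro h
    induction h with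
    | move u v hu hv huv hr ih =>
      refine W.mk _ _ ⟨u, v, hu, hv, huv, rfl⟩ ?_
      rintro _ ⟨x, y, hx, hy, hxy, rfl⟩
      exact ih x y hx hy hxy
  · intro h
    induction h with
    | mk a b h hb ih =>
      obtain ⟨u, v, hu, hv, huv, rfl⟩ := h
      exact FirstWins.move u v hu hv huv fun x y hx hy hxy => ih _ ⟨x, y, hx, hy, hxy, rfl⟩

theorem W_bisim {α β : Type*} {mv : α → α → Prop} {mv' : β → β → Prop} (R : α → β → Prop)
    (h1 : ∀ a b a', R a b → mv a a' → ∃ b', mv' b b' ∧ R a' b')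
    (h2 : ∀ a b b', R a b → mv' b b' → ∃ a', mv a a' ∧ R a' b') {a : α} (h : W mv a) :
    ∀ {b : β}, R a b → W mv' b := by
  induction h with
  | mk a c h hb ih =>
    intro b hR
    obtain ⟨b', hb', hR'⟩ := h1 a b c hR h
    refine W.mk b b' hb' fun d' hd' => ?_
    obtain ⟨d, hd, hRd⟩ := h2 c b' d' hR' hd'
    exact ih d hd hRd

theorem W_bisim_iff {α β : Type*} {mv : α → α → Prop} {mv' : β → β → Prop} (R : α → β → Prop)
    (h1 : ∀ a b a', R a b → mv a a' → ∃ b', mv' b b' ∧ R a' b')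
    (h2 : ∀ a b b', R a b → mv' b b' → ∃ a', mv a a' ∧ R a' b') {a : α} {b : β} (hR : R a b) :
    W mv a ↔ W mv' b :=
  ⟨fun h => W_bisim R h1 h2 h hR, fun h => W_bisim (fun b a => R a b)
    (fun b a b' hR hm => h2 a b b' hR hm) (fun b a a' hR hm => h1 a b a' hR hm) h hR⟩

theorem testBit_rm {m a x : ℕ} (h : m.testBit a = true) :
    (m ^^^ 2 ^ a).testBit x = true ↔ m.testBit x = true ∧ x ≠ a := by
  rw [Nat.testBit_xor]
  by_cases hx : x = a
  · subst hx
    rw [Nat.testBit_two_pow_self, h]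
    simp
  · rw [Nat.testBit_two_pow_of_ne (Ne.symm hx)]
    simp [hx]

theorem edges_lt : ∀ k : Kind, ∀ e ∈ edges k, e.1 < 8 ∧ e.2 < 8 := by decide

theorem ports_lt : ∀ k : Kind, ∀ v ∈ ports k, v < 8 := by decide

variable {ι : Type} [DecidableEq ι] [Fintype ι]

/-- the vertices of the graph -/
abbrev Vx (ι : Type) := ι ⊕ (Cmp ι × Fin 8)

/-- the vertices in the initial position -/
def al0 (N : Net ι) (i0 : ι) (c : Cmp ι) (a : ℕ) : Prop := ((start N i0).s c).testBit a = true

/-- half of the adjacency relation -/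
def half (N : Net ι) (i0 : ι) : Vx ι → Vx ι → Prop
  | .inl g, .inr (c, a) => N.port g c a ∧ al0 N i0 c a
  | .inr (c, a), .inr (c', b) =>
    c = c' ∧ (a.val, b.val) ∈ edges (N.kind c) ∧ al0 N i0 c a ∧ al0 N i0 c b
  | _, _ => False

theorem half_irrefl (N : Net ι) (i0 : ι) (x : Vx ι) : ¬ half N i0 x x := by
  rcases x with g | ⟨c, a⟩
  · exact fun h => h
  · rintro ⟨_, h, _⟩
    exact edges_ne _ _ h rfl

/-- The graph of the hub game. -/
def akGraph (N : Net ι) (i0 : ι) : SimpleGraph (Vx ι) where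
  Adj x y := half N i0 x y ∨ half N i0 y x
  symm := ⟨fun _ _ h => h.symm⟩
  loopless := ⟨fun x h => by rcases h with h | h <;> exact half_irrefl N i0 x h⟩

/-- The relation between abstract positions and sets of vertices. -/
structure Rl (N : Net ι) (i0 : ι) (p : Pos ι) (S : Set (Vx ι)) : Prop where
  hub : ∀ g, Sum.inl g ∈ S ↔ g ∈ p.H
  cmp : ∀ c (a : Fin 8), al0 N i0 c a → (Sum.inr (c, a) ∈ S ↔ (p.s c).testBit a = true)
  sub : ∀ c (a : ℕ), (p.s c).testBit a = true → al0 N i0 c a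

theorem Rl.start (N : Net ι) (i0 : ι) : Rl N i0 (start N i0) Set.univ where
  hub g := by simp [AK.start]
  cmp c a h := by
    simp only [Set.mem_univ, true_iff]
    exact h
  sub c a h := h

theorem Rl.of_half {N : Net ι} {i0 : ι} {p : Pos ι} {S : Set (Vx ι)} (h : Rl N i0 p S) {x y : Vx ι}
    (hx : x ∈ S) (hy : y ∈ S) (hxy : half N i0 x y) :
    ∃ p', Mv N p p' ∧ Rl N i0 p' (S \ {x, y}) := by
  rcases x with g | ⟨c, a⟩
  · rcases y with g' | ⟨c, v⟩
    · exact hxy.elim
    · obtain ⟨hp, hal⟩ := hxy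
      have hv := (h.cmp c v hal).1 hy
      refine ⟨_, Mv.hub p g c v ((h.hub g).1 hx) hp hv, ?_, ?_, ?_⟩
      · intro g'
        simp only [Set.mem_sdiff, h.hub, Set.mem_insert_iff, Sum.inl.injEq, Set.mem_singleton_iff,
          reduceCtorEq, or_false, Pos.upd_H, Finset.mem_erase]
        tauto
      · intro c' b hb
        simp only [Set.mem_sdiff, h.cmp c' b hb, Set.mem_insert_iff, reduceCtorEq,
          Set.mem_singleton_iff, Sum.inr.injEq, Prod.mk.injEq, false_or]
        by_cases hc : c' = c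
        · subst hc
          rw [Pos.upd_self, testBit_rm hv]
          simp [Fin.ext_iff]
        · rw [Pos.upd_ne hc]
          simp [hc]
      · intro c' b hb
        by_cases hc : c' = c
        · subst hc
          rw [Pos.upd_self, testBit_rm hv] at hb
          exact h.sub c' b hb.1
        · rw [Pos.upd_ne hc] at hb
          exact h.sub c' b hb
  · rcases y with g' | ⟨c', b⟩
    · exact hxy.elim
    · obtain ⟨rfl, he, hala, halb⟩ := hxy
      have ha := (h.cmp c a hala).1 hx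
      have hb := (h.cmp c b halb).1 hy
      have hab := edges_ne _ _ he
      have hb' : (p.s c ^^^ 2 ^ a.val).testBit b = true :=
        (testBit_rm ha).2 ⟨hb, fun e => hab e.symm⟩
      have hm : p.s c ^^^ 2 ^ a.val ^^^ 2 ^ b.val ∈ moves (N.kind c) (p.s c) := by
        unfold moves
        rw [List.mem_map]
        exact ⟨(a.val, b.val), List.mem_filter.2 ⟨he, by simp [ha, hb]⟩, rfl⟩
      refine ⟨_, Mv.loc p c _ hm, ?_, ?_, ?_⟩
      · intro g'
        simp [h.hub]
      · intro c' x hx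
        simp only [Set.mem_sdiff, h.cmp c' x hx, Set.mem_insert_iff,
          Set.mem_singleton_iff, Sum.inr.injEq, Prod.mk.injEq]
        by_cases hc : c' = c
        · subst hc
          rw [Pos.upd_self, testBit_rm hb', testBit_rm ha]
          simp only [Fin.ext_iff, true_and]
          tauto
        · rw [Pos.upd_ne hc]
          simp [hc]
      · intro c' x hx
        by_cases hc : c' = c
        · subst hc
          rw [Pos.upd_self, testBit_rm hb', testBit_rm ha] at hx
          exact h.sub c' x hx.1.1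
        · rw [Pos.upd_ne hc] at hx
          exact h.sub c' x hx

theorem Rl.back {N : Net ι} {i0 : ι} {p : Pos ι} {S S' : Set (Vx ι)} (h : Rl N i0 p S)
    (hm : akMv (akGraph N i0) S S') : ∃ p', Mv N p p' ∧ Rl N i0 p' S' := by
  obtain ⟨u, v, hu, hv, huv, rfl⟩ := hm
  rcases huv with huv | huv
  · exact h.of_half hu hv huv
  · rw [Set.pair_comm]
    exact h.of_half hv hu huv

theorem Rl.det {N : Net ι} {i0 : ι} {p : Pos ι} {S T : Set (Vx ι)} (h : Rl N i0 p S)
    (hT : ∀ x ∈ S, x ∉ T → ∃ c a, x = Sum.inr (c, a) ∧ ¬ al0 N i0 c a) (hTS : T ⊆ S) :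
    Rl N i0 p T := by
  refine ⟨fun g => ?_, fun c a hal => ?_, h.sub⟩
  · rw [← h.hub g]
    refine ⟨fun hg => hTS hg, fun hg => ?_⟩
    by_contra hc
    obtain ⟨c, a, e, _⟩ := hT _ hg hc
    simp at e
  · rw [← h.cmp c a hal]
    refine ⟨fun hg => hTS hg, fun hg => ?_⟩
    by_contra hc
    obtain ⟨c', a', e, h'⟩ := hT _ hg hc
    simp only [Sum.inr.injEq, Prod.mk.injEq] at e
    obtain ⟨rfl, rfl⟩ := e
    exact h' hal

theorem Rl.forth {N : Net ι} {i0 : ι} {p p' : Pos ι} {S : Set (Vx ι)} (h : Rl N i0 p S)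
    (hm : Mv N p p') : ∃ S', akMv (akGraph N i0) S S' ∧ Rl N i0 p' S' := by
  cases hm with
  | loc c m hm =>
    unfold moves at hm
    rw [List.mem_map] at hm
    obtain ⟨e, he, rfl⟩ := hm
    rw [List.mem_filter] at he
    obtain ⟨he, hbb⟩ := he
    simp only [Bool.and_eq_true] at hbb
    obtain ⟨ha, hb⟩ := hbb
    obtain ⟨ha8, hb8⟩ := edges_lt _ _ he
    have hhalf : half N i0 (.inr (c, ⟨e.1, ha8⟩)) (.inr (c, ⟨e.2, hb8⟩)) :=
      ⟨rfl, he, h.sub c _ ha, h.sub c _ hb⟩
    have hx : (Sum.inr (c, ⟨e.1, ha8⟩) : Vx ι) ∈ S := (h.cmp c ⟨e.1, ha8⟩ (h.sub c _ ha)).2 ha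
    have hy : (Sum.inr (c, ⟨e.2, hb8⟩) : Vx ι) ∈ S := (h.cmp c ⟨e.2, hb8⟩ (h.sub c _ hb)).2 hb
    refine ⟨_, ⟨_, _, hx, hy, Or.inl hhalf, rfl⟩, ?_⟩
    have hab := edges_ne _ _ he
    have hb' : (p.s c ^^^ 2 ^ e.1).testBit e.2 = true :=
      (testBit_rm ha).2 ⟨hb, fun e => hab e.symm⟩
    refine ⟨?_, ?_, ?_⟩
    · intro g'
      simp [h.hub]
    · intro c' x hx
      simp only [Set.mem_sdiff, h.cmp c' x hx, Set.mem_insert_iff,
        Set.mem_singleton_iff, Sum.inr.injEq, Prod.mk.injEq]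
      by_cases hc : c' = c
      · subst hc
        rw [Pos.upd_self, testBit_rm hb', testBit_rm ha]
        simp only [Fin.ext_iff, true_and]
        tauto
      · rw [Pos.upd_ne hc]
        simp [hc]
    · intro c' x hx
      by_cases hc : c' = c
      · subst hc
        rw [Pos.upd_self, testBit_rm hb', testBit_rm ha] at hx
        exact h.sub c' x hx.1.1
      · rw [Pos.upd_ne hc] at hx
        exact h.sub c' x hx
  | hub g c v hg hp hv =>
    have hv8 := ports_lt _ _ (port_mem hp)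
    have hhalf : half N i0 (.inl g) (.inr (c, ⟨v, hv8⟩)) := ⟨hp, h.sub c _ hv⟩
    have hx : (Sum.inl g : Vx ι) ∈ S := (h.hub g).2 hg
    have hy : (Sum.inr (c, ⟨v, hv8⟩) : Vx ι) ∈ S := (h.cmp c ⟨v, hv8⟩ (h.sub c _ hv)).2 hv
    refine ⟨_, ⟨_, _, hx, hy, Or.inl hhalf, rfl⟩, ?_, ?_, ?_⟩
    · intro g'
      simp only [Set.mem_sdiff, h.hub, Set.mem_insert_iff, Sum.inl.injEq, Set.mem_singleton_iff,
        reduceCtorEq, or_false, Pos.upd_H, Finset.mem_erase]
      tauto
    · intro c' b hb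
      simp only [Set.mem_sdiff, h.cmp c' b hb, Set.mem_insert_iff, reduceCtorEq,
        Set.mem_singleton_iff, Sum.inr.injEq, Prod.mk.injEq, false_or]
      by_cases hc : c' = c
      · subst hc
        rw [Pos.upd_self, testBit_rm hv]
        simp [Fin.ext_iff]
      · rw [Pos.upd_ne hc]
        simp [hc]
    · intro c' b hb
      by_cases hc : c' = c
      · subst hc
        rw [Pos.upd_self, testBit_rm hv] at hb
        exact h.sub c' b hb.1
      · rw [Pos.upd_ne hc] at hb
        exact h.sub c' b hb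

/-- The first player wins Arc-Kayles on the graph of the hub game if and only if he wins generalized
geography. -/
theorem akGraph_iff (N : Net ι) (i0 : ι) (h : N.typ i0 = true) :
    FirstWins (akGraph N i0) Set.univ ↔ W (ggMv N) (Finset.univ, i0) := by
  rw [← start_iff N i0 h, firstWins_iff]
  exact (W_bisim_iff (Rl N i0) (fun _ _ _ h hm => h.forth hm) (fun _ _ _ h hm => h.back hm)
    (Rl.start N i0)).symm

/-- Isomorphic graphs have the same outcome. -/
theorem firstWins_equiv {V V' : Type*} {G : SimpleGraph V} {G' : SimpleGraph V'} (e : V ≃ V')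
    (he : ∀ x y, G.Adj x y ↔ G'.Adj (e x) (e y)) :
    FirstWins G Set.univ ↔ FirstWins G' Set.univ := by
  rw [firstWins_iff, firstWins_iff]
  refine W_bisim_iff (fun S S' => ∀ x, x ∈ S ↔ e x ∈ S') ?_ ?_ (by simp)
  · rintro S S' _ hR ⟨u, v, hu, hv, huv, rfl⟩
    refine ⟨_, ⟨e u, e v, (hR u).1 hu, (hR v).1 hv, (he u v).1 huv, rfl⟩, ?_⟩
    intro x
    simp [hR]
  · rintro S S' _ hR ⟨u, v, hu, hv, huv, rfl⟩
    refine ⟨_, ⟨e.symm u, e.symm v, (hR _).2 (by simpa using hu), (hR _).2 (by simpa using hv),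
      (he _ _).2 (by simpa using huv), rfl⟩, ?_⟩
    intro x
    simp only [Set.mem_sdiff, hR, Set.mem_insert_iff, Set.mem_singleton_iff, ← Equiv.eq_symm_apply]

end Pool.Agent.H656R2.AK
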