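import Pool.Agent.H623R2.PS.Quant
import Pool.Agent.H656R2.AK.Bisim

/-!
# Quantified formulas and generalized geography
-/

namespace Pool.Agent.H656R2.AK

open Pool.Agent.H623R2.PS

set_option linter.unusedSectionVars false

/-- Quantified formulas in conjunctive normal form. -/
abbrev QF := List Bool × List (List (Bool × ℕ))

/-- Evaluation of a formula in conjunctive normal form. -/
def evc (u : List Bool) (C : List (List (Bool × ℕ))) : Bool :=
  C.all fun c => c.any fun l => u.getD l.2 false == l.1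

/-- All variables are quantified. -/
def QFwf (Q : QF) : Prop := ∀ c ∈ Q.2, ∀ l ∈ c, l.2 < Q.1.length

/-- The number of nodes. -/
def nn (Q : QF) : ℕ := 6 * Q.1.length + 2 + Q.2.length

/-- The side of a node. -/
def ty (Q : QF) (x : ℕ) : Bool :=
  if x < 6 * Q.1.length then decide (x % 6 = 0) || (decide (x % 6 = 2) || decide (x % 6 = 3))
  else !decide (x = 6 * Q.1.length + 1)

/-- The arcs. -/
def eb (Q : QF) (x y : ℕ) : Bool :=
  if x < 6 * Q.1.length then
    (decide (x % 6 = 0) && (if Q.1.getD (x / 6) false = true then decide (y = x + 1)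
      else (decide (y = x + 4) || decide (y = x + 5)))) ||
    ((decide (x % 6 = 1) && (decide (y = x + 1) || decide (y = x + 2))) ||
    ((decide (x % 6 = 2) && decide (y = x + 2)) ||
    ((decide (x % 6 = 3) && decide (y = x + 2)) ||
    ((decide (x % 6 = 4) && decide (y = x + 2)) ||
    (decide (x % 6 = 5) && decide (y = x + 1))))))
  else if x = 6 * Q.1.length then decide (y = x + 1)
  else if x = 6 * Q.1.length + 1 then decide (x < y)
  else (Q.2.getD (x - (6 * Q.1.length + 2)) []).any fun l =>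
    decide (l.2 < Q.1.length) && decide (y = 6 * l.2 + (if l.1 = true then 5 else 4))

section EB

variable {Q : QF} {j y : ℕ}

theorem eb0 (h : j < Q.1.length) : eb Q (6 * j) y = true ↔
    if Q.1.getD j false = true then y = 6 * j + 1 else (y = 6 * j + 4 ∨ y = 6 * j + 5) := by
  have h1 : 6 * j < 6 * Q.1.length := by omega
  have h2 : 6 * j % 6 = 0 := by omega
  have h3 : 6 * j / 6 = j := by omega
  unfold eb
  rw [if_pos h1, h2, h3]
  split_ifs <;> simp

theorem eb1 (h : j < Q.1.length) : eb Q (6 * j + 1) y = true ↔ y = 6 * j + 2 ∨ y = 6 * j + 3 := by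
  have h1 : 6 * j + 1 < 6 * Q.1.length := by omega
  have h2 : (6 * j + 1) % 6 = 1 := by omega
  unfold eb
  rw [if_pos h1, h2]
  simp

theorem eb2 (h : j < Q.1.length) : eb Q (6 * j + 2) y = true ↔ y = 6 * j + 4 := by
  have h1 : 6 * j + 2 < 6 * Q.1.length := by omega
  have h2 : (6 * j + 2) % 6 = 2 := by omega
  unfold eb
  rw [if_pos h1, h2]
  simp

theorem eb3 (h : j < Q.1.length) : eb Q (6 * j + 3) y = true ↔ y = 6 * j + 5 := by
  have h1 : 6 * j + 3 < 6 * Q.1.length := by omega
  have h2 : (6 * j + 3) % 6 = 3 := by omega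
  unfold eb
  rw [if_pos h1, h2]
  simp

theorem eb4 (h : j < Q.1.length) : eb Q (6 * j + 4) y = true ↔ y = 6 * (j + 1) := by
  have h1 : 6 * j + 4 < 6 * Q.1.length := by omega
  have h2 : (6 * j + 4) % 6 = 4 := by omega
  unfold eb
  rw [if_pos h1, h2]
  simp
  omega

theorem eb5 (h : j < Q.1.length) : eb Q (6 * j + 5) y = true ↔ y = 6 * (j + 1) := by
  have h1 : 6 * j + 5 < 6 * Q.1.length := by omega
  have h2 : (6 * j + 5) % 6 = 5 := by omega
  unfold eb
  rw [if_pos h1, h2]
  simp
  omega

theorem eb6 : eb Q (6 * Q.1.length) y = true ↔ y = 6 * Q.1.length + 1 := by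
  unfold eb
  rw [if_neg (lt_irrefl _), if_pos rfl]
  simp

theorem eb7 : eb Q (6 * Q.1.length + 1) y = true ↔ 6 * Q.1.length + 2 ≤ y := by
  unfold eb
  rw [if_neg (by omega), if_neg (by omega), if_pos rfl]
  simp
  omega

theorem eb8 : eb Q (6 * Q.1.length + 2 + j) y = true ↔
    ∃ l ∈ Q.2.getD j [], l.2 < Q.1.length ∧ y = 6 * l.2 + (if l.1 = true then 5 else 4) := by
  unfold eb
  rw [if_neg (by omega), if_neg (by omega), if_neg (by omega)]
  rw [show 6 * Q.1.length + 2 + j - (6 * Q.1.length + 2) = j by omega, List.any_eq_true]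
  simp

end EB

theorem ty_bip (Q : QF) (x y : ℕ) (h : eb Q x y = true) : ty Q x ≠ ty Q y := by
  have key : ∀ x, ty Q x = true ↔ (x < 6 * Q.1.length ∧ (x % 6 = 0 ∨ x % 6 = 2 ∨ x % 6 = 3)) ∨
      (6 * Q.1.length ≤ x ∧ x ≠ 6 * Q.1.length + 1) := by
    intro x
    unfold ty
    split_ifs with h1
    · simp only [h1, Bool.or_eq_true, decide_eq_true_eq, true_and]
      omega
    · simp only [Bool.not_eq_true', decide_eq_false_iff_not]
      omega
  intro he
  have he' : ty Q x = true ↔ ty Q y = true := by rw [he]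
  rw [key, key] at he'
  by_cases hx : x < 6 * Q.1.length
  · obtain ⟨j, r, hr, rfl⟩ : ∃ j r, r < 6 ∧ x = 6 * j + r := ⟨x / 6, x % 6, by omega, by omega⟩
    have hj : j < Q.1.length := by omega
    have : r = 0 ∨ r = 1 ∨ r = 2 ∨ r = 3 ∨ r = 4 ∨ r = 5 := by omega
    rcases this with rfl | rfl | rfl | rfl | rfl | rfl
    · rw [add_zero, eb0 hj] at h
      split_ifs at h <;> omega
    · rw [eb1 hj] at h; omega
    · rw [eb2 hj] at h; omega
    · rw [eb3 hj] at h; omega
    · rw [eb4 hj] at h; omega
    · rw [eb5 hj] at h; omega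
  · by_cases hx2 : x = 6 * Q.1.length
    · subst hx2
      rw [eb6] at h
      omega
    · by_cases hx3 : x = 6 * Q.1.length + 1
      · subst hx3
        rw [eb7] at h
        omega
      · obtain ⟨k, rfl⟩ : ∃ k, x = 6 * Q.1.length + 2 + k := ⟨x - (6 * Q.1.length + 2), by omega⟩
        rw [eb8] at h
        obtain ⟨l, _, hl, hy⟩ := h
        split_ifs at hy <;> omega

/-- The network on the natural numbers. -/
def netN (Q : QF) : Net ℕ := ⟨ty Q, fun x y => eb Q x y = true, ty_bip Q⟩

/-- The network. -/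
def netF (Q : QF) : Net (Fin (nn Q)) :=
  ⟨fun i => ty Q i.val, fun i j => eb Q i.val j.val = true, fun i j => ty_bip Q i.val j.val⟩

theorem netF_iff (Q : QF) (H : Finset (Fin (nn Q))) (i : Fin (nn Q)) :
    W (ggMv (netF Q)) (H, i) ↔ W (ggMv (netN Q)) (H.map Fin.valEmbedding, i.val) := by
  refine W_bisim_iff (fun a b => b = (a.1.map Fin.valEmbedding, a.2.val)) ?_ ?_ rfl
  · rintro ⟨H, i⟩ _ ⟨H', j⟩ rfl ⟨h1, h2, h3, h4⟩
    simp only at h1 h2 h3 h4
    subst h2
    have hmap : (H.erase i).map Fin.valEmbedding = (H.map Fin.valEmbedding).erase i.val := by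
      ext x
      simp only [Finset.mem_map, Finset.mem_erase, Fin.valEmbedding_apply]
      constructor
      · rintro ⟨a, ⟨h5, h6⟩, rfl⟩
        exact ⟨fun e => h5 (Fin.ext e), a, h6, rfl⟩
      · rintro ⟨h5, a, h6, rfl⟩
        exact ⟨a, ⟨fun e => h5 (by rw [e]), h6⟩, rfl⟩
    refine ⟨((H.erase i).map Fin.valEmbedding, j.val), ⟨?_, hmap, ?_, h4⟩, rfl⟩
    · exact Finset.mem_map.2 ⟨i, h1, rfl⟩
    · exact Finset.mem_map.2 ⟨j, h3, rfl⟩
  · rintro ⟨H, i⟩ _ ⟨H', y⟩ rfl ⟨h1, h2, h3, h4⟩
    simp only at h1 h2 h3 h4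
    subst h2
    rw [Finset.mem_erase, Finset.mem_map] at h3
    obtain ⟨h5, j, h6, rfl⟩ := h3
    have h1' : i ∈ H := by
      rw [Finset.mem_map] at h1
      obtain ⟨a, ha, hai⟩ := h1
      rwa [Fin.ext (hai : a.val = i.val)] at ha
    refine ⟨(H.erase i, j), ⟨h1', rfl, ?_, h4⟩, ?_⟩
    · refine Finset.mem_erase.2 ⟨?_, h6⟩
      intro e
      exact h5 (congrArg Fin.val e)
    · simp only [Fin.valEmbedding_apply, Prod.mk.injEq, and_true]
      ext x
      simp only [Finset.mem_map, Finset.mem_erase, Fin.valEmbedding_apply]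
      constructor
      · rintro ⟨h5, a, h6, rfl⟩
        exact ⟨a, ⟨fun e => h5 (by rw [e]), h6⟩, rfl⟩
      · rintro ⟨a, ⟨h5, h6⟩, rfl⟩
        exact ⟨fun e => h5 (Fin.ext e), a, h6, rfl⟩

variable {Q : QF}

theorem gg_iff {S : Finset ℕ} {x : ℕ} (hx : x ∈ S) :
    W (ggMv (netN Q)) (S, x) ↔ ∃ y ∈ S.erase x, eb Q x y = true ∧
      ¬ W (ggMv (netN Q)) (S.erase x, y) := by
  rw [W_iff (ggMv.wf _)]
  constructor
  · rintro ⟨⟨S', y⟩, ⟨_, h2, h3, h4⟩, h5⟩
    simp only at h2 h3 h4
    subst h2
    exact ⟨y, h3, h4, h5⟩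
  · rintro ⟨y, h3, h4, h5⟩
    exact ⟨(S.erase x, y), ⟨hx, rfl, h3, h4⟩, h5⟩

theorem gg_one {S : Finset ℕ} {x y : ℕ} (hx : x ∈ S) (hy : y ∈ S) (hyx : y ≠ x)
    (he : ∀ z, eb Q x z = true ↔ z = y) :
    W (ggMv (netN Q)) (S, x) ↔ ¬ W (ggMv (netN Q)) (S.erase x, y) := by
  rw [gg_iff hx]
  constructor
  · rintro ⟨z, _, h2, h3⟩
    rw [he] at h2
    subst h2
    exact h3
  · intro h
    exact ⟨y, Finset.mem_erase.2 ⟨hyx, hy⟩, (he y).2 rfl, h⟩

theorem gg_two {S : Finset ℕ} {x y y' : ℕ} (hx : x ∈ S) (hy : y ∈ S) (hyx : y ≠ x) (hy' : y' ∈ S)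
    (hyx' : y' ≠ x) (he : ∀ z, eb Q x z = true ↔ z = y ∨ z = y') :
    W (ggMv (netN Q)) (S, x) ↔ ¬ W (ggMv (netN Q)) (S.erase x, y) ∨
      ¬ W (ggMv (netN Q)) (S.erase x, y') := by
  rw [gg_iff hx]
  constructor
  · rintro ⟨z, _, h2, h3⟩
    rw [he] at h2
    rcases h2 with rfl | rfl
    · exact Or.inl h3
    · exact Or.inr h3
  · rintro (h | h)
    · exact ⟨y, Finset.mem_erase.2 ⟨hyx, hy⟩, (he y).2 (Or.inl rfl), h⟩
    · exact ⟨y', Finset.mem_erase.2 ⟨hyx', hy'⟩, (he y').2 (Or.inr rfl), h⟩

/-- The sets of unvisited nodes after the choice of the values of some variables. -/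
structure Inv (Q : QF) (u : List Bool) (S : Finset ℕ) : Prop where
  ge : ∀ x, 6 * u.length ≤ x → x < nn Q → x ∈ S
  lt : ∀ x ∈ S, x < nn Q
  c : ∀ j < u.length, 6 * j ∉ S
  t : ∀ j < u.length, (6 * j + 4 ∈ S ↔ u.getD j false = false)
  f : ∀ j < u.length, (6 * j + 5 ∈ S ↔ u.getD j false = true)

theorem Inv.next {u : List Bool} {S S' : Finset ℕ} (h : Inv Q u S) (b : Bool)
    (hS : ∀ x, x ∈ S' ∨ (6 * u.length ≤ x ∧ x < 6 * (u.length + 1)) ↔
      x ∈ S ∨ (6 * u.length ≤ x ∧ x < 6 * (u.length + 1)))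
    (hle : ∀ x ∈ S', x ∈ S)
    (hc : 6 * u.length ∉ S') (ht : 6 * u.length + 4 ∈ S' ↔ b = false)
    (hf : 6 * u.length + 5 ∈ S' ↔ b = true) : Inv Q (u ++ [b]) S' := by
  have hlen : (u ++ [b]).length = u.length + 1 := by simp
  refine ⟨?_, fun x hx => h.lt x (hle x hx), ?_, ?_, ?_⟩
  · intro x hx hx'
    rw [hlen] at hx
    have := (hS x).2 (Or.inl (h.ge x (by omega) hx'))
    rcases this with h1 | h1
    · exact h1
    · omega
  · intro j hj hjS
    rw [hlen] at hj
    by_cases hju : j = u.length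
    · subst hju
      exact hc hjS
    · exact h.c j (by omega) (hle _ hjS)
  · intro j hj
    rw [hlen] at hj
    by_cases hju : j = u.length
    · subst hju
      rw [ht]
      simp [List.getD_eq_getElem?_getD]
    · have h1 := h.t j (by omega)
      have h2 := hS (6 * j + 4)
      rw [show (u ++ [b]).getD j false = u.getD j false by
        simp only [List.getD_eq_getElem?_getD]
        rw [List.getElem?_append_left (by omega)], ← h1]
      constructor
      · exact fun h => hle _ h
      · intro h3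
        rcases h2.2 (Or.inl h3) with h4 | h4
        · exact h4
        · omega
  · intro j hj
    rw [hlen] at hj
    by_cases hju : j = u.length
    · subst hju
      rw [hf]
      simp [List.getD_eq_getElem?_getD]
    · have h1 := h.f j (by omega)
      have h2 := hS (6 * j + 5)
      rw [show (u ++ [b]).getD j false = u.getD j false by
        simp only [List.getD_eq_getElem?_getD]
        rw [List.getElem?_append_left (by omega)], ← h1]
      constructor
      · exact fun h => hle _ h
      · intro h3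
        rcases h2.2 (Or.inl h3) with h4 | h4
        · exact h4
        · omega

theorem Inv.final {u : List Bool} {S : Finset ℕ} (hQ : QFwf Q) (h : Inv Q u S)
    (hu : u.length = Q.1.length) :
    W (ggMv (netN Q)) (S, 6 * u.length) ↔ evc u Q.2 = true := by
  have hn : nn Q = 6 * Q.1.length + 2 + Q.2.length := rfl
  rw [hu]
  have hc : 6 * Q.1.length ∈ S := h.ge _ (by omega) (by omega)
  have hd : 6 * Q.1.length + 1 ∈ S := h.ge _ (by omega) (by omega)
  rw [gg_one hc hd (by omega) (fun z => eb6)]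
  have hd' : 6 * Q.1.length + 1 ∈ S.erase (6 * Q.1.length) :=
    Finset.mem_erase.2 ⟨by omega, hd⟩
  rw [gg_iff hd']
  unfold evc
  rw [List.all_eq_true]
  push Not
  constructor
  · intro hall c hcQ
    obtain ⟨k, hk, rfl⟩ := List.getElem_of_mem hcQ
    have hC : 6 * Q.1.length + 2 + k ∈ (S.erase (6 * Q.1.length)).erase (6 * Q.1.length + 1) :=
      Finset.mem_erase.2 ⟨by omega, Finset.mem_erase.2 ⟨by omega, h.ge _ (by omega) (by omega)⟩⟩
    have h1 := hall _ hC (eb7.2 (by omega))
    rw [gg_iff hC] at h1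
    obtain ⟨y, hy, he, _⟩ := h1
    rw [eb8] at he
    obtain ⟨l, hl, hln, rfl⟩ := he
    rw [List.any_eq_true]
    refine ⟨l, ?_, ?_⟩
    · simpa [List.getD_eq_getElem?_getD, hk] using hl
    · have hyS : 6 * l.2 + (if l.1 = true then 5 else 4) ∈ S :=
        Finset.mem_of_mem_erase (Finset.mem_of_mem_erase (Finset.mem_of_mem_erase hy))
      cases hl1 : l.1 with
      | true =>
        rw [hl1] at hyS
        rw [(h.f l.2 (by omega)).1 (by simpa using hyS)]
        rfl
      | false =>
        rw [hl1] at hyS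
        rw [(h.t l.2 (by omega)).1 (by simpa using hyS)]
        rfl
  · intro hall z hz he
    rw [eb7] at he
    have hzN := h.lt z (Finset.mem_of_mem_erase (Finset.mem_of_mem_erase hz))
    obtain ⟨k, rfl⟩ : ∃ k, z = 6 * Q.1.length + 2 + k := ⟨z - (6 * Q.1.length + 2), by omega⟩
    have hk : k < Q.2.length := by omega
    rw [gg_iff hz]
    have h1 := hall _ (List.getElem_mem hk)
    rw [List.any_eq_true] at h1
    obtain ⟨l, hl, hlb⟩ := h1
    have hln : l.2 < Q.1.length := hQ _ (List.getElem_mem hk) l hl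
    have hlb' : u.getD l.2 false = l.1 := by simpa using hlb
    have hyS : 6 * l.2 + (if l.1 = true then 5 else 4) ∈ S := by
      cases hl1 : l.1 with
      | true =>
        rw [if_pos rfl]
        exact (h.f l.2 (by omega)).2 (by rw [hlb', hl1])
      | false =>
        simp only [Bool.false_eq_true, if_false]
        exact (h.t l.2 (by omega)).2 (by rw [hlb', hl1])
    have hlt : 6 * l.2 + (if l.1 = true then 5 else 4) < 6 * Q.1.length := by
      split_ifs <;> omega
    refine ⟨6 * l.2 + (if l.1 = true then 5 else 4), ?_, ?_, ?_⟩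
    · refine Finset.mem_erase.2 ⟨by omega, Finset.mem_erase.2 ⟨by omega, Finset.mem_erase.2
        ⟨by omega, hyS⟩⟩⟩
    · rw [eb8]
      refine ⟨l, ?_, hln, rfl⟩
      simpa [List.getD_eq_getElem?_getD, hk] using hl
    · rw [gg_iff (Finset.mem_erase.2 ⟨by omega, Finset.mem_erase.2 ⟨by omega, Finset.mem_erase.2
        ⟨by omega, hyS⟩⟩⟩)]
      rintro ⟨y, hy, he', _⟩
      have hyS' : y ∈ S := Finset.mem_of_mem_erase (Finset.mem_of_mem_erase
        (Finset.mem_of_mem_erase (Finset.mem_of_mem_erase hy)))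
      have hyn : y ≠ 6 * Q.1.length := Finset.ne_of_mem_erase (Finset.mem_of_mem_erase
        (Finset.mem_of_mem_erase (Finset.mem_of_mem_erase hy)))
      have hy2 : y = 6 * (l.2 + 1) := by
        cases hl1 : l.1 with
        | true =>
          rw [hl1, if_pos rfl, eb5 hln] at he'
          exact he'
        | false =>
          rw [hl1] at he'
          simp only [Bool.false_eq_true, if_false] at he'
          rw [eb4 hln] at he'
          exact he'
      subst hy2
      exact h.c (l.2 + 1) (by omega) hyS'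

theorem gg_main (hQ : QFwf Q) (rest : List Bool) : ∀ (u : List Bool) (S : Finset ℕ),
    (∃ pre : List Bool, Q.1 = pre ++ rest ∧ pre.length = u.length) → Inv Q u S →
    (W (ggMv (netN Q)) (S, 6 * u.length) ↔ evq rest (fun w => evc (u ++ w) Q.2) = true) := by
  induction rest with
  | nil =>
    rintro u S ⟨pre, hpre, hlen⟩ h
    rw [h.final hQ (by rw [← hlen, hpre]; simp)]
    simp [evq]
  | cons q rest ih =>
    rintro u S ⟨pre, hpre, hlen⟩ h
    have hn : nn Q = 6 * Q.1.length + 2 + Q.2.length := rfl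
    have hlt : u.length < Q.1.length := by rw [hpre, ← hlen]; simp
    have hget : Q.1.getD u.length false = q := by
      rw [hpre, ← hlen]
      simp [List.getD_eq_getElem?_getD]
    have hmem : ∀ r < 6, 6 * u.length + r ∈ S := fun r hr => h.ge _ (by omega) (by omega)
    have hc1 : 6 * (u.length + 1) ∈ S := h.ge _ (by omega) (by omega)
    have hex : ∀ b : Bool, ∃ pre' : List Bool, Q.1 = pre' ++ rest ∧
        pre'.length = (u ++ [b]).length :=
      fun b => ⟨pre ++ [q], by rw [hpre]; simp, by simp [hlen]⟩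
    have hlen' : ∀ b : Bool, (u ++ [b]).length = u.length + 1 := fun b => by simp
    have happ : ∀ (b : Bool), (fun w => evc ((u ++ [b]) ++ w) Q.2) =
        (fun w => evc (u ++ (b :: w)) Q.2) := fun b => by
      funext w
      simp
    have h0 := hmem 0 (by omega)
    rw [add_zero] at h0
    -- the two continuations
    have keyT : ∀ S' : Finset ℕ, (∀ x, x ∈ S' ∨ (6 * u.length ≤ x ∧ x < 6 * (u.length + 1)) ↔
        x ∈ S ∨ (6 * u.length ≤ x ∧ x < 6 * (u.length + 1))) → (∀ x ∈ S', x ∈ S) →
        6 * u.length ∉ S' → 6 * u.length + 4 ∈ S' → 6 * u.length + 5 ∈ S' →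
        (¬ W (ggMv (netN Q)) (S', 6 * u.length + 4) ↔
          evq rest (fun w => evc (u ++ (true :: w)) Q.2) = true) := by
      intro S' h1 h2 h3 h4 h5
      have h6 : 6 * (u.length + 1) ∈ S' := by
        rcases (h1 (6 * (u.length + 1))).2 (Or.inl hc1) with h7 | h7
        · exact h7
        · omega
      rw [gg_one h4 h6 (by omega) (fun z => eb4 hlt), not_not, ← happ true,
        ← ih (u ++ [true]) (S'.erase (6 * u.length + 4)) (hex true), hlen']
      refine h.next true ?_ ?_ ?_ ?_ ?_
      · intro x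
        rw [← h1 x, Finset.mem_erase]
        constructor
        · rintro (⟨_, h7⟩ | h7)
          · exact Or.inl h7
          · exact Or.inr h7
        · rintro (h7 | h7)
          · by_cases hx : x = 6 * u.length + 4
            · right; omega
            · exact Or.inl ⟨hx, h7⟩
          · exact Or.inr h7
      · intro x hx
        exact h2 x (Finset.mem_of_mem_erase hx)
      · intro hx
        exact h3 (Finset.mem_of_mem_erase hx)
      · simp
      · rw [Finset.mem_erase]
        simp [h5]
    have keyF : ∀ S' : Finset ℕ, (∀ x, x ∈ S' ∨ (6 * u.length ≤ x ∧ x < 6 * (u.length + 1)) ↔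
        x ∈ S ∨ (6 * u.length ≤ x ∧ x < 6 * (u.length + 1))) → (∀ x ∈ S', x ∈ S) →
        6 * u.length ∉ S' → 6 * u.length + 4 ∈ S' → 6 * u.length + 5 ∈ S' →
        (¬ W (ggMv (netN Q)) (S', 6 * u.length + 5) ↔
          evq rest (fun w => evc (u ++ (false :: w)) Q.2) = true) := by
      intro S' h1 h2 h3 h4 h5
      have h6 : 6 * (u.length + 1) ∈ S' := by
        rcases (h1 (6 * (u.length + 1))).2 (Or.inl hc1) with h7 | h7
        · exact h7
        · omega
      rw [gg_one h5 h6 (by omega) (fun z => eb5 hlt), not_not, ← happ false,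
        ← ih (u ++ [false]) (S'.erase (6 * u.length + 5)) (hex false), hlen']
      refine h.next false ?_ ?_ ?_ ?_ ?_
      · intro x
        rw [← h1 x, Finset.mem_erase]
        constructor
        · rintro (⟨_, h7⟩ | h7)
          · exact Or.inl h7
          · exact Or.inr h7
        · rintro (h7 | h7)
          · by_cases hx : x = 6 * u.length + 5
            · right; omega
            · exact Or.inl ⟨hx, h7⟩
          · exact Or.inr h7
      · intro x hx
        exact h2 x (Finset.mem_of_mem_erase hx)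
      · intro hx
        exact h3 (Finset.mem_of_mem_erase hx)
      · rw [Finset.mem_erase]
        simp [h4]
      · simp
    cases q with
    | false =>
      have he : ∀ z, eb Q (6 * u.length) z = true ↔ z = 6 * u.length + 4 ∨ z = 6 * u.length + 5 := by
        intro z
        rw [eb0 hlt, hget]
        simp
      rw [gg_two h0 (hmem 4 (by omega)) (by omega) (hmem 5 (by omega)) (by omega) he]
      have hS : ∀ x, x ∈ S.erase (6 * u.length) ∨ (6 * u.length ≤ x ∧ x < 6 * (u.length + 1)) ↔
          x ∈ S ∨ (6 * u.length ≤ x ∧ x < 6 * (u.length + 1)) := by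
        intro x
        rw [Finset.mem_erase]
        constructor
        · rintro (⟨_, h7⟩ | h7)
          · exact Or.inl h7
          · exact Or.inr h7
        · rintro (h7 | h7)
          · by_cases hx : x = 6 * u.length
            · right; omega
            · exact Or.inl ⟨hx, h7⟩
          · exact Or.inr h7
      rw [keyT _ hS (fun x hx => Finset.mem_of_mem_erase hx) (by simp)
        (Finset.mem_erase.2 ⟨by omega, hmem 4 (by omega)⟩)
        (Finset.mem_erase.2 ⟨by omega, hmem 5 (by omega)⟩),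
        keyF _ hS (fun x hx => Finset.mem_of_mem_erase hx) (by simp)
        (Finset.mem_erase.2 ⟨by omega, hmem 4 (by omega)⟩)
        (Finset.mem_erase.2 ⟨by omega, hmem 5 (by omega)⟩)]
      simp only [evq, cond_false, Bool.or_eq_true]
      exact or_comm
    | true =>
      have he : ∀ z, eb Q (6 * u.length) z = true ↔ z = 6 * u.length + 1 := by
        intro z
        rw [eb0 hlt, hget]
        simp
      have m1 : ∀ r, r < 6 → r ≠ 0 → 6 * u.length + r ∈ S.erase (6 * u.length) := fun r hr hr0 =>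
        Finset.mem_erase.2 ⟨by omega, hmem r hr⟩
      rw [gg_one h0 (hmem 1 (by omega)) (by omega) he,
        gg_two (m1 1 (by omega) (by omega)) (m1 2 (by omega) (by omega)) (by omega)
          (m1 3 (by omega) (by omega)) (by omega) (fun z => eb1 hlt)]
      have m2 : ∀ r, r < 6 → r ≠ 0 → r ≠ 1 →
          6 * u.length + r ∈ (S.erase (6 * u.length)).erase (6 * u.length + 1) := fun r hr hr0 hr1 =>
        Finset.mem_erase.2 ⟨by omega, m1 r hr hr0⟩
      rw [gg_one (m2 2 (by omega) (by omega) (by omega)) (m2 4 (by omega) (by omega) (by omega))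
        (by omega) (fun z => eb2 hlt),
        gg_one (m2 3 (by omega) (by omega) (by omega)) (m2 5 (by omega) (by omega) (by omega))
        (by omega) (fun z => eb3 hlt)]
      have hS : ∀ r < 6, ∀ x, x ∈ ((S.erase (6 * u.length)).erase (6 * u.length + 1)).erase
          (6 * u.length + r) ∨ (6 * u.length ≤ x ∧ x < 6 * (u.length + 1)) ↔
          x ∈ S ∨ (6 * u.length ≤ x ∧ x < 6 * (u.length + 1)) := by
        intro r hr x
        simp only [Finset.mem_erase]
        constructor
        · rintro (⟨_, _, _, h7⟩ | h7)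
          · exact Or.inl h7
          · exact Or.inr h7
        · rintro (h7 | h7)
          · by_cases hx : x = 6 * u.length ∨ x = 6 * u.length + 1 ∨ x = 6 * u.length + r
            · right; omega
            · push Not at hx
              exact Or.inl ⟨hx.2.2, hx.2.1, hx.1, h7⟩
          · exact Or.inr h7
      rw [keyT _ (hS 2 (by omega)) (fun x hx => Finset.mem_of_mem_erase (Finset.mem_of_mem_erase
          (Finset.mem_of_mem_erase hx))) (by simp)
        (Finset.mem_erase.2 ⟨by omega, m2 4 (by omega) (by omega) (by omega)⟩)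
        (Finset.mem_erase.2 ⟨by omega, m2 5 (by omega) (by omega) (by omega)⟩),
        keyF _ (hS 3 (by omega)) (fun x hx => Finset.mem_of_mem_erase (Finset.mem_of_mem_erase
          (Finset.mem_of_mem_erase hx))) (by simp)
        (Finset.mem_erase.2 ⟨by omega, m2 4 (by omega) (by omega) (by omega)⟩)
        (Finset.mem_erase.2 ⟨by omega, m2 5 (by omega) (by omega) (by omega)⟩)]
      simp only [evq, cond_true, Bool.and_eq_true]
      tauto

/-- The node where the game starts. -/
def node0 (Q : QF) : Fin (nn Q) := ⟨0, by unfold nn; omega⟩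

theorem qbf_gg (hQ : QFwf Q) :
    W (ggMv (netF Q)) (Finset.univ, node0 Q) ↔ evq Q.1 (fun w => evc w Q.2) = true := by
  rw [netF_iff]
  have hS : (Finset.univ : Finset (Fin (nn Q))).map Fin.valEmbedding = Finset.range (nn Q) := by
    ext x
    simp only [Finset.mem_map, Finset.mem_univ, true_and, Fin.valEmbedding_apply, Finset.mem_range]
    exact ⟨fun ⟨a, ha⟩ => ha ▸ a.isLt, fun h => ⟨⟨x, h⟩, rfl⟩⟩
  rw [hS]
  have h := gg_main (Q := Q) hQ Q.1 [] (Finset.range (nn Q)) ⟨[], rfl, rfl⟩
    ⟨by simp, by simp, by simp, by simp, by simp⟩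
  simpa [node0] using h

theorem netF_typ0 (Q : QF) : (netF Q).typ (node0 Q) = true := by
  change ty Q 0 = true
  unfold ty
  split_ifs with h
  · simp
  · simp

/-- Arc-Kayles on the constructed graph. -/
theorem qbf_ak (hQ : QFwf Q) : FirstWins (akGraph (netF Q) (node0 Q)) Set.univ ↔
    evq Q.1 (fun w => evc w Q.2) = true := by
  rw [akGraph_iff _ _ (netF_typ0 Q), qbf_gg hQ]

end Pool.Agent.H656R2.AK
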