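import Pool.Agent.H656R2.AK.Mat

/-!
# The matrix of the constructed graph is computable in polynomial time
-/

namespace Pool.Agent.H656R2.AK

open Pool.Agent.NPC Pool.Agent.H623R2.PS

theorem poly_ty : Poly (fun p : QF × ℕ => ty p.1 p.2) := by
  unfold ty
  fun_prop

theorem poly_ty' {α : Type} [TEnc α] {Q : α → QF} {x : α → ℕ} (h1 : Poly Q) (h2 : Poly x) :
    Poly (fun a => ty (Q a) (x a)) := poly_ty.comp (h1.pair h2)

theorem poly_eb : Poly (fun p : QF × ℕ × ℕ => eb p.1 p.2.1 p.2.2) := by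
  unfold eb
  fun_prop

theorem poly_eb' {α : Type} [TEnc α] {Q : α → QF} {x y : α → ℕ} (h1 : Poly Q) (h2 : Poly x)
    (h3 : Poly y) : Poly (fun a => eb (Q a) (x a) (y a)) := poly_eb.comp (h1.pair (h2.pair h3))

attribute [fun_prop] poly_ty' poly_eb'

theorem poly_kd : Poly (fun p : QF × ℕ × ℕ => kd p.1 p.2.1 p.2.2) := by
  unfold kd
  fun_prop

theorem poly_kd' {α : Type} [TEnc α] {Q : α → QF} {x y : α → ℕ} (h1 : Poly Q) (h2 : Poly x)
    (h3 : Poly y) : Poly (fun a => kd (Q a) (x a) (y a)) := poly_kd.comp (h1.pair (h2.pair h3))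

attribute [fun_prop] poly_kd'

theorem poly_hl : Poly (fun p : QF × Lb × Lb => hl p.1 p.2.1 p.2.2) := by
  unfold hl
  fun_prop

theorem poly_hl' {α : Type} [TEnc α] {Q : α → QF} {x y : α → Lb} (h1 : Poly Q) (h2 : Poly x)
    (h3 : Poly y) : Poly (fun a => hl (Q a) (x a) (y a)) := poly_hl.comp (h1.pair (h2.pair h3))

attribute [fun_prop] poly_hl'

theorem poly_ad : Poly (fun p : QF × Lb × Lb => ad p.1 p.2.1 p.2.2) := by
  unfold ad
  fun_prop

theorem poly_ad' {α : Type} [TEnc α] {Q : α → QF} {x y : α → Lb} (h1 : Poly Q) (h2 : Poly x)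
    (h3 : Poly y) : Poly (fun a => ad (Q a) (x a) (y a)) := poly_ad.comp (h1.pair (h2.pair h3))

attribute [fun_prop] poly_ad'

theorem poly_vlist : Poly (fun Q : QF => vlist (nn Q)) := by
  have h1 : UPoly (fun Q : QF => nn Q) := by
    unfold nn
    exact (((UPoly.const 6).mul (UPoly.length (by fun_prop))).add (UPoly.const 2)).add
      (UPoly.length (by fun_prop))
  have h2 := h1.range
  have h3 : Poly (fun Q : QF => List.range 7) := NPC.Poly.const _
  have h4 : Poly (fun Q : QF => List.range 8) := NPC.Poly.const _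
  have h5 : Poly (fun Q : QF => List.range 2) := NPC.Poly.const _
  unfold vlist
  fun_prop

attribute [local irreducible] vlist ad

theorem poly_row : Poly (fun p : QF × Lb => (vlist (nn p.1)).map fun y => ad p.1 p.2 y) :=
  NPC.Poly.map (l := fun p : QF × Lb => vlist (nn p.1)) (F := fun p y => ad p.1 p.2 y)
    (poly_vlist.comp (Poly.fst Poly.id))
    (poly_ad' (Poly.fst (Poly.fst Poly.id)) (Poly.snd (Poly.fst Poly.id)) (Poly.snd Poly.id))

theorem poly_matQ : Poly matQ :=
  NPC.Poly.map poly_vlist (F := fun Q x => (vlist (nn Q)).map fun y => ad Q x y) poly_row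

end Pool.Agent.H656R2.AK
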