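import Pool.Agent.H656R2.AK.TQ

/-!
# Quantified formulas for rule systems, second part
-/

namespace Pool.Agent.H656R2.AK

open Pool.Agent.NPC Pool.Agent.H623R2.PS

set_option linter.unusedSectionVars false

/-- The implications of a rule system. The last list is the identity. -/
def impS (S : RS) : List (List (ℕ × ℕ)) :=
  (List.range (S.2.2.1.length + 1)).map fun i =>
    (List.range S.2.1.length ×ˢ List.range (S.1 + 1)).map fun p =>
      (p.1 * (S.1 + 1) + p.2, p.1 * (S.1 + 1) + tok S.1 (S.2.2.1.getD i []) p.1 p.2)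

/-- The number of bits of a state. -/
def wdS (S : RS) : ℕ := S.2.1.length * (S.1 + 1)

theorem tok_nil (V t v : ℕ) : tok V [] t v = v := by
  unfold tok
  split_ifs with h
  · exact h.symm
  · rfl

theorem tok_le' {S : RS} (hS : RSwf S) (i : ℕ) {t v : ℕ} (hv : v ≤ S.1) :
    tok S.1 (S.2.2.1.getD i []) t v ≤ S.1 := by
  by_cases hi : i < S.2.2.1.length
  · exact tok_le hS (getD_mem hi) hv
  · rw [List.getD_eq_default _ _ (by omega), tok_nil]
    exact hv

theorem cell_lt' {V T t v : ℕ} (ht : t < T) (hv : v ≤ V) : t * (V + 1) + v < T * (V + 1) := by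
  have : (t + 1) * (V + 1) ≤ T * (V + 1) := Nat.mul_le_mul_right _ ht
  rw [add_mul] at this
  omega

theorem impS_length (S : RS) : (impS S).length = S.2.2.1.length + 1 := by simp [impS]

theorem mem_prod' {α β : Type} {l : List α} {l' : List β} {p : α × β} :
    p ∈ l ×ˢ l' ↔ p.1 ∈ l ∧ p.2 ∈ l' := by
  obtain ⟨a, b⟩ := p
  exact List.pair_mem_product

theorem impS_getD (S : RS) {i : ℕ} (hi : i < S.2.2.1.length + 1) : (impS S).getD i [] =
    (List.range S.2.1.length ×ˢ List.range (S.1 + 1)).map fun p =>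
      (p.1 * (S.1 + 1) + p.2, p.1 * (S.1 + 1) + tok S.1 (S.2.2.1.getD i []) p.1 p.2) := by
  unfold impS
  rw [List.getD_eq_getElem _ _ (by simpa using hi)]
  simp

theorem bnd_impS {S : RS} (hS : RSwf S) : Bnd (wdS S) (impS S) := by
  intro L hL e he
  unfold impS at hL
  rw [List.mem_map] at hL
  obtain ⟨i, _, rfl⟩ := hL
  rw [List.mem_map] at he
  obtain ⟨⟨t, v⟩, htv, rfl⟩ := he
  rw [mem_prod', List.mem_range, List.mem_range] at htv
  simp only at htv ⊢
  exact ⟨cell_lt' htv.1 (by omega), cell_lt' htv.1 (tok_le' hS i (by omega))⟩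

theorem R1_iff (S : RS) (x y : ℕ → Bool) : R1 (impS S) x y ↔ ∃ i < S.2.2.1.length + 1,
    ∀ t < S.2.1.length, ∀ v ≤ S.1, x (t * (S.1 + 1) + v) = true →
      y (t * (S.1 + 1) + tok S.1 (S.2.2.1.getD i []) t v) = true := by
  unfold R1
  rw [impS_length]
  refine exists_congr fun i => and_congr_right fun hi => ?_
  rw [impS_getD S hi]
  constructor
  · intro h t ht v hv hx
    exact h _ (List.mem_map.2 ⟨(t, v), mem_prod'.2 ⟨List.mem_range.2 ht,
      List.mem_range.2 (by simp only; omega)⟩, rfl⟩) hx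
  · intro h e he
    rw [List.mem_map] at he
    obtain ⟨⟨t, v⟩, htv, rfl⟩ := he
    rw [mem_prod', List.mem_range, List.mem_range] at htv
    simp only at htv ⊢
    exact h t htv.1 v (by omega)

theorem Pa.sound {S : RS} (hS : RSwf S) {k : ℕ} : ∀ {x y : ℕ → Bool}, Pa (impS S) k x y →
    ∃ ws : List Rule, (∀ R ∈ ws, R ∈ S.2.2.1) ∧ ∀ t < S.2.1.length, ∀ v ≤ S.1,
      (ws.foldl (fun v R => tok S.1 R t v) v) ≤ S.1 ∧ (x (t * (S.1 + 1) + v) = true →
      y (t * (S.1 + 1) + ws.foldl (fun v R => tok S.1 R t v) v) = true) := by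
  induction k with
  | zero =>
    intro x y h
    rw [Pa, R1_iff] at h
    obtain ⟨i, hi, h⟩ := h
    by_cases hi' : i < S.2.2.1.length
    · refine ⟨[S.2.2.1.getD i []], ?_, ?_⟩
      · intro R hR
        rw [List.mem_singleton] at hR
        subst hR
        exact getD_mem hi'
      · intro t ht v hv
        exact ⟨tok_le' hS i hv, h t ht v hv⟩
    · refine ⟨[], by simp, ?_⟩
      intro t ht v hv
      have := h t ht v hv
      rw [List.getD_eq_default _ _ (by omega), tok_nil] at this
      exact ⟨hv, this⟩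
  | succ k ih =>
    rintro x y ⟨z, h1, h2⟩
    obtain ⟨ws1, g1, g2⟩ := ih h1
    obtain ⟨ws2, g3, g4⟩ := ih h2
    refine ⟨ws1 ++ ws2, ?_, ?_⟩
    · intro R hR
      rcases List.mem_append.1 hR with hR | hR
      · exact g1 R hR
      · exact g3 R hR
    · intro t ht v hv
      rw [List.foldl_append]
      obtain ⟨g5, g6⟩ := g2 t ht v hv
      obtain ⟨g7, g8⟩ := g4 t ht _ g5
      exact ⟨g7, fun hx => g8 (g6 hx)⟩

/-- states of a rule system -/
abbrev StS (S : RS) := Fin S.2.1.length → Fin (S.1 + 1)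

/-- one step -/
def stepS (S : RS) (σ σ' : StS S) : Prop :=
  ∃ i < S.2.2.1.length, ∀ t, (σ' t).val = tok S.1 (S.2.2.1.getD i []) t (σ t).val

/-- one-hot encoding -/
def oh {S : RS} (σ : StS S) (p : ℕ) : Bool :=
  decide (∃ t : Fin S.2.1.length, p = t.val * (S.1 + 1) + (σ t).val)

theorem oh_iff {S : RS} (σ : StS S) (t : Fin S.2.1.length) {v : ℕ} (hv : v ≤ S.1) :
    oh σ (t.val * (S.1 + 1) + v) = true ↔ (σ t).val = v := by
  unfold oh
  rw [decide_eq_true_eq]
  constructor
  · rintro ⟨t', h⟩
    have hlt := (σ t').isLt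
    have h1 : (t.val * (S.1 + 1) + v) / (S.1 + 1) = t.val := by
      rw [mul_comm, Nat.mul_add_div (by omega), Nat.div_eq_of_lt (by omega), add_zero]
    have h2 : (t'.val * (S.1 + 1) + (σ t').val) / (S.1 + 1) = t'.val := by
      rw [mul_comm, Nat.mul_add_div (by omega), Nat.div_eq_of_lt (by omega), add_zero]
    have h3 : t = t' := Fin.ext (by rw [← h1, h, h2])
    subst h3
    omega
  · rintro rfl
    exact ⟨t, rfl⟩

theorem Pa_of_pth {S : RS} (hS : RSwf S) (k : ℕ) : ∀ (n : ℕ) (σ σ' : StS S), n ≤ 2 ^ k →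
    Pth (stepS S) n σ σ' → Pa (impS S) k (oh σ) (oh σ') := by
  induction k with
  | zero =>
    intro n σ σ' hn h
    rw [Pa, R1_iff]
    have : n = 0 ∨ n = 1 := by simp at hn; omega
    rcases this with rfl | rfl
    · have e : σ = σ' := h
      subst e
      refine ⟨S.2.2.1.length, by omega, ?_⟩
      intro t ht v hv hx
      rw [List.getD_eq_default _ _ (by omega), tok_nil]
      exact hx
    · obtain ⟨c, ⟨i, hi, h1⟩, h2⟩ := h
      have e : c = σ' := h2
      subst e
      refine ⟨i, by omega, ?_⟩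
      intro t ht v hv hx
      rw [oh_iff σ ⟨t, ht⟩ hv] at hx
      have h3 := h1 ⟨t, ht⟩
      rw [hx] at h3
      exact (oh_iff c ⟨t, ht⟩ (tok_le' hS i hv)).2 h3
  | succ k ih =>
    intro n σ σ' hn h
    rw [pow_succ] at hn
    obtain ⟨n1, n2, e, hn1, hn2⟩ : ∃ n1 n2, n = n1 + n2 ∧ n1 ≤ 2 ^ k ∧ n2 ≤ 2 ^ k :=
      ⟨min n (2 ^ k), n - min n (2 ^ k), by omega, by omega, by omega⟩
    rw [e] at h
    obtain ⟨τ, p1, p2⟩ := h.split
    exact ⟨oh τ, ih n1 σ τ hn1 p1, ih n2 τ σ' hn2 p2⟩

theorem path_of_word {S : RS} (hS : RSwf S) (ws : List Rule) (hws : ∀ R ∈ ws, R ∈ S.2.2.1) :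
    ∀ σ : StS S, ∃ σ' : StS S, Relation.ReflTransGen (stepS S) σ σ' ∧
      ∀ t, (σ' t).val = ws.foldl (fun v R => tok S.1 R t.val v) (σ t).val := by
  induction ws with
  | nil => exact fun σ => ⟨σ, Relation.ReflTransGen.refl, fun t => rfl⟩
  | cons R ws ih =>
    intro σ
    obtain ⟨i, hi, hiR⟩ := List.getElem_of_mem (hws R (by simp))
    have hR : S.2.2.1.getD i [] = R := by rw [List.getD_eq_getElem _ _ hi, hiR]
    let τ : StS S := fun t => ⟨tok S.1 R t (σ t).val, by
      have := tok_le' hS i (t := t.val) (v := (σ t).val) (by have := (σ t).isLt; omega)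
      rw [hR] at this
      omega⟩
    obtain ⟨σ', h1, h2⟩ := ih (fun R hR => hws R (List.mem_cons_of_mem _ hR)) τ
    refine ⟨σ', Relation.ReflTransGen.head ⟨i, hi, fun t => ?_⟩ h1, ?_⟩
    · rw [hR]
    · intro t
      rw [h2 t]
      rfl

theorem card_le (S : RS) : (Set.univ : Set (StS S)).ncard ≤ 2 ^ wdS S := by
  rw [Set.ncard_univ, Nat.card_eq_fintype_card, Fintype.card_fun, Fintype.card_fin,
    Fintype.card_fin]
  unfold wdS
  rw [mul_comm, pow_mul]
  exact Nat.pow_le_pow_left (Nat.lt_two_pow_self).le _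

/-- The clauses for the first and the last position. -/
def topC (S : RS) : List (List (Bool × ℕ)) :=
  ((List.range S.2.1.length).map fun t => [(true, t * (S.1 + 1) + S.2.1.getD t 0)]) ++
    ((List.range S.2.1.length ×ˢ List.range (S.1 + 1)).filter
      (fun p => !okf S.1 S.2.2.2 p.1 p.2)).map fun p => [(false, wdS S + (p.1 * (S.1 + 1) + p.2))]

/-- The formula. -/
def qfS (S : RS) : QF :=
  (List.replicate (2 * wdS S) false ++ levQ (wdS S) (impS S).length (wdS S),
    topC S ++ allC (wdS S) (impS S) (wdS S) 0)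

theorem evc_topC {S : RS} (U : List Bool) : evc U (topC S) = true ↔
    (∀ t < S.2.1.length, U.getD (t * (S.1 + 1) + S.2.1.getD t 0) false = true) ∧
    ∀ t < S.2.1.length, ∀ v ≤ S.1, okf S.1 S.2.2.2 t v = false →
      U.getD (wdS S + (t * (S.1 + 1) + v)) false = false := by
  unfold topC
  rw [evc_append, Bool.and_eq_true]
  refine and_congr ?_ ?_
  · unfold evc
    simp only [List.all_map, List.all_eq_true, List.mem_range, Function.comp, List.any_cons,
      List.any_nil, Bool.or_false, beq_iff_eq]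
  · unfold evc
    simp only [List.all_map, List.all_eq_true, List.mem_filter, mem_prod', List.mem_range,
      Function.comp, List.any_cons, List.any_nil, Bool.or_false, beq_iff_eq, Bool.not_eq_true']
    constructor
    · intro h t ht v hv ho
      exact h (t, v) ⟨⟨ht, by simp only; omega⟩, ho⟩
    · rintro h ⟨t, v⟩ ⟨⟨h1, h2⟩, h3⟩
      exact h t h1 v (by simp only at h2; omega) h3

theorem topC_lt {S : RS} (hS : RSwf S) : ∀ c ∈ topC S, ∀ l ∈ c, l.2 < 2 * wdS S := by
  intro c hc l hl
  unfold topC at hc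
  rw [List.mem_append, List.mem_map, List.mem_map] at hc
  rcases hc with ⟨t, ht, rfl⟩ | ⟨⟨t, v⟩, htv, rfl⟩
  · rw [List.mem_range] at ht
    rw [List.mem_singleton] at hl
    subst hl
    have h1 : S.2.1.getD t 0 < S.1 := by
      rw [List.getD_eq_getElem _ _ ht]
      exact hS.1 _ (List.getElem_mem ht)
    have := cell_lt' (V := S.1) ht h1.le
    simp only [wdS]
    omega
  · rw [List.mem_filter, mem_prod', List.mem_range, List.mem_range] at htv
    rw [List.mem_singleton] at hl
    subst hl
    have := cell_lt' (V := S.1) (v := v) htv.1.1 (by have := htv.1.2; simp only at this; omega)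
    simp only [wdS] at this ⊢
    omega

theorem qfS_iff {S : RS} (hS : RSwf S) :
    evq (qfS S).1 (fun v => evc v (qfS S).2) = true ↔ RSyes S := by
  unfold qfS
  simp only
  rw [evq_exists]
  have key : ∀ U : List Bool, U.length = 2 * wdS S →
      (evq (levQ (wdS S) (impS S).length (wdS S)) (fun u => evc (U ++ u)
        (topC S ++ allC (wdS S) (impS S) (wdS S) 0)) = true ↔ evc U (topC S) = true ∧
        Pa (impS S) (wdS S) (fun p => U.getD p false) (fun p => U.getD (wdS S + p) false)) := by
    intro U hU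
    have h1 : (fun u => evc (U ++ u) (topC S ++ allC (wdS S) (impS S) (wdS S) 0)) =
        (fun u => evc U (topC S) && evc (U ++ u) (allC (wdS S) (impS S) (wdS S) 0)) := by
      funext u
      rw [evc_append]
      congr 1
      refine evc_congr fun c hc l hl => ?_
      exact getD_append_left (by have := topC_lt hS c hc l hl; omega)
    rw [h1, evq_and, Bool.and_eq_true, lev_iff (bnd_impS hS) _ 0 U (by omega)]
    simp only [zero_add]
  constructor
  · rintro ⟨U, hU, h⟩
    rw [key U hU, evc_topC] at h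
    obtain ⟨⟨h1, h2⟩, h3⟩ := h
    obtain ⟨ws, g1, g2⟩ := h3.sound hS
    refine ⟨ws, g1, fun t ht => ?_⟩
    have hv : S.2.1.getD t 0 ≤ S.1 := by
      rw [List.getD_eq_getElem _ _ ht]
      exact (hS.1 _ (List.getElem_mem ht)).le
    obtain ⟨g3, g4⟩ := g2 t ht _ hv
    have g5 := g4 (h1 t ht)
    by_contra hc
    rw [Bool.not_eq_true] at hc
    have g6 := h2 t ht _ g3 hc
    rw [g6] at g5
    exact absurd g5 (by simp)
  · rintro ⟨ws, hws, hok⟩
    have hv : ∀ t : Fin S.2.1.length, S.2.1.getD t.val 0 < S.1 + 1 := by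
      intro t
      rw [List.getD_eq_getElem _ _ t.isLt]
      have := hS.1 _ (List.getElem_mem t.isLt)
      omega
    let σ : StS S := fun t => ⟨S.2.1.getD t.val 0, hv t⟩
    obtain ⟨σ', h1, h2⟩ := path_of_word hS ws hws σ
    obtain ⟨n, hn, hp⟩ := exists_short (S := Set.univ) Set.finite_univ (Set.mem_univ σ)
      (fun _ _ _ _ => Set.mem_univ _) h1
    have hPa := Pa_of_pth hS (wdS S) n σ σ' (hn.trans (card_le S)) hp
    refine ⟨(List.range (wdS S)).map (oh σ) ++ (List.range (wdS S)).map (oh σ'),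
      by simp; omega, ?_⟩
    rw [key _ (by simp; omega), evc_topC]
    have g1 : ∀ p < wdS S, ((List.range (wdS S)).map (oh σ) ++
        (List.range (wdS S)).map (oh σ')).getD p false = oh σ p := by
      intro p hp
      rw [getD_append_left (by simpa using hp)]
      simp [List.getD_eq_getElem?_getD, hp]
    have g2 : ∀ p < wdS S, ((List.range (wdS S)).map (oh σ) ++
        (List.range (wdS S)).map (oh σ')).getD (wdS S + p) false = oh σ' p := by
      intro p hp
      rw [getD_append_right (j := p) (by simp)]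
      simp [List.getD_eq_getElem?_getD, hp]
    refine ⟨⟨?_, ?_⟩, ?_⟩
    · intro t ht
      have hle : S.2.1.getD t 0 ≤ S.1 := by have := hv ⟨t, ht⟩; simp only at this; omega
      rw [g1 _ (cell_lt' ht hle), oh_iff σ ⟨t, ht⟩ hle]
    · intro t ht v hv' ho
      rw [g2 _ (cell_lt' ht hv')]
      by_contra hc
      rw [Bool.not_eq_false, oh_iff σ' ⟨t, ht⟩ hv', h2] at hc
      have := hok t ht
      change okf S.1 S.2.2.2 t (ws.foldl (fun v R => tok S.1 R t v) (S.2.1.getD t 0)) = true at this
      change ws.foldl (fun v R => tok S.1 R t v) (S.2.1.getD t 0) = v at hc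
      rw [hc, ho] at this
      exact absurd this (by simp)
    · exact hPa.mono (bnd_impS hS) (fun p hp => by rw [g1 p hp]; exact fun h => h)
        (fun p hp => by rw [g2 p hp]; exact fun h => h)

theorem levQ_length (w m k : ℕ) : (levQ w m k).length = k * (3 * w + 1) + m := by
  induction k with
  | zero => simp [levQ]
  | succ k ih =>
    simp only [levQ, List.length_append, List.length_replicate, List.length_cons, ih]
    ring

theorem allC_lt {w : ℕ} {imps : List (List (ℕ × ℕ))} (hb : Bnd w imps) (k : ℕ) : ∀ o : ℕ,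
    ∀ c ∈ allC w imps k o, ∀ l ∈ c, l.2 < o + 2 * w + k * (3 * w + 1) + imps.length := by
  induction k with
  | zero =>
    intro o c hc l hl
    unfold allC lastC at hc
    rw [List.mem_cons] at hc
    rcases hc with rfl | hc
    · rw [List.mem_map] at hl
      obtain ⟨i, hi, rfl⟩ := hl
      rw [List.mem_range] at hi
      simp only
      omega
    · rw [List.mem_flatMap] at hc
      obtain ⟨i, hi, hc⟩ := hc
      rw [List.mem_range] at hi
      rw [List.mem_map] at hc
      obtain ⟨e, he, rfl⟩ := hc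
      have hmem : imps.getD i [] ∈ imps := by
        rw [List.getD_eq_getElem _ _ hi]
        exact List.getElem_mem hi
      obtain ⟨h2, h3⟩ := hb _ hmem e he
      simp only [List.mem_cons, List.not_mem_nil, or_false] at hl
      rcases hl with rfl | rfl | rfl <;> simp only <;> omega
  | succ k ih =>
    intro o c hc l hl
    rw [allC, List.mem_append] at hc
    rcases hc with hc | hc
    · have := levC_lt c hc l hl
      have e := Nat.add_mul k 1 (3 * w + 1)
      omega
    · have := ih _ c hc l hl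
      have e := Nat.add_mul k 1 (3 * w + 1)
      omega

theorem qfS_wf {S : RS} (hS : RSwf S) : QFwf (qfS S) := by
  intro c hc l hl
  have hlen : (qfS S).1.length = 2 * wdS S + (wdS S * (3 * wdS S + 1) + (impS S).length) := by
    simp only [qfS, List.length_append, List.length_replicate, levQ_length]
  rw [hlen]
  simp only [qfS, List.mem_append] at hc
  rcases hc with hc | hc
  · have := topC_lt hS c hc l hl
    omega
  · have := allC_lt (bnd_impS hS) _ 0 c hc l hl
    omega

end Pool.Agent.H656R2.AK
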