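import Pool.Agent.H623R2.PS.RulesPoly
import Pool.Agent.H656R2.AK.TQ2
import Pool.Agent.H656R2.AK.MatPoly

/-!
# Arc-Kayles is hard for polynomial space
-/

namespace Pool.Agent.H656R2.AK

open Pool.Agent.NPC Pool.Agent.H623R2.PS

set_option linter.unusedSectionVars false

theorem allC_eq (w : ℕ) (imps : List (List (ℕ × ℕ))) (k : ℕ) : ∀ o : ℕ, allC w imps k o =
    ((List.range k).flatMap fun j => levC w (o + j * (3 * w + 1))) ++
      lastC w (o + k * (3 * w + 1)) imps := by
  induction k with
  | zero => intro o; simp [allC]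
  | succ k ih =>
    intro o
    rw [allC, ih, List.range_succ_eq_map, List.flatMap_cons, List.flatMap_map, ← List.append_assoc]
    congr 1
    · congr 1
      · simp
      · congr 1
        funext j
        congr 1
        rw [Nat.succ_eq_add_one]
        ring
    · congr 1
      ring

theorem levQ_eq (w m k : ℕ) : levQ w m k =
    ((List.range k).flatMap fun _ => List.replicate w false ++ (true :: List.replicate (2 * w) false))
      ++ List.replicate m false := by
  induction k with
  | zero => simp [levQ]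
  | succ k ih =>
    rw [levQ, ih, List.range_succ_eq_map, List.flatMap_cons, List.flatMap_map]
    simp

section

variable {α : Type} [TEnc α]

theorem poly_impS {S : α → RS} (hS : NPC.Poly S) (hU : UPoly (fun x => (S x).1)) :
    NPC.Poly (fun x => impS (S x)) := by
  have hI : NPC.Poly (fun x => (S x).2.1) := NPC.Poly.fst (NPC.Poly.snd hS)
  have hR : NPC.Poly (fun x => (S x).2.2.1) := NPC.Poly.fst (NPC.Poly.snd (NPC.Poly.snd hS))
  have hm : UPoly (fun x => (S x).2.2.1.length + 1) := (UPoly.length hR).add (UPoly.const 1)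
  have hT : UPoly (fun x => (S x).2.1.length) := UPoly.length hI
  have hV1 : UPoly (fun x => (S x).1 + 1) := hU.add (UPoly.const 1)
  have h1 : NPC.Poly (fun x => List.range (S x).2.1.length ×ˢ List.range ((S x).1 + 1)) := by
    have := hT.range
    have := hV1.range
    fun_prop
  unfold impS
  refine NPC.Poly.map (l := fun x => List.range ((S x).2.2.1.length + 1))
    (F := fun x i => (List.range (S x).2.1.length ×ˢ List.range ((S x).1 + 1)).map fun p =>
      (p.1 * ((S x).1 + 1) + p.2, p.1 * ((S x).1 + 1) + tok (S x).1 ((S x).2.2.1.getD i []) p.1 p.2))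
    hm.range ?_
  refine NPC.Poly.map (l := fun q : α × ℕ => List.range (S q.1).2.1.length ×ˢ
      List.range ((S q.1).1 + 1))
    (F := fun q p => (p.1 * ((S q.1).1 + 1) + p.2, p.1 * ((S q.1).1 + 1) +
      tok (S q.1).1 ((S q.1).2.2.1.getD q.2 []) p.1 p.2))
    (h1.comp (NPC.Poly.fst NPC.Poly.id)) ?_
  have hx : NPC.Poly (fun q : (α × ℕ) × (ℕ × ℕ) => q.1.1) := NPC.Poly.fst (NPC.Poly.fst NPC.Poly.id)
  have hVx : NPC.Poly (fun q : (α × ℕ) × (ℕ × ℕ) => (S q.1.1).1) := hU.toPoly.comp hx
  have hRx : NPC.Poly (fun q : (α × ℕ) × (ℕ × ℕ) => (S q.1.1).2.2.1.getD q.1.2 []) :=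
    NPC.Poly.getD (hR.comp hx) (NPC.Poly.snd (NPC.Poly.fst NPC.Poly.id)) (NPC.Poly.const [])
  have htok : NPC.Poly (fun q : (α × ℕ) × (ℕ × ℕ) =>
      tok (S q.1.1).1 ((S q.1.1).2.2.1.getD q.1.2 []) q.2.1 q.2.2) :=
    poly_tok hVx hRx (NPC.Poly.fst (NPC.Poly.snd NPC.Poly.id))
      (NPC.Poly.snd (NPC.Poly.snd NPC.Poly.id))
  fun_prop

theorem upoly_wdS {S : α → RS} (hS : NPC.Poly S) (hU : UPoly (fun x => (S x).1)) :
    UPoly (fun x => wdS (S x)) := by
  have hI : NPC.Poly (fun x => (S x).2.1) := NPC.Poly.fst (NPC.Poly.snd hS)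
  exact (UPoly.length hI).mul (hU.add (UPoly.const 1))

theorem poly_topC {S : α → RS} (hS : NPC.Poly S) (hU : UPoly (fun x => (S x).1)) :
    NPC.Poly (fun x => topC (S x)) := by
  have hI : NPC.Poly (fun x => (S x).2.1) := NPC.Poly.fst (NPC.Poly.snd hS)
  have hF : NPC.Poly (fun x => (S x).2.2.2) := NPC.Poly.snd (NPC.Poly.snd (NPC.Poly.snd hS))
  have hT : UPoly (fun x => (S x).2.1.length) := UPoly.length hI
  have hV1 : UPoly (fun x => (S x).1 + 1) := hU.add (UPoly.const 1)
  have hw := (upoly_wdS hS hU).toPoly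
  have h1 : NPC.Poly (fun x => List.range (S x).2.1.length ×ˢ List.range ((S x).1 + 1)) := by
    have := hT.range
    have := hV1.range
    fun_prop
  have hV := hU.toPoly
  have h2 : NPC.Poly (fun x => (List.range (S x).2.1.length ×ˢ List.range ((S x).1 + 1)).filter
      (fun p => !okf (S x).1 (S x).2.2.2 p.1 p.2)) := by
    refine NPC.Poly.filter (l := fun x => List.range (S x).2.1.length ×ˢ List.range ((S x).1 + 1))
      (p := fun x p => !okf (S x).1 (S x).2.2.2 p.1 p.2) h1 ?_
    have hx : NPC.Poly (fun q : α × (ℕ × ℕ) => q.1) := NPC.Poly.fst NPC.Poly.id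
    exact NPC.Poly.not (poly_okf (hV.comp hx) (hF.comp hx) (NPC.Poly.fst (NPC.Poly.snd NPC.Poly.id))
      (NPC.Poly.snd (NPC.Poly.snd NPC.Poly.id)))
  have h3 := hT.range
  have hx : NPC.Poly (fun q : α × (ℕ × ℕ) => q.1) := NPC.Poly.fst NPC.Poly.id
  have hwx : NPC.Poly (fun q : α × (ℕ × ℕ) => wdS (S q.1)) := hw.comp hx
  have hVx : NPC.Poly (fun q : α × (ℕ × ℕ) => (S q.1).1) := hV.comp hx
  unfold topC
  refine NPC.Poly.append ?_ (NPC.Poly.map
    (F := fun x p => [(false, wdS (S x) + (p.1 * ((S x).1 + 1) + p.2))]) h2 ?_)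
  · fun_prop
  · fun_prop

theorem poly_lastC : NPC.Poly (fun p : ℕ × ℕ × List (List (ℕ × ℕ)) => lastC p.1 p.2.1 p.2.2) := by
  have h : NPC.Poly (fun p : ℕ × ℕ × List (List (ℕ × ℕ)) => List.range p.2.2.length) :=
    (UPoly.length (NPC.Poly.snd (NPC.Poly.snd NPC.Poly.id))).range
  unfold lastC
  fun_prop

theorem poly_levC {w o : α → ℕ} (hw : UPoly w) (ho : NPC.Poly o) :
    NPC.Poly (fun x => levC (w x) (o x)) := by
  have h := hw.range
  have h' := hw.toPoly
  unfold levC
  fun_prop

theorem poly_allC {w : α → ℕ} {imps : α → List (List (ℕ × ℕ))} (hw : UPoly w)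
    (hi : NPC.Poly imps) : NPC.Poly (fun x => allC (w x) (imps x) (w x) 0) := by
  have hwp := hw.toPoly
  have h1 : NPC.Poly (fun x => (List.range (w x)).flatMap
      fun j => levC (w x) (0 + j * (3 * w x + 1))) := by
    refine NPC.Poly.flatMap (l := fun x => List.range (w x))
      (F := fun x j => levC (w x) (0 + j * (3 * w x + 1))) hw.range ?_
    refine poly_levC (w := fun q : α × ℕ => w q.1) (hw.comp (NPC.Poly.fst NPC.Poly.id)) ?_
    fun_prop
  have h2 : NPC.Poly (fun x => lastC (w x) (0 + w x * (3 * w x + 1)) (imps x)) :=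
    poly_lastC.comp (f := fun x => (w x, 0 + w x * (3 * w x + 1), imps x)) (by fun_prop)
  exact (h1.append h2).congr fun x => (allC_eq _ _ _ _).symm

theorem poly_levQ {w m : α → ℕ} (hw : UPoly w) (hm : UPoly m) :
    NPC.Poly (fun x => levQ (w x) (m x) (w x)) := by
  have h0 : NPC.Poly (fun x => List.replicate (w x) false ++
      (true :: List.replicate (2 * w x) false)) := by
    have h1 := poly_replicate hw false
    have h2 := poly_replicate ((UPoly.const 2).mul hw) false
    fun_prop
  have h1 : NPC.Poly (fun x => (List.range (w x)).flatMap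
      fun _ => List.replicate (w x) false ++ (true :: List.replicate (2 * w x) false)) := by
    refine NPC.Poly.flatMap (l := fun x => List.range (w x))
      (F := fun x _ => List.replicate (w x) false ++ (true :: List.replicate (2 * w x) false))
      hw.range ?_
    exact h0.comp (NPC.Poly.fst NPC.Poly.id)
  have h2 := poly_replicate hm false
  exact (h1.append h2).congr fun x => (levQ_eq _ _ _).symm

theorem poly_qfS {S : α → RS} (hS : NPC.Poly S) (hU : UPoly (fun x => (S x).1)) :
    NPC.Poly (fun x => qfS (S x)) := by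
  have hw := upoly_wdS hS hU
  have hi := poly_impS hS hU
  have h1 := poly_replicate ((UPoly.const 2).mul hw) false
  have h2 := poly_levQ hw (UPoly.length hi)
  exact NPC.Poly.pair (h1.append h2) ((poly_topC hS hU).append (poly_allC hw hi))

end

/-- Quantified formulas in conjunctive normal form are hard for polynomial space. -/
theorem qbf_hard {L : Set (List Bool)} (hL : InPSPACE L) : ∃ f : List Bool → QF, NPC.Poly f ∧
    (∀ x, QFwf (f x)) ∧ ∀ x, x ∈ L ↔ evq (f x).1 (fun v => evc v (f x).2) = true := by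
  obtain ⟨S, hS, hV, hwf, hS'⟩ := pspace_rules hL
  exact ⟨fun x => qfS (S x), poly_qfS hS hV, fun x => qfS_wf (hwf x),
    fun x => by rw [hS' x, qfS_iff (hwf x)]⟩

theorem arcKayles_reduction {L : Set (List Bool)} (hL : InPSPACE L) :
    ∃ f : List Bool → List (List Bool), NPC.Poly f ∧ ∀ x, x ∈ L ↔ ArcKayles (f x) := by
  obtain ⟨f, hf, hwf, hf'⟩ := qbf_hard hL
  exact ⟨fun x => matQ (f x), poly_matQ.comp hf, fun x => by rw [hf' x, matQ_iff (hwf x)]⟩

theorem arcKayles_hard : PSPACEHard (lang ArcKayles) := by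
  intro L hL
  obtain ⟨f, hf, hf'⟩ := arcKayles_reduction hL
  exact ⟨fun x => bits (f x), polyTime_bits hf, fun x => by rw [hf' x, bits_mem_lang]⟩

end Pool.Agent.H656R2.AK
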