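import Pool.Agent.H623R2.PS.Savitch
import Pool.Agent.H656R2.AK.Game

/-!
# Games with polynomially many moves can be solved in polynomial space
-/

namespace Pool.Agent.H656R2.AK

open Pool.Agent.NPC Pool.Agent.H623R2.PS

set_option linter.unusedSectionVars false

section Gen

variable {β : Type}

/-- The element at the first `true`. -/
def pick : List β → List Bool → Option β
  | b :: ms, c :: M => if c = true then some b else pick ms M
  | _, _ => none

theorem pick_mem : ∀ {ms : List β} {M : List Bool} {b : β}, pick ms M = some b → b ∈ ms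
  | [], M, b, h => by simp [pick] at h
  | a :: ms, [], b, h => by simp [pick] at h
  | a :: ms, c :: M, b, h => by
    unfold pick at h
    split_ifs at h
    · rw [Option.some_inj] at h
      subst h
      exact List.mem_cons_self
    · exact List.mem_cons_of_mem _ (pick_mem h)

theorem exists_pick : ∀ {ms : List β} {b : β} {w : ℕ}, b ∈ ms → ms.length ≤ w →
    ∃ M : List Bool, M.length = w ∧ pick ms M = some b
  | [], b, w, h, _ => by simp at h
  | a :: ms, b, 0, _, h' => by simp at h'
  | a :: ms, b, w + 1, h, h' => by
    rcases List.mem_cons.1 h with rfl | h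
    · exact ⟨true :: List.replicate w false, by simp, by simp [pick]⟩
    · obtain ⟨M, h1, h2⟩ := exists_pick h (w := w) (by simpa using h')
      exact ⟨false :: M, by simp [h1], by simp [pick, h2]⟩

theorem pick_eq : ∀ (ms : List β) (M : List Bool), pick ms M =
    (((ms.zip M).filter fun p => p.2).head?).map fun p => p.1
  | [], M => by simp [pick]
  | a :: ms, [] => by simp [pick]
  | a :: ms, c :: M => by
    unfold pick
    rw [pick_eq ms M]
    cases c <;> simp

/-- The state of the evaluation: the result, if the game is over, the position, the player to move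
and the bits of the current choice. -/
abbrev GS (β : Type) := Option Bool × β × Bool × List Bool

/-- the state after a choice -/
def gfin (moves : β → List β) (r : Option Bool) (b : β) (p : Bool) (M : List Bool) : GS β :=
  r.elim ((pick (moves b) M).elim (some (!p), b, !p, []) fun b' => (none, b', !p, []))
    fun r => (some r, b, !p, [])

/-- reading one bit -/
def gstep (moves : β → List β) (w : ℕ) (s : GS β) (c : Bool) : GS β :=
  if s.2.2.2.length + 1 < w then (s.1, s.2.1, s.2.2.1, s.2.2.2 ++ [c])
  else gfin moves s.1 s.2.1 s.2.2.1 (s.2.2.2 ++ [c])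

variable {moves : β → List β}

theorem gfold_acc (w : ℕ) (r : Option Bool) (b : β) (p : Bool) (M : List Bool) :
    ∀ (acc u : List Bool), acc.length + M.length < w →
      (M ++ u).foldl (gstep moves w) (r, b, p, acc) = u.foldl (gstep moves w) (r, b, p, acc ++ M) := by
  induction M with
  | nil => intro acc u _; simp
  | cons c M ih =>
    intro acc u h
    rw [List.cons_append, List.foldl_cons]
    rw [List.length_cons] at h
    have e : gstep moves w (r, b, p, acc) c = (r, b, p, acc ++ [c]) := by
      unfold gstep
      rw [if_pos (by simp only; omega)]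
    rw [e, ih _ _ (by simp; omega)]
    simp

theorem gfold_block {w : ℕ} (hw : 0 < w) (r : Option Bool) (b : β) (p : Bool) {M : List Bool}
    (hM : M.length = w) (u : List Bool) :
    (M ++ u).foldl (gstep moves w) (r, b, p, []) = u.foldl (gstep moves w) (gfin moves r b p M) := by
  obtain ⟨M', c, rfl⟩ : ∃ M' c, M = M' ++ [c] := by
    rcases List.eq_nil_or_concat M with h | ⟨M', c, h⟩
    · rw [h] at hM; simp at hM; omega
    · exact ⟨M', c, by simpa using h⟩
  rw [List.length_append, List.length_singleton] at hM
  rw [List.append_assoc, gfold_acc w r b p M' [] _ (by simp; omega), List.nil_append,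
    List.singleton_append, List.foldl_cons]
  congr 1
  unfold gstep
  rw [if_neg (by simp only; omega)]

theorem gfold_some (w : ℕ) (r : Bool) (u : List Bool) : ∀ (b : β) (p : Bool) (acc : List Bool),
    (u.foldl (gstep moves w) (some r, b, p, acc)).1 = some r := by
  induction u with
  | nil => intro b p acc; rfl
  | cons c u ih =>
    intro b p acc
    rw [List.foldl_cons]
    unfold gstep
    split_ifs
    · exact ih _ _ _
    · exact ih _ _ _

/-- The quantifiers of the rounds. -/
def gq (w : ℕ) : ℕ → Bool → List Bool
  | 0, _ => []
  | n + 1, p => List.replicate w (!p) ++ gq w n (!p)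

theorem evq_not (qs : List Bool) (φ : List Bool → Bool) :
    evq (qs.map not) (fun u => !φ u) = !evq qs φ := by
  induction qs generalizing φ with
  | nil => rfl
  | cons q qs ih =>
    rw [List.map_cons, evq, evq, ih, ih]
    cases q <;> simp

theorem evq_forall (n : ℕ) (qs : List Bool) (φ : List Bool → Bool) :
    evq (List.replicate n true ++ qs) φ = true ↔
      ∀ M : List Bool, M.length = n → evq qs (fun u => φ (M ++ u)) = true := by
  have h := evq_exists n (qs.map not) (fun u => !φ u)
  have h1 : List.replicate n false ++ qs.map not = (List.replicate n true ++ qs).map not := by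
    simp
  rw [h1, evq_not] at h
  have h2 : ∀ M : List Bool, evq (qs.map not) (fun u => !φ (M ++ u)) =
      !evq qs (fun u => φ (M ++ u)) := fun M => evq_not qs (fun u => φ (M ++ u))
  simp only [h2] at h
  have h3 := not_congr h
  rw [Bool.not_eq_true', Bool.not_eq_false] at h3
  rw [h3]
  push Not
  simp

end Gen

section Rank

variable {β : Type} {moves : β → List β} {I : β → Prop} {rank : β → ℕ}

/-- the moves as a relation -/
def mvL (moves : β → List β) (b b' : β) : Prop := b' ∈ moves b

theorem WL_or (hI : ∀ b, I b → ∀ b' ∈ moves b, I b' ∧ rank b' < rank b) (n : ℕ) :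
    ∀ b, I b → rank b < n → W (mvL moves) b ∨ ∀ b' ∈ moves b, W (mvL moves) b' := by
  induction n with
  | zero => intro b _ h; omega
  | succ n ih =>
    intro b hb hn
    by_cases h : ∃ b' ∈ moves b, ¬ W (mvL moves) b'
    · obtain ⟨b', hb', hW⟩ := h
      obtain ⟨h1, h2⟩ := hI b hb b' hb'
      exact Or.inl (W.mk b b' hb' fun c hc => ((ih b' h1 (by omega)).resolve_left hW) c hc)
    · push Not at h
      exact Or.inr h

theorem WL_iff (hI : ∀ b, I b → ∀ b' ∈ moves b, I b' ∧ rank b' < rank b) {b : β} (hb : I b) :
    W (mvL moves) b ↔ ∃ b' ∈ moves b, ¬ W (mvL moves) b' := by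
  constructor
  · rintro ⟨_, b', h, h2⟩
    exact ⟨b', h, fun hW => hW.not_all h2⟩
  · rintro ⟨b', hb', hW⟩
    obtain ⟨h1, h2⟩ := hI b hb b' hb'
    exact W.mk b b' hb' fun c hc =>
      ((WL_or hI (rank b' + 1) b' h1 (by omega)).resolve_left hW) c hc

theorem game_iff {w : ℕ} (hw : 0 < w)
    (hI : ∀ b, I b → ∀ b' ∈ moves b, I b' ∧ rank b' < rank b)
    (hlen : ∀ b, I b → (moves b).length ≤ w) (n : ℕ) :
    ∀ (b : β) (p : Bool), I b → rank b < n →
      (evq (gq w n p) (fun u => (u.foldl (gstep moves w) (none, b, p, [])).1.getD false) = true ↔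
        if p = true then W (mvL moves) b else ¬ W (mvL moves) b) := by
  induction n with
  | zero => intro b p _ h; omega
  | succ n ih =>
    intro b p hb hn
    have key : ∀ M : List Bool, M.length = w →
        (evq (gq w n (!p)) (fun u => ((M ++ u).foldl (gstep moves w) (none, b, p, [])).1.getD
          false) = true ↔ Option.elim (pick (moves b) M) ((!p) = true) fun b' =>
            if (!p) = true then W (mvL moves) b' else ¬ W (mvL moves) b') := by
      intro M hM
      have h1 : (fun u => ((M ++ u).foldl (gstep moves w) (none, b, p, [])).1.getD false) =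
          (fun u => (u.foldl (gstep moves w) (gfin moves none b p M)).1.getD false) := by
        funext u
        rw [gfold_block hw none b p hM u]
      rw [h1]
      unfold gfin
      cases hp : pick (moves b) M with
      | none =>
        simp only [Option.elim_none]
        have h2 : (fun u : List Bool => (u.foldl (gstep moves w)
            (some (!p), b, !p, [])).1.getD false) = (fun u => (!p) && true) := by
          funext u
          rw [gfold_some]
          simp
        rw [h2, evq_and]
        have h3 : ∀ qs : List Bool, evq qs (fun _ => true) = true := by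
          intro qs
          induction qs with
          | nil => rfl
          | cons q qs ih => rw [evq, ih]; cases q <;> rfl
        rw [h3]
        simp
      | some b' =>
        simp only [Option.elim_none, Option.elim_some]
        obtain ⟨h2, h3⟩ := hI b hb b' (pick_mem hp)
        exact ih b' (!p) h2 (by omega)
    cases p with
    | true =>
      rw [gq, Bool.not_true, evq_exists, if_pos rfl, WL_iff hI hb]
      constructor
      · rintro ⟨M, hM, h⟩
        have h := (key M hM).1 h
        cases hp : pick (moves b) M with
        | none =>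
          rw [hp] at h
          simp at h
        | some b' =>
          rw [hp] at h
          simp only [Option.elim_some, Bool.not_true, Bool.false_eq_true, if_false] at h
          exact ⟨b', pick_mem hp, h⟩
      · rintro ⟨b', hb', hW⟩
        obtain ⟨M, hM, hp⟩ := exists_pick hb' (hlen b hb)
        refine ⟨M, hM, ?_⟩
        have := (key M hM).2 (by
          rw [hp]
          simpa using hW)
        simpa using this
    | false =>
      rw [gq, Bool.not_false, evq_forall]
      simp only [Bool.false_eq_true, if_false]
      rw [WL_iff hI hb]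
      push Not
      constructor
      · intro h b' hb'
        obtain ⟨M, hM, hp⟩ := exists_pick hb' (hlen b hb)
        have h1 := (key M hM).1 (h M hM)
        rw [hp] at h1
        simpa using h1
      · intro h M hM
        have := (key M hM).2 (by
          cases hp : pick (moves b) M with
          | none => simp
          | some b' => simpa using h b' (pick_mem hp))
        simpa using this

end Rank

section Poly

variable {β : Type} [TEnc β]

theorem gq_eq (w : ℕ) (n : ℕ) : ∀ p : Bool, gq w n p = (List.range n).flatMap fun j =>
    List.replicate w (Bool.xor (!p) (decide (j % 2 = 1))) := by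
  induction n with
  | zero => intro p; rfl
  | succ n ih =>
    intro p
    rw [gq, ih, List.range_succ_eq_map, List.flatMap_cons, List.flatMap_map]
    congr 1
    · simp
    · congr 1
      funext j
      congr 1
      have h1 : decide (j.succ % 2 = 1) = !decide (j % 2 = 1) := by
        rw [← decide_not]
        exact decide_eq_decide.2 (by omega)
      rw [h1]
      cases p <;> by_cases h : j % 2 = 1 <;> simp [h]

theorem poly_pick {α : Type} [TEnc α] {ms : α → List β} {M : α → List Bool} (h1 : NPC.Poly ms)
    (h2 : NPC.Poly M) : NPC.Poly (fun a => pick (ms a) (M a)) := by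
  have h3 : NPC.Poly (fun a => (((ms a).zip (M a)).filter fun p => p.2).head?) :=
    NPC.Poly.head? (NPC.Poly.filter (p := fun _ (q : β × Bool) => q.2) (NPC.Poly.zip h1 h2)
      (NPC.Poly.snd (NPC.Poly.snd NPC.Poly.id)))
  refine (NPC.Poly.optMap_fp (h := fun _ (p : β × Bool) => p.1) h3 ?_).congr
    fun a => (pick_eq _ _).symm
  exact NPC.Poly.fst (NPC.Poly.snd NPC.Poly.id)

theorem poly_gstep {moves : β → List β} (hm : NPC.Poly moves) :
    NPC.Poly (fun p : ℕ × GS β × Bool => gstep moves p.1 p.2.1 p.2.2) := by
  have hfin : NPC.Poly (fun p : GS β => gfin moves p.1 p.2.1 p.2.2.1 p.2.2.2) := by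
    unfold gfin
    have hb : NPC.Poly (fun p : GS β => moves p.2.1) := hm.comp (by fun_prop)
    have hpick : NPC.Poly (fun p : GS β => pick (moves p.2.1) p.2.2.2) :=
      poly_pick hb (by fun_prop)
    refine NPC.Poly.optElim (o := fun p : GS β => p.1)
      (g := fun p => (pick (moves p.2.1) p.2.2.2).elim (some (!p.2.2.1), p.2.1, !p.2.2.1, [])
        fun b' => (none, b', !p.2.2.1, []))
      (h := fun p r => ((some r, p.2.1, !p.2.2.1, []) : GS β)) (by fun_prop) ?_ (by fun_prop)
    exact NPC.Poly.optElim (o := fun p : GS β => pick (moves p.2.1) p.2.2.2)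
      (g := fun p => ((some (!p.2.2.1), p.2.1, !p.2.2.1, []) : GS β))
      (h := fun p b' => ((none, b', !p.2.2.1, []) : GS β)) hpick (by fun_prop) (by fun_prop)
  have h2 : NPC.Poly (fun p : ℕ × GS β × Bool =>
      gfin moves p.2.1.1 p.2.1.2.1 p.2.1.2.2.1 (p.2.1.2.2.2 ++ [p.2.2])) :=
    hfin.comp (f := fun p : ℕ × GS β × Bool =>
      ((p.2.1.1, p.2.1.2.1, p.2.1.2.2.1, p.2.1.2.2.2 ++ [p.2.2]) : GS β)) (by fun_prop)
  unfold gstep
  fun_prop

theorem gsz {moves : β → List β} (hsz : ∀ b, ∀ b' ∈ moves b, sz b' ≤ sz b) (w : ℕ)
    (u : List Bool) : ∀ s : GS β, sz (u.foldl (gstep moves w) s).2.1 ≤ sz s.2.1 ∧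
      (u.foldl (gstep moves w) s).2.2.2.length ≤ s.2.2.2.length + u.length := by
  induction u with
  | nil => intro s; exact ⟨le_rfl, by simp⟩
  | cons c u ih =>
    intro s
    rw [List.foldl_cons]
    have h := ih (gstep moves w s c)
    have h1 : sz (gstep moves w s c).2.1 ≤ sz s.2.1 ∧
        (gstep moves w s c).2.2.2.length ≤ s.2.2.2.length + 1 := by
      obtain ⟨r, b, p, acc⟩ := s
      unfold gstep
      split_ifs
      · exact ⟨le_rfl, by simp⟩
      · unfold gfin
        cases r with
        | some r => exact ⟨le_rfl, by simp⟩
        | none =>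
          cases hp : pick (moves b) (acc ++ [c]) with
          | none =>
            simp only [Option.elim_none, hp]
            exact ⟨le_rfl, by simp⟩
          | some b' =>
            simp only [Option.elim_none, hp, Option.elim_some]
            exact ⟨hsz b b' (pick_mem hp), by simp⟩
    rw [List.length_cons]
    exact ⟨h.1.trans h1.1, by omega⟩

theorem poly_geval {moves : β → List β} (hm : NPC.Poly moves)
    (hsz : ∀ b, ∀ b' ∈ moves b, sz b' ≤ sz b) :
    NPC.Poly (fun p : (ℕ × β) × List Bool =>
      (p.2.foldl (gstep moves p.1.1) (none, p.1.2, true, [])).1.getD false) := by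
  refine NPC.Poly.optGetD (NPC.Poly.fst ?_) (NPC.Poly.const false)
  refine NPC.Poly.foldl (l := fun p : (ℕ × β) × List Bool => p.2)
    (s := fun p => ((none, p.1.2, true, []) : GS β)) (F := fun p s c => gstep moves p.1.1 s c)
    (by fun_prop) (by fun_prop) ?_ (20 * Polynomial.X + 40) ?_
  · exact (poly_gstep hm).comp
      (f := fun p : ((ℕ × β) × List Bool) × GS β × Bool => (p.1.1.1, p.2.1, p.2.2)) (by fun_prop)
  · rintro ⟨⟨w, b⟩, u⟩ k hk
    obtain ⟨h1, h2⟩ := gsz hsz w (u.take k) ((none, b, true, []) : GS β)
    simp only at h1 h2 hk ⊢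
    set y := (u.take k).foldl (gstep moves w) ((none, b, true, []) : GS β) with hy
    have e1 : sz y = sz y.1 + (sz y.2.1 + (sz y.2.2.1 + sz y.2.2.2 + 1) + 1) + 1 := by
      obtain ⟨y1, y2, y3, y4⟩ := y
      simp
    have e2 := sz_optBool_le y.1
    have e3 := sz_bool_le y.2.2.1
    have e4 := sz_listBool_le y.2.2.2
    have e5 := sz_listBool_ge u
    have e6 : (u.take k).length ≤ u.length := by simp
    simp only [List.length_nil] at h2
    simp only [Polynomial.eval_add, Polynomial.eval_mul, Polynomial.eval_X, Polynomial.eval_ofNat,
      sz_pair]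
    omega

/-- Games whose positions are computable in polynomial time and whose plays are polynomially long
are solvable in polynomial space. -/
theorem inPSPACE_of_game {L : Set (List Bool)} {init : List Bool → β} (hinit : NPC.Poly init)
    {good : β → Bool} (hgood : NPC.Poly good) {moves : β → List β} (hm : NPC.Poly moves)
    (hsz : ∀ b, ∀ b' ∈ moves b, sz b' ≤ sz b) {w : List Bool → ℕ} (hw : UPoly w)
    (I : List Bool → β → Prop) (rank : β → ℕ) (hI0 : ∀ x, I x (init x))
    (hI : ∀ x b, I x b → ∀ b' ∈ moves b, I x b' ∧ rank b' < rank b)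
    (hb : ∀ x b, I x b → (moves b).length ≤ w x ∧ rank b < w x)
    (hL : ∀ x, x ∈ L ↔ good (init x) = true ∧ W (mvL moves) (init x)) : InPSPACE L := by
  have hwp := hw.toPoly
  refine inPSPACE_of_evq (α := ℕ × β) (init := fun x => (w x, init x)) (by fun_prop)
    (qs := fun x => gq (w x) (w x) true) ?_
    (φ := fun a u => good a.2 &&
      (u.foldl (gstep moves a.1) (none, a.2, true, [])).1.getD false) ?_ ?_
  · have h1 : NPC.Poly (fun x => (List.range (w x)).flatMap fun j =>
        List.replicate (w x) (Bool.xor (!true) (decide (j % 2 = 1)))) := by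
      refine NPC.Poly.flatMap (l := fun x => List.range (w x))
        (F := fun x j => List.replicate (w x) (Bool.xor (!true) (decide (j % 2 = 1)))) hw.range ?_
      have h2 := (hw.comp (f := fun p : List Bool × ℕ => p.1) (by fun_prop)).range
      refine (NPC.Poly.map (l := fun p : List Bool × ℕ => List.range (w p.1))
        (F := fun p _ => Bool.xor (!true) (decide (p.2 % 2 = 1))) h2 ?_).congr fun p => ?_
      · fun_prop
      · rw [List.map_const', List.length_range]
    exact h1.congr fun x => (gq_eq _ _ _).symm
  · have h1 := poly_geval hm hsz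
    have h2 : NPC.Poly (fun p : (ℕ × β) × List Bool => good p.1.2) := hgood.comp (by fun_prop)
    exact h2.and h1
  · intro x
    rw [hL, evq_and, Bool.and_eq_true]
    refine and_congr_right fun _ => ?_
    have hwpos : 0 < w x := lt_of_le_of_lt (Nat.zero_le _) (hb x _ (hI0 x)).2
    rw [game_iff hwpos (hI x) (fun b hb' => (hb x b hb').1) (w x) (init x) true (hI0 x)
      (hb x _ (hI0 x)).2]
    simp

end Poly

end Pool.Agent.H656R2.AK
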