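import Pool.Agent.H671R2.PolyAuto
import Pool.Agent.H656R2.AK.QG

/-!
# The reduction as a polynomial-time function
-/

namespace Pool.Agent.H656R2.AK

open Pool.Agent.NPC Pool.Agent.H623R2.PS

set_option linter.unusedSectionVars false

/-- labels of the vertices -/
abbrev Lb := ℕ × ℕ × ℕ

/-- the list of labels -/
def vlist (n : ℕ) : List Lb :=
  ((List.range n).map fun g => (0, g, 0)) ++
    ((((List.range 7 ×ˢ List.range n) ×ˢ List.range 8).map fun p => (p.1.1 + 1, p.1.2, p.2)) ++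
      ((List.range 2 ×ˢ List.range 8).map fun p => (8 + p.1, 0, p.2)))

/-- the codes of the kinds -/
def kcode : Kind → ℕ
  | .X => 0
  | .K => 1
  | .P => 2
  | .N => 3
  | .FA => 4
  | .FB => 5

/-- the list of all edges of components -/
def EL : List (ℕ × ℕ × ℕ) :=
  [(0, 0, 3), (0, 3, 2), (0, 2, 1), (0, 1, 4), (1, 0, 1), (2, 0, 1), (2, 0, 3), (2, 1, 2),
    (3, 0, 1), (3, 0, 2), (3, 0, 5), (3, 1, 2), (3, 1, 4), (3, 2, 3),
    (4, 0, 1), (4, 2, 3), (4, 0, 5), (4, 0, 6), (4, 2, 4), (4, 2, 5), (4, 4, 6), (4, 5, 7), (4, 6, 7),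
    (5, 0, 2), (5, 0, 5), (5, 1, 2), (5, 1, 4), (5, 2, 3)]

theorem mem_EL (k : Kind) (a b : ℕ) : (kcode k, a, b) ∈ EL ↔ (a, b) ∈ edges k := by
  cases k <;> simp [EL, edges, kcode]

/-- the code of the kind of a component -/
def kd (Q : QF) (t g : ℕ) : ℕ :=
  if t = 1 then 0 else if t ≤ 5 then 1 else if t ≤ 7 then (if ty Q g = true then 3 else 2)
    else if t = 9 then 5 else 4

/-- half of the adjacency relation, on labels -/
def hl (Q : QF) (x y : Lb) : Bool :=
  (decide (x.1 = 0) && (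
      ((decide (1 ≤ y.1) && decide (y.1 ≤ 7)) && ((decide (x.2.1 = y.2.1) && decide (y.2.2 = 0)) ||
        ((decide (y.1 = 1) && decide (y.2.2 = 1)) && (eb Q x.2.1 y.2.1 && !decide (y.2.1 = 0))))) ||
      (decide (8 ≤ y.1) && ((decide (y.1 = 8) && decide (y.2.2 = 2)) ||
        ((decide (y.1 = 9) && decide (y.2.2 = 1)) ||
        (decide (y.2.2 = 0) && decide (ty Q x.2.1 = decide (y.1 = 9)))))))) ||
    ((decide (1 ≤ x.1) && (decide (x.1 = y.1) && decide (x.2.1 = y.2.1))) &&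
      (decide ((kd Q x.1 x.2.1, x.2.2, y.2.2) ∈ EL) &&
        !((decide (x.1 = 1) && decide (x.2.1 = 0)) &&
          (decide (x.2.2 = 1) || decide (y.2.2 = 1)))))

theorem hl_prop (Q : QF) (t g a t' g' b : ℕ) : hl Q (t, g, a) (t', g', b) = true ↔
    (t = 0 ∧ (((1 ≤ t' ∧ t' ≤ 7) ∧ ((g = g' ∧ b = 0) ∨ ((t' = 1 ∧ b = 1) ∧ (eb Q g g' = true ∧ g' ≠ 0)))) ∨
      (8 ≤ t' ∧ ((t' = 8 ∧ b = 2) ∨ ((t' = 9 ∧ b = 1) ∨ (b = 0 ∧ ty Q g = decide (t' = 9))))))) ∨
    ((1 ≤ t ∧ (t = t' ∧ g = g')) ∧ ((kd Q t g, a, b) ∈ EL ∧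
      ¬ ((t = 1 ∧ g = 0) ∧ (a = 1 ∨ b = 1)))) := by
  unfold hl
  simp only [Bool.or_eq_true, Bool.and_eq_true, decide_eq_true_eq, Bool.not_eq_true',
    decide_eq_false_iff_not, Bool.and_eq_false_iff, Bool.or_eq_false_iff, not_and_or, not_or, ne_eq]

/-- adjacency of labels -/
def ad (Q : QF) (x y : Lb) : Bool := hl Q x y || hl Q y x

/-- the label of a vertex -/
def lab {n : ℕ} : Vx (Fin n) → Lb
  | .inl g => (0, g.val, 0)
  | .inr (.inl (g, c), a) => (c.val + 1, g.val, a.val)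
  | .inr (.inr t, a) => (8 + t.toNat, 0, a.val)

theorem lab_injective {n : ℕ} : Function.Injective (lab : Vx (Fin n) → Lb) := by
  rintro (g | ⟨⟨g, c⟩ | t, a⟩) (g' | ⟨⟨g', c'⟩ | t', a'⟩) h <;> simp only [lab, Prod.mk.injEq] at h
  · simp only [Sum.inl.injEq]
    exact Fin.ext h.2.1
  · omega
  · cases t' <;> simp at h
  · omega
  · simp only [Sum.inr.injEq, Prod.mk.injEq, Sum.inl.injEq]
    refine ⟨⟨Fin.ext h.2.1, Fin.ext (by omega)⟩, Fin.ext h.2.2⟩
  · have := c.isLt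
    cases t' <;> simp at h <;> omega
  · cases t <;> simp at h
  · have := c'.isLt
    cases t <;> simp at h <;> omega
  · simp only [Sum.inr.injEq, Prod.mk.injEq]
    refine ⟨?_, Fin.ext h.2.2⟩
    cases t <;> cases t' <;> simp at h ⊢

theorem mem_prod {α β : Type} {l : List α} {l' : List β} {p : α × β} :
    p ∈ l ×ˢ l' ↔ p.1 ∈ l ∧ p.2 ∈ l' := by
  obtain ⟨a, b⟩ := p
  exact List.pair_mem_product

theorem mem_vlist {n : ℕ} (z : Lb) : z ∈ vlist n ↔ ∃ x : Vx (Fin n), lab x = z := by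
  unfold vlist
  simp only [List.mem_append, List.mem_map, List.mem_range, mem_prod]
  constructor
  · rintro (⟨g, hg, rfl⟩ | ⟨⟨⟨c, g⟩, a⟩, ⟨⟨hc, hg⟩, ha⟩, rfl⟩ | ⟨⟨t, a⟩, ⟨ht, ha⟩, rfl⟩)
    · exact ⟨.inl ⟨g, hg⟩, rfl⟩
    · exact ⟨.inr (.inl (⟨g, hg⟩, ⟨c, hc⟩), ⟨a, ha⟩), rfl⟩
    · simp only at ht ha
      have : t = 0 ∨ t = 1 := by omega
      rcases this with rfl | rfl
      · exact ⟨.inr (.inr false, ⟨a, ha⟩), rfl⟩
      · exact ⟨.inr (.inr true, ⟨a, ha⟩), rfl⟩
  · rintro ⟨g | ⟨⟨g, c⟩ | t, a⟩, rfl⟩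
    · exact Or.inl ⟨g.val, g.isLt, rfl⟩
    · exact Or.inr (Or.inl ⟨((c.val, g.val), a.val), ⟨⟨c.isLt, g.isLt⟩, a.isLt⟩, rfl⟩)
    · refine Or.inr (Or.inr ⟨(t.toNat, a.val), ⟨?_, a.isLt⟩, rfl⟩)
      cases t <;> simp

theorem nodup_vlist (n : ℕ) : (vlist n).Nodup := by
  unfold vlist
  have hprod : ∀ {α β : Type} {l : List α} {l' : List β}, l.Nodup → l'.Nodup → (l ×ˢ l').Nodup :=
    fun h h' => List.Nodup.product h h'
  refine List.nodup_append.2 ⟨?_, List.nodup_append.2 ⟨?_, ?_, ?_⟩, ?_⟩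
  · refine List.Nodup.map ?_ List.nodup_range
    intro a b h
    simpa using h
  · refine List.Nodup.map ?_ (hprod (hprod List.nodup_range List.nodup_range) List.nodup_range)
    rintro ⟨⟨a, b⟩, c⟩ ⟨⟨a', b'⟩, c'⟩ h
    simp only [Prod.mk.injEq] at h ⊢
    omega
  · refine List.Nodup.map ?_ (hprod List.nodup_range List.nodup_range)
    rintro ⟨a, b⟩ ⟨a', b'⟩ h
    simp only [Prod.mk.injEq] at h ⊢
    omega
  · intro x hx y hy
    simp only [List.mem_map, mem_prod, List.mem_range] at hx hy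
    obtain ⟨p, hp, rfl⟩ := hx
    obtain ⟨q, hq, rfl⟩ := hy
    simp only [ne_eq, Prod.mk.injEq]
    omega
  · intro x hx y hy
    simp only [List.mem_append, List.mem_map, mem_prod, List.mem_range] at hx hy
    obtain ⟨p, hp, rfl⟩ := hx
    rcases hy with ⟨q, hq, rfl⟩ | ⟨q, hq, rfl⟩
    · simp only [ne_eq, Prod.mk.injEq]
      omega
    · simp only [ne_eq, Prod.mk.injEq]
      omega

theorem al0_iff (Q : QF) (c : Cmp (Fin (nn Q))) (a : ℕ) (h : (full ((netF Q).kind c)).testBit a = true) :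
    al0 (netF Q) (node0 Q) c a ↔ ¬ (c = .inl (node0 Q, 0) ∧ a = 1) := by
  unfold al0 start
  simp only
  split_ifs with hc
  · subst hc
    rw [full_X] at h
    have ha : a < 5 := by
      by_contra hc
      rw [Nat.testBit_lt_two_pow (lt_of_lt_of_le (by norm_num : 31 < 2 ^ 5)
        (Nat.pow_le_pow_right (by norm_num) (by omega)))] at h
      exact absurd h (by simp)
    simp only [true_and]
    interval_cases a <;> decide
  · simp [hc, h]

theorem edges_full : ∀ k : Kind, ∀ e ∈ edges k, (full k).testBit e.1 = true ∧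
    (full k).testBit e.2 = true := by decide

theorem ports_full : ∀ k : Kind, ∀ v ∈ ports k, (full k).testBit v = true := by decide

theorem kd_cmp (Q : QF) (g : Fin (nn Q)) (c : Fin 7) :
    kd Q (c.val + 1) g.val = kcode ((netF Q).kind (.inl (g, c))) := by
  unfold kd
  simp only [Net.kind]
  by_cases h0 : c = 0
  · subst h0
    simp [kcode]
  · have h0' : c.val ≠ 0 := fun e => h0 (Fin.ext e)
    rw [if_neg (by omega), if_neg h0]
    by_cases h4 : c ≤ 4
    · have h4' : c.val ≤ 4 := h4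
      rw [if_pos (by omega), if_pos h4]
      rfl
    · have h4' : ¬ c.val ≤ 4 := h4
      have := c.isLt
      rw [if_neg (by omega), if_neg h4, if_pos (by omega)]
      change (if ty Q g.val = true then 3 else 2) = kcode (if ty Q g.val = true then _ else _)
      split_ifs <;> rfl

theorem kd_flag (Q : QF) (g : ℕ) (t : Bool) :
    kd Q (8 + t.toNat) g = kcode ((netF Q).kind (.inr t)) := by
  cases t <;> rfl

theorem hl_iff (Q : QF) (x y : Vx (Fin (nn Q))) :
    hl Q (lab x) (lab y) = true ↔ half (netF Q) (node0 Q) x y := by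
  rcases x with g | ⟨⟨g, c⟩ | t, a⟩
  · rcases y with g' | ⟨⟨g', c'⟩ | t', a'⟩
    · simp only [lab, half]
      rw [hl_prop]
      refine ⟨?_, False.elim⟩
      rintro (⟨_, ⟨⟨h, _⟩, _⟩ | ⟨h, _⟩⟩ | ⟨⟨h, _⟩, _⟩) <;> omega
    · have hc' := c'.isLt
      simp only [lab, half]
      rw [hl_prop]
      constructor
      · rintro (⟨_, ⟨_, ⟨h3, h4⟩ | ⟨⟨h3, h4⟩, h5, h6⟩⟩ | ⟨h3, _⟩⟩ | ⟨⟨h3, _⟩, _⟩)
        · have hp : (netF Q).port g (.inl (g', c')) a'.val := Or.inl ⟨Fin.ext h3, h4⟩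
          refine ⟨hp, ?_⟩
          rw [al0_iff Q _ _ (ports_full _ _ (port_mem hp))]
          omega
        · have hp : (netF Q).port g (.inl (g', c')) a'.val :=
            Or.inr ⟨Fin.ext (by simpa using h3), h4, h5⟩
          refine ⟨hp, ?_⟩
          rw [al0_iff Q _ _ (ports_full _ _ (port_mem hp))]
          rintro ⟨h7, _⟩
          simp only [Sum.inl.injEq, Prod.mk.injEq] at h7
          exact h6 (congrArg Fin.val h7.1)
        · omega
        · omega
      · rintro ⟨hp, hal⟩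
        rw [al0_iff Q _ _ (ports_full _ _ (port_mem hp))] at hal
        refine Or.inl ⟨rfl, Or.inl ⟨⟨by omega, by omega⟩, ?_⟩⟩
        rcases hp with ⟨rfl, h4⟩ | ⟨rfl, h4, h5⟩
        · exact Or.inl ⟨rfl, h4⟩
        · refine Or.inr ⟨⟨by simp, h4⟩, h5, fun h6 => hal ⟨?_, h4⟩⟩
          rw [show g' = node0 Q from Fin.ext h6]
    · simp only [lab, half]
      rw [hl_prop]
      have h0 : ∀ h : (netF Q).port g (.inr t') a'.val, al0 (netF Q) (node0 Q) (.inr t') a'.val := by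
        intro h
        rw [al0_iff Q _ _ (ports_full _ _ (port_mem h))]
        simp
      have hE : (netF Q).port g (.inr t') a'.val ↔ a'.val = vv t' ∨ (a'.val = 0 ∧ ty Q g.val = t') :=
        Iff.rfl
      rw [and_iff_left_of_imp h0, hE]
      have hd : decide (8 + t'.toNat = 9) = t' := by cases t' <;> rfl
      rw [hd]
      constructor
      · rintro (⟨_, ⟨⟨_, h⟩, _⟩ | ⟨_, ⟨h1, h2⟩ | ⟨h1, h2⟩ | ⟨h1, h2⟩⟩⟩ | ⟨⟨h, _⟩, _⟩)
        · omega
        · left
          cases t'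
          · exact h2
          · simp at h1
        · left
          cases t'
          · simp at h1
          · exact h2
        · exact Or.inr ⟨h1, h2⟩
        · omega
      · rintro (h | ⟨h1, h2⟩)
        · refine Or.inl ⟨rfl, Or.inr ⟨by omega, ?_⟩⟩
          cases t'
          · exact Or.inl ⟨rfl, h⟩
          · exact Or.inr (Or.inl ⟨rfl, h⟩)
        · exact Or.inl ⟨rfl, Or.inr ⟨by omega, Or.inr (Or.inr ⟨h1, h2⟩)⟩⟩
  · rcases y with g' | ⟨⟨g', c'⟩ | t', a'⟩
    · simp only [lab, half]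
      rw [hl_prop]
      refine ⟨?_, False.elim⟩
      rintro (⟨h, _⟩ | ⟨⟨_, h, _⟩, _⟩) <;> omega
    · simp only [lab, half]
      rw [hl_prop, kd_cmp, mem_EL]
      constructor
      · rintro (⟨h1, _⟩ | ⟨⟨_, h1, h2⟩, h3, h4⟩)
        · omega
        have hg : g = g' := Fin.ext h2
        have hc : c = c' := Fin.ext (by omega)
        subst hg hc
        obtain ⟨f1, f2⟩ := edges_full _ _ h3
        refine ⟨rfl, h3, ?_, ?_⟩
        · rw [al0_iff Q _ _ f1]
          rintro ⟨h7, h8⟩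
          simp only [Sum.inl.injEq, Prod.mk.injEq] at h7
          obtain ⟨rfl, rfl⟩ := h7
          exact h4 ⟨⟨rfl, rfl⟩, Or.inl h8⟩
        · rw [al0_iff Q _ _ f2]
          rintro ⟨h7, h8⟩
          simp only [Sum.inl.injEq, Prod.mk.injEq] at h7
          obtain ⟨rfl, rfl⟩ := h7
          exact h4 ⟨⟨rfl, rfl⟩, Or.inr h8⟩
      · rintro ⟨h0, h3, h4, h5⟩
        simp only [Sum.inl.injEq, Prod.mk.injEq] at h0
        obtain ⟨rfl, rfl⟩ := h0
        obtain ⟨f1, f2⟩ := edges_full _ _ h3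
        rw [al0_iff Q _ _ f1] at h4
        rw [al0_iff Q _ _ f2] at h5
        refine Or.inr ⟨⟨by omega, rfl, rfl⟩, h3, ?_⟩
        rintro ⟨⟨h6, h7⟩, h8⟩
        have hg : g = node0 Q := Fin.ext h7
        have hc : c = 0 := Fin.ext (by simpa using h6)
        subst hg hc
        rcases h8 with h8 | h8
        · exact h4 ⟨rfl, h8⟩
        · exact h5 ⟨rfl, h8⟩
    · simp only [lab, half]
      rw [hl_prop]
      have hc := c.isLt
      have h1 : ¬ c.val + 1 = 8 + t'.toNat := by omega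
      constructor
      · rintro (⟨h2, _⟩ | ⟨⟨_, h2, _⟩, _⟩)
        · omega
        · exact absurd h2 h1
      · rintro ⟨h2, _⟩
        simp at h2
  · rcases y with g' | ⟨⟨g', c'⟩ | t', a'⟩
    · simp only [lab, half]
      rw [hl_prop]
      refine ⟨?_, False.elim⟩
      rintro (⟨h, _⟩ | ⟨⟨_, h, _⟩, _⟩) <;> omega
    · simp only [lab, half]
      rw [hl_prop]
      have hc := c'.isLt
      constructor
      · rintro (⟨h2, _⟩ | ⟨⟨_, h2, _⟩, _⟩)
        · omega
        · omega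
      · rintro ⟨h2, _⟩
        simp at h2
    · simp only [lab, half]
      rw [hl_prop, kd_flag, mem_EL]
      have h4 : 8 + t.toNat = 8 + t'.toNat ↔ t = t' := by cases t <;> cases t' <;> simp
      rw [h4]
      constructor
      · rintro (⟨h5, _⟩ | ⟨⟨_, rfl, _⟩, h5, _⟩)
        · omega
        obtain ⟨f1, f2⟩ := edges_full _ _ h5
        refine ⟨rfl, h5, ?_, ?_⟩
        · rw [al0_iff Q _ _ f1]; simp
        · rw [al0_iff Q _ _ f2]; simp
      · rintro ⟨h5, h6, _, _⟩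
        simp only [Sum.inr.injEq] at h5
        exact Or.inr ⟨⟨by omega, h5, rfl⟩, h6, by omega⟩

theorem ad_iff (Q : QF) (x y : Vx (Fin (nn Q))) :
    ad Q (lab x) (lab y) = true ↔ (akGraph (netF Q) (node0 Q)).Adj x y := by
  unfold ad
  rw [Bool.or_eq_true, hl_iff, hl_iff]
  rfl

theorem hl_self (Q : QF) (x : Lb) : hl Q x x = false := by
  obtain ⟨t, g, a⟩ := x
  unfold hl
  simp only
  have h1 : decide ((kd Q t g, a, a) ∈ EL) = false := by
    rw [decide_eq_false_iff_not]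
    intro h
    have : ∀ e ∈ EL, e.2.1 ≠ e.2.2 := by decide
    exact this _ h rfl
  rw [h1]
  by_cases ht : t = 0
  · subst ht; simp
  · simp [ht]

/-- The matrix of the constructed graph. -/
def matQ (Q : QF) : List (List Bool) :=
  (vlist (nn Q)).map fun x => (vlist (nn Q)).map fun y => ad Q x y

theorem adjMatrix_listGraph' {Λ : Type} (vs : List Λ) (ad : Λ → Λ → Bool)
    (hs : ∀ a b, ad a b = ad b a) (hi : ∀ a, ad a a = false) :
    adjMatrix (R671.listGraph vs ad hs hi) = vs.map (fun u => vs.map (fun w => ad u w)) := by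
  unfold adjMatrix R671.listGraph
  apply List.ext_getElem
  · simp
  · intro i h1 h2
    simp only [List.getElem_ofFn, List.getElem_map]
    apply List.ext_getElem
    · simp
    · intro j h3 h4
      simp

theorem adjMatrix_inj' {n m : ℕ} {G : SimpleGraph (Fin n)} {H : SimpleGraph (Fin m)}
    (h : adjMatrix G = adjMatrix H) : ∃ e : n = m, ∀ i j, G.Adj i j ↔ H.Adj (e ▸ i) (e ▸ j) := by
  have hl := congrArg List.length h
  unfold adjMatrix at hl
  rw [List.length_ofFn, List.length_ofFn] at hl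
  subst hl
  refine ⟨rfl, fun i j => ?_⟩
  unfold adjMatrix at h
  have h1 := List.ofFn_injective h
  have h2 := List.ofFn_injective (congrFun h1 i)
  have h3 := congrFun h2 j
  simpa using h3

theorem arcKayles_iff {n : ℕ} (G : SimpleGraph (Fin n)) :
    ArcKayles (adjMatrix G) ↔ FirstWins G Set.univ := by
  constructor
  · rintro ⟨m, H, h, hW⟩
    obtain ⟨rfl, he⟩ := adjMatrix_inj' h
    have : H = G := by
      ext i j
      exact he i j
    rwa [← this]
  · exact fun h => ⟨n, G, rfl, h⟩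

theorem matQ_iff {Q : QF} (hQ : QFwf Q) : ArcKayles (matQ Q) ↔
    evq Q.1 (fun w => evc w Q.2) = true := by
  have hs : ∀ a b, ad Q a b = ad Q b a := fun a b => by unfold ad; exact Bool.or_comm _ _
  have hi : ∀ a, ad Q a a = false := fun a => by unfold ad; rw [hl_self]; rfl
  obtain ⟨e, he⟩ := R671.exists_equiv (vlist (nn Q)) (nodup_vlist _) lab lab_injective mem_vlist
  unfold matQ
  rw [← adjMatrix_listGraph' (vlist (nn Q)) (ad Q) hs hi, arcKayles_iff, ← qbf_ak hQ]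
  refine firstWins_equiv e ?_
  intro i j
  rw [← ad_iff, he, he]
  rfl

end Pool.Agent.H656R2.AK
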