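import Pool.Agent.H656R2.AK.GameIn
import Pool.Agent.H656R2.AK.Mat

/-!
# Arc-Kayles is in PSPACE
-/

namespace Pool.Agent.H656R2.AK

open Pool.Agent.NPC Pool.Agent.H623R2.PS

set_option linter.unusedSectionVars false

theorem sz_filter_le' {β : Type} [TEnc β] (p : β → Bool) (l : List β) : sz (l.filter p) ≤ sz l := by
  induction l with
  | nil => exact le_rfl
  | cons a l ih =>
    rw [List.filter_cons]
    split_ifs
    · simp only [sz_list_cons]
      omega
    · simp only [sz_list_cons]
      omega

/-- the entry of a matrix -/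
def ent (M : List (List Bool)) (i j : ℕ) : Bool := (M.getD i []).getD j false

/-- the test whether a matrix is an adjacency matrix -/
def valid (M : List (List Bool)) : Bool :=
  (M.all fun r => decide (r.length = M.length)) &&
    ((List.range M.length).all fun i => (!ent M i i) &&
      (List.range M.length).all fun j => decide (ent M i j = ent M j i))

theorem valid_adjMatrix {n : ℕ} (G : SimpleGraph (Fin n)) : valid (adjMatrix G) = true := by
  classical
  have hlen : (adjMatrix G).length = n := by simp [adjMatrix]
  have hent : ∀ (i j : Fin n), ent (adjMatrix G) i j = decide (G.Adj i j) := by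
    intro i j
    simp [ent, adjMatrix, List.getD_eq_getElem?_getD]
  unfold valid
  rw [Bool.and_eq_true, List.all_eq_true, List.all_eq_true, hlen]
  constructor
  · intro r hr
    unfold adjMatrix at hr
    rw [List.mem_ofFn] at hr
    obtain ⟨i, rfl⟩ := hr
    simp
  · intro i hi
    rw [List.mem_range] at hi
    rw [Bool.and_eq_true, List.all_eq_true]
    constructor
    · rw [hent ⟨i, hi⟩ ⟨i, hi⟩]
      simp
    · intro j hj
      rw [List.mem_range] at hj
      rw [hent ⟨i, hi⟩ ⟨j, hj⟩, hent ⟨j, hj⟩ ⟨i, hi⟩]
      simp [G.adj_comm]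

/-- the graph of a matrix -/
def grM (M : List (List Bool)) (h : valid M = true) : SimpleGraph (Fin M.length) where
  Adj i j := ent M i j = true
  symm := ⟨fun i j hij => by
    unfold valid at h
    rw [Bool.and_eq_true, List.all_eq_true, List.all_eq_true] at h
    have h2 := h.2 i (List.mem_range.2 i.isLt)
    rw [Bool.and_eq_true, List.all_eq_true] at h2
    have h3 := h2.2 j (List.mem_range.2 j.isLt)
    rw [decide_eq_true_eq] at h3
    rw [← h3]
    exact hij⟩
  loopless := ⟨fun i hi => by
    unfold valid at h
    rw [Bool.and_eq_true, List.all_eq_true, List.all_eq_true] at h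
    have h2 := h.2 i (List.mem_range.2 i.isLt)
    rw [Bool.and_eq_true] at h2
    have h3 := h2.1
    rw [hi] at h3
    exact absurd h3 (by simp)⟩

theorem adjMatrix_grM {M : List (List Bool)} (h : valid M = true) : adjMatrix (grM M h) = M := by
  have hrow : ∀ r ∈ M, r.length = M.length := by
    unfold valid at h
    rw [Bool.and_eq_true, List.all_eq_true] at h
    intro r hr
    simpa using h.1 r hr
  unfold adjMatrix
  apply List.ext_getElem
  · simp
  · intro i h1 h2
    rw [List.getElem_ofFn]
    apply List.ext_getElem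
    · rw [List.length_ofFn, hrow _ (List.getElem_mem h2)]
    · intro j h3 h4
      rw [List.getElem_ofFn]
      simp only [grM, ent, List.getD_eq_getElem?_getD, List.getElem?_eq_getElem h2,
        Option.getD_some, List.getElem?_eq_getElem h4]
      simp

/-- the moves on lists of remaining vertices -/
def akMoves (b : List (List Bool) × List ℕ) : List (List (List Bool) × List ℕ) :=
  ((b.2 ×ˢ b.2).filter fun p => ent b.1 p.1 p.2).map fun p =>
    (b.1, b.2.filter fun x => !decide (x = p.1) && !decide (x = p.2))

theorem mem_akMoves {b b' : List (List Bool) × List ℕ} : b' ∈ akMoves b ↔ ∃ u ∈ b.2, ∃ v ∈ b.2,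
    ent b.1 u v = true ∧ b' = (b.1, b.2.filter fun x => !decide (x = u) && !decide (x = v)) := by
  unfold akMoves
  rw [List.mem_map]
  constructor
  · rintro ⟨⟨u, v⟩, h, rfl⟩
    rw [List.mem_filter, mem_prod] at h
    exact ⟨u, h.1.1, v, h.1.2, h.2, rfl⟩
  · rintro ⟨u, hu, v, hv, h, rfl⟩
    exact ⟨(u, v), List.mem_filter.2 ⟨mem_prod.2 ⟨hu, hv⟩, h⟩, rfl⟩

theorem poly_ent {α : Type} [TEnc α] {M : α → List (List Bool)} {i j : α → ℕ} (h1 : NPC.Poly M)
    (h2 : NPC.Poly i) (h3 : NPC.Poly j) : NPC.Poly (fun a => ent (M a) (i a) (j a)) :=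
  NPC.Poly.getD (NPC.Poly.getD h1 h2 (NPC.Poly.const [])) h3 (NPC.Poly.const false)

attribute [fun_prop] poly_ent

theorem poly_akMoves : NPC.Poly akMoves := by
  have h1 : NPC.Poly (fun b : List (List Bool) × List ℕ => (b.2 ×ˢ b.2).filter
      fun p => ent b.1 p.1 p.2) :=
    NPC.Poly.filter (l := fun b : List (List Bool) × List ℕ => b.2 ×ˢ b.2)
      (p := fun b p => ent b.1 p.1 p.2) (by fun_prop) (by fun_prop)
  refine NPC.Poly.map (F := fun (b : List (List Bool) × List ℕ) (p : ℕ × ℕ) =>
    (b.1, b.2.filter fun x => !decide (x = p.1) && !decide (x = p.2))) h1 ?_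
  refine NPC.Poly.pair (by fun_prop) ?_
  exact NPC.Poly.filter (l := fun q : (List (List Bool) × List ℕ) × (ℕ × ℕ) => q.1.2)
    (p := fun q x => !decide (x = q.2.1) && !decide (x = q.2.2)) (by fun_prop) (by fun_prop)

theorem poly_valid : NPC.Poly valid := by
  have h : UPoly (fun M : List (List Bool) => M.length) := UPoly.length (by fun_prop)
  have h1 := h.range
  have h2 : NPC.Poly (fun M : List (List Bool) => M.all fun r => decide (r.length = M.length)) :=
    NPC.Poly.all (l := fun M : List (List Bool) => M)
      (p := fun M r => decide (r.length = M.length)) (by fun_prop) (by fun_prop)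
  have h3 : NPC.Poly (fun q : List (List Bool) × ℕ => (List.range q.1.length).all
      fun j => decide (ent q.1 q.2 j = ent q.1 j q.2)) :=
    NPC.Poly.all (l := fun q : List (List Bool) × ℕ => List.range q.1.length)
      (p := fun q j => decide (ent q.1 q.2 j = ent q.1 j q.2))
      (h1.comp (NPC.Poly.fst NPC.Poly.id)) (by fun_prop)
  have h4 : NPC.Poly (fun M : List (List Bool) => (List.range M.length).all fun i => (!ent M i i) &&
      (List.range M.length).all fun j => decide (ent M i j = ent M j i)) :=
    NPC.Poly.all (l := fun M : List (List Bool) => List.range M.length)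
      (p := fun M i => (!ent M i i) &&
        (List.range M.length).all fun j => decide (ent M i j = ent M j i)) h1
      (NPC.Poly.and (by fun_prop) h3)
  exact h2.and h4

/-- the relation between lists and sets of vertices -/
def RlM (M : List (List Bool)) (b : List (List Bool) × List ℕ) (S : Set (Fin M.length)) : Prop :=
  b.1 = M ∧ (∀ i : Fin M.length, i.val ∈ b.2 ↔ i ∈ S) ∧ ∀ x ∈ b.2, x < M.length

theorem W_list_iff {M : List (List Bool)} (h : valid M = true) :
    W (mvL akMoves) (M, List.range M.length) ↔ FirstWins (grM M h) Set.univ := by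
  rw [firstWins_iff]
  refine W_bisim_iff (RlM M) ?_ ?_ ⟨rfl, by simp, by simp⟩
  · rintro ⟨M', S⟩ T b' ⟨h1, h2, h3⟩ hm
    simp only at h1 h2 h3
    subst h1
    rw [mvL, mem_akMoves] at hm
    obtain ⟨u, hu, v, hv, he, rfl⟩ := hm
    simp only at hu hv he
    refine ⟨T \ {⟨u, h3 u hu⟩, ⟨v, h3 v hv⟩}, ⟨⟨u, h3 u hu⟩, ⟨v, h3 v hv⟩, (h2 _).1 hu,
      (h2 _).1 hv, he, rfl⟩, rfl, ?_, ?_⟩
    · intro i
      simp only [List.mem_filter, h2 i, Set.mem_sdiff, Set.mem_insert_iff, Set.mem_singleton_iff,
        Bool.and_eq_true, Bool.not_eq_true', decide_eq_false_iff_not, Fin.ext_iff]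
      tauto
    · intro x hx
      exact h3 x (List.mem_filter.1 hx).1
  · rintro ⟨M', S⟩ T T' ⟨h1, h2, h3⟩ hm
    simp only at h1 h2 h3
    subst h1
    obtain ⟨u, v, hu, hv, he, rfl⟩ := hm
    refine ⟨(M', S.filter fun x => !decide (x = u.val) && !decide (x = v.val)), ?_, rfl, ?_, ?_⟩
    · rw [mvL, mem_akMoves]
      exact ⟨u.val, (h2 u).2 hu, v.val, (h2 v).2 hv, he, rfl⟩
    · intro i
      simp only [List.mem_filter, h2 i, Set.mem_sdiff, Set.mem_insert_iff, Set.mem_singleton_iff,
        Bool.and_eq_true, Bool.not_eq_true', decide_eq_false_iff_not, Fin.ext_iff]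
      tauto
    · intro x hx
      exact h3 x (List.mem_filter.1 hx).1

theorem arcKayles_valid (M : List (List Bool)) :
    ArcKayles M ↔ valid M = true ∧ W (mvL akMoves) (M, List.range M.length) := by
  constructor
  · rintro ⟨n, G, rfl, h⟩
    have hv := valid_adjMatrix G
    refine ⟨hv, ?_⟩
    rw [W_list_iff hv, ← arcKayles_iff, adjMatrix_grM]
    exact ⟨n, G, rfl, h⟩
  · rintro ⟨hv, h⟩
    rw [W_list_iff hv] at h
    exact ⟨_, grM M hv, adjMatrix_grM hv, h⟩

/-- the initial position -/
def akInit (x : List Bool) : List (List Bool) × List ℕ :=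
  ((unbits (List (List Bool)) x).getD [[true]],
    List.range ((unbits (List (List Bool)) x).getD [[true]]).length)

theorem arcKayles_mem : InPSPACE (lang ArcKayles) := by
  have hdec : NPC.Poly (fun x : List Bool => (unbits (List (List Bool)) x).getD [[true]]) :=
    NPC.Poly.optGetD poly_unbits (NPC.Poly.const [[true]])
  have hlen : UPoly (fun x : List Bool => ((unbits (List (List Bool)) x).getD [[true]]).length) :=
    UPoly.length hdec
  have hinit : NPC.Poly akInit := NPC.Poly.pair hdec hlen.range
  refine inPSPACE_of_game hinit (good := fun b => valid b.1)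
    (poly_valid.comp (NPC.Poly.fst NPC.Poly.id)) poly_akMoves ?_
    (w := fun x => ((unbits (List (List Bool)) x).getD [[true]]).length *
      ((unbits (List (List Bool)) x).getD [[true]]).length +
      (((unbits (List (List Bool)) x).getD [[true]]).length + 1)) ?_
    (fun x b => b.2.length ≤ ((unbits (List (List Bool)) x).getD [[true]]).length)
    (fun b => b.2.length) ?_ ?_ ?_ ?_
  · intro b b' hb'
    rw [mem_akMoves] at hb'
    obtain ⟨u, hu, v, hv, he, rfl⟩ := hb'
    obtain ⟨M, S⟩ := b
    simp only [sz_pair]
    have := sz_filter_le' (fun x => !decide (x = u) && !decide (x = v)) S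
    omega
  · exact (hlen.mul hlen).add (hlen.add (UPoly.const 1))
  · intro x
    simp [akInit]
  · rintro x b hb b' hb'
    rw [mem_akMoves] at hb'
    obtain ⟨u, hu, v, hv, he, rfl⟩ := hb'
    simp only
    have h1 : (b.2.filter fun x => !decide (x = u) && !decide (x = v)).length < b.2.length := by
      rw [List.length_filter_lt_length_iff_exists]
      exact ⟨u, hu, by simp⟩
    exact ⟨by omega, h1⟩
  · intro x b hb
    have h1 : (akMoves b).length ≤ b.2.length * b.2.length := by
      unfold akMoves
      rw [List.length_map]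
      refine (List.length_filter_le _ _).trans ?_
      rw [List.length_product]
    have h2 : b.2.length * b.2.length ≤ ((unbits (List (List Bool)) x).getD [[true]]).length *
        ((unbits (List (List Bool)) x).getD [[true]]).length := Nat.mul_le_mul hb hb
    exact ⟨by omega, by omega⟩
  · intro x
    rw [mem_lang_iff]
    unfold akInit
    simp only
    constructor
    · rintro ⟨M, hM, h⟩
      rw [hM, Option.getD_some]
      exact (arcKayles_valid M).1 h
    · intro h
      cases hx : unbits (List (List Bool)) x with
      | none =>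
        rw [hx, Option.getD_none] at h
        exact absurd h.1 (by decide)
      | some M =>
        rw [hx, Option.getD_some] at h
        exact ⟨M, rfl, (arcKayles_valid M).2 h⟩

end Pool.Agent.H656R2.AK
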