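import Pool.Agent.H656R2.AK.Tables

/-!
# Hub games: the positions of Grundy value zero
-/

namespace Pool.Agent.H656R2.AK

set_option linter.unusedSectionVars false

open Finset

/-- A bipartite directed graph. -/
structure Net (ι : Type) where
  /-- the side -/
  typ : ι → Bool
  /-- the arcs -/
  E : ι → ι → Prop
  /-- arcs join different sides -/
  bip : ∀ i j, E i j → typ i ≠ typ j

/-- The components: seven for each node and two global ones. -/
abbrev Cmp (ι : Type) := (ι × Fin 7) ⊕ Bool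

variable {ι : Type}

/-- The kind of a component. -/
def Net.kind (N : Net ι) : Cmp ι → Kind
  | .inl (g, c) => if c = 0 then .X else if c ≤ 4 then .K else if N.typ g then .N else .P
  | .inr b => if b then .FB else .FA

/-- A position: the hubs present, and the state of each component. -/
structure Pos (ι : Type) where
  /-- the hubs present -/
  H : Finset ι
  /-- the states -/
  s : Cmp ι → ℕ

/-- The vertex of a global component adjacent to all hubs. -/
def vv (t : Bool) : ℕ := if t then 1 else 2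

/-- The vertices adjacent to a hub. -/
def Net.port (N : Net ι) (g : ι) : Cmp ι → ℕ → Prop
  | .inl (J, c), v => (g = J ∧ v = 0) ∨ (c = 0 ∧ v = 1 ∧ N.E g J)
  | .inr t, v => v = vv t ∨ (v = 0 ∧ N.typ g = t)

theorem port_mem {N : Net ι} {g : ι} {c : Cmp ι} {v : ℕ} (h : N.port g c v) :
    v ∈ ports (N.kind c) := by
  rcases c with ⟨J, c⟩ | t
  · rcases h with ⟨_, rfl⟩ | ⟨rfl, rfl, _⟩
    · simp only [Net.kind]
      split_ifs <;> simp [ports]
    · simp [Net.kind, ports]
  · rcases h with rfl | ⟨rfl, _⟩ <;> cases t <;> simp [Net.kind, ports, vv]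

variable [DecidableEq ι]

/-- Changing the state of a component. -/
def Pos.upd (p : Pos ι) (H : Finset ι) (c : Cmp ι) (m : ℕ) : Pos ι :=
  ⟨H, Function.update p.s c m⟩

@[simp] theorem Pos.upd_H (p : Pos ι) (H : Finset ι) (c : Cmp ι) (m : ℕ) : (p.upd H c m).H = H := rfl

@[simp] theorem Pos.upd_self (p : Pos ι) (H : Finset ι) (c : Cmp ι) (m : ℕ) :
    (p.upd H c m).s c = m := by simp [Pos.upd]

theorem Pos.upd_ne {p : Pos ι} {H : Finset ι} {c c' : Cmp ι} {m : ℕ} (h : c' ≠ c) :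
    (p.upd H c m).s c' = p.s c' := by simp [Pos.upd, h]

/-- The moves of the game. -/
inductive Mv (N : Net ι) : Pos ι → Pos ι → Prop
  | loc (p : Pos ι) (c : Cmp ι) (m : ℕ) (h : m ∈ moves (N.kind c) (p.s c)) : Mv N p (p.upd p.H c m)
  | hub (p : Pos ι) (g : ι) (c : Cmp ι) (v : ℕ) (hg : g ∈ p.H) (hp : N.port g c v)
      (hv : (p.s c).testBit v = true) : Mv N p (p.upd (p.H.erase g) c (p.s c ^^^ 2 ^ v))

theorem add_self4 (b : V4) : b + b = 0 := by revert b; decide

theorem add_eq4 {a b c : V4} (h : a = b + c) : a + b = c := by revert a b c; decide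

theorem add_ne4 {a b : V4} (h : a ≠ b) : a + b ≠ 0 := by revert a b; decide

theorem ne0_one {a : ZMod 2} (h : a ≠ 0) : a = 1 := by revert a; decide

/-- All states are reachable. -/
def okp (N : Net ι) (p : Pos ι) : Prop := ∀ c, ok (N.kind c) (p.s c) = true

theorem okp.upd {N : Net ι} {p : Pos ι} (h : okp N p) {H : Finset ι} {c : Cmp ι} {m : ℕ}
    (hm : ok (N.kind c) m = true) : okp N (p.upd H c m) := by
  intro c'
  by_cases hc : c' = c
  · subst hc; simpa using hm
  · rw [Pos.upd_ne hc]; exact h c'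

/-- Two small components of the supply are intact. -/
def Two (p : Pos ι) (g : ι) : Prop :=
  ∃ j k : Fin 7, j ≠ k ∧ (j ≠ 0 ∧ j ≤ 4) ∧ (k ≠ 0 ∧ k ≤ 4) ∧ p.s (.inl (g, j)) = 3 ∧
    p.s (.inl (g, k)) = 3

theorem kind_K (N : Net ι) {g : ι} {j : Fin 7} (h : j ≠ 0 ∧ j ≤ 4) :
    N.kind (.inl (g, j)) = .K := by simp [Net.kind, h.1, h.2]

theorem kind_X (N : Net ι) (g : ι) : N.kind (.inl (g, 0)) = .X := by simp [Net.kind]

variable [Fintype ι]

/-- The sum of the Grundy values. -/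
def Net.Phi (N : Net ι) (p : Pos ι) : V4 := ∑ c, gr (N.kind c) (p.s c)

theorem Phi_upd (N : Net ι) (p : Pos ι) (H : Finset ι) (c : Cmp ι) (m : ℕ) :
    N.Phi (p.upd H c m) = N.Phi p + (gr (N.kind c) m + gr (N.kind c) (p.s c)) := by
  unfold Net.Phi
  rw [← Finset.add_sum_erase univ _ (mem_univ c), ← Finset.add_sum_erase univ (fun c => gr (N.kind c) (p.s c)) (mem_univ c)]
  have h : ∑ x ∈ univ.erase c, gr (N.kind x) ((p.upd H c m).s x) =
      ∑ x ∈ univ.erase c, gr (N.kind x) (p.s x) := by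
    refine Finset.sum_congr rfl fun x hx => ?_
    rw [Pos.upd_ne (Finset.ne_of_mem_erase hx)]
  rw [h, Pos.upd_self]
  generalize (∑ x ∈ univ.erase c, gr (N.kind x) (p.s x)) = r
  generalize gr (N.kind c) m = a
  generalize gr (N.kind c) (p.s c) = b
  revert r a b
  decide

/-- The class of positions of value zero. -/
structure ZP (N : Net ι) (p : Pos ι) : Prop where
  ok : okp N p
  phi : N.Phi p = 0
  good : ∀ g ∈ p.H, good (p.s (.inl (g, 0))) = true
  two : ∀ g ∈ p.H, Two p g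

/-- The positions from which the class `ZP` is reached. -/
structure AZ (N : Net ι) (p : Pos ι) : Prop where
  ok : okp N p
  phi : N.Phi p ≠ 0
  big : (N.Phi p).1 ≠ 0 → ∀ g ∈ p.H, AK.good (p.s (.inl (g, 0))) = true ∧ Two p g
  one : (N.Phi p).1 = 0 → ∀ g0 ∈ p.H, ∃ g ∈ p.H,
    (∃ j : Fin 7, (j ≠ 0 ∧ j ≤ 4) ∧ p.s (.inl (g, j)) = 3) ∧
    ∀ g' ∈ p.H, g' ≠ g → AK.good (p.s (.inl (g', 0))) = true ∧ Two p g'

theorem exists_fst {N : Net ι} {p : Pos ι} (h : (N.Phi p).1 ≠ 0) :
    ∃ c, (gr (N.kind c) (p.s c)).1 ≠ 0 := by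
  by_contra hc
  push Not at hc
  refine h ?_
  unfold Net.Phi
  rw [Prod.fst_sum]
  exact Finset.sum_eq_zero fun c _ => hc c

theorem exists_snd {N : Net ι} {p : Pos ι} (h : (N.Phi p).2 ≠ 0) :
    ∃ c, (gr (N.kind c) (p.s c)).2 ≠ 0 := by
  by_contra hc
  push Not at hc
  refine h ?_
  unfold Net.Phi
  rw [Prod.snd_sum]
  exact Finset.sum_eq_zero fun c _ => hc c

theorem Two.upd {p : Pos ι} {g : ι} (h : Two p g) {H : Finset ι} {c : Cmp ι} {m : ℕ}
    (hc : ∀ j : Fin 7, j ≠ 0 ∧ j ≤ 4 → c ≠ .inl (g, j)) : Two (p.upd H c m) g := by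
  obtain ⟨j, k, hjk, hj, hk, h1, h2⟩ := h
  refine ⟨j, k, hjk, hj, hk, ?_, ?_⟩
  · rw [Pos.upd_ne (hc j hj).symm, h1]
  · rw [Pos.upd_ne (hc k hk).symm, h2]

theorem AZ.reply {N : Net ι} {p : Pos ι} (h : AZ N p) : ∃ p', Mv N p p' ∧ ZP N p' := by
  by_cases h1 : (N.Phi p).1 = 0
  · have h2 : (N.Phi p).2 ≠ 0 := fun h2 => h.phi (Prod.ext h1 h2)
    have h3 : N.Phi p = (0, 1) := Prod.ext h1 (ne0_one h2)
    by_cases hH : p.H.Nonempty
    · obtain ⟨g0, hg0⟩ := hH
      obtain ⟨g, hg, ⟨j, hj, hj3⟩, hoth⟩ := h.one h1 g0 hg0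
      have hk : N.kind (.inl (g, j)) = .K := kind_K N hj
      refine ⟨_, Mv.hub p g (.inl (g, j)) 0 hg (Or.inl ⟨rfl, rfl⟩) (by rw [hj3]; decide), ?_, ?_, ?_, ?_⟩
      · refine h.ok.upd ?_
        rw [hk, hj3]
        decide
      · rw [Phi_upd, hk, hj3, h3]
        decide
      · intro g' hg'
        have hne := Finset.ne_of_mem_erase hg'
        rw [Pos.upd_ne (by simp [hne])]
        exact (hoth g' (Finset.mem_of_mem_erase hg') hne).1
      · intro g' hg'
        have hne := Finset.ne_of_mem_erase hg'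
        refine (hoth g' (Finset.mem_of_mem_erase hg') hne).2.upd ?_
        intro k hk
        simp [Ne.symm hne]
    · rw [Finset.not_nonempty_iff_eq_empty] at hH
      obtain ⟨c, hc⟩ := exists_snd h2
      obtain ⟨m, hm, hgm⟩ := F3 (N.kind c) (p.s c) (ok_lt (h.ok c)) (h.ok c) hc
      refine ⟨_, Mv.loc p c m hm, h.ok.upd (F1 _ _ (ok_lt (h.ok c)) (h.ok c) m hm).1, ?_, ?_, ?_⟩
      · rw [Phi_upd, hgm, h3]
        generalize gr (N.kind c) (p.s c) = a
        revert a
        decide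
      · intro g hg
        simp [hH] at hg
      · intro g hg
        simp [hH] at hg
  · obtain ⟨c, hc⟩ := exists_fst h1
    obtain ⟨m, hm, hgm⟩ := F2 (N.kind c) (p.s c) (ok_lt (h.ok c)) (h.ok c) hc (N.Phi p).2
    have h3 : N.Phi p = (1, (N.Phi p).2) := Prod.ext (ne0_one h1) rfl
    rw [← h3] at hgm
    have hch : gr (N.kind c) m + gr (N.kind c) (p.s c) = N.Phi p := add_eq4 hgm
    have hok := (F1 _ _ (ok_lt (h.ok c)) (h.ok c) m hm).1
    refine ⟨_, Mv.loc p c m hm, h.ok.upd hok, ?_, ?_, ?_⟩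
    · rw [Phi_upd, hch]
      exact add_self4 _
    · intro g hg
      by_cases hcg : c = .inl (g, 0)
      · subst hcg
        rw [Pos.upd_self]
        rw [kind_X] at hm hch
        have := h.ok (.inl (g, 0))
        rw [kind_X] at this
        exact F6 _ (ok_lt this) this (h.big h1 g hg).1 m hm (by rw [hch]; exact h1)
      · rw [Pos.upd_ne (Ne.symm hcg)]
        exact (h.big h1 g hg).1
    · intro g hg
      refine (h.big h1 g hg).2.upd ?_
      rintro j hj rfl
      rw [kind_K N hj] at hm hch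
      have := h.ok (.inl (g, j))
      rw [kind_K N hj] at this
      have h4 := add_eq4 (F7 _ (ok_lt this) this m hm)
      rw [hch] at h4
      rw [h4] at h1
      exact h1 rfl

/-- Positions with all present gadgets fine and nonzero value. -/
theorem AZ.of_good {N : Net ι} {p : Pos ι} (hok : okp N p) (hphi : N.Phi p ≠ 0)
    (hg : ∀ g ∈ p.H, AK.good (p.s (.inl (g, 0))) = true ∧ Two p g) : AZ N p where
  ok := hok
  phi := hphi
  big := fun _ => hg
  one := fun _ g0 hg0 => ⟨g0, hg0, by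
    obtain ⟨j, k, hjk, hj, hk, h1, h2⟩ := (hg g0 hg0).2
    exact ⟨j, hj, h1⟩, fun g' hg' _ => hg g' hg'⟩

theorem Two.one {p : Pos ι} {g : ι} (h : Two p g) (c : Cmp ι) :
    ∃ j : Fin 7, (j ≠ 0 ∧ j ≤ 4) ∧ c ≠ .inl (g, j) ∧ p.s (.inl (g, j)) = 3 := by
  obtain ⟨j, k, hjk, hj, hk, h1, h2⟩ := h
  by_cases hc : c = .inl (g, j)
  · refine ⟨k, hk, ?_, h2⟩
    rw [hc]
    simp [hjk]
  · exact ⟨j, hj, hc, h1⟩

theorem AZ.of_upd {N : Net ι} {p : Pos ι} (h : ZP N p) {H : Finset ι} (hH : H ⊆ p.H) {c : Cmp ι}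
    {m : ℕ} (hm : AK.ok (N.kind c) m = true) (ht : gr (N.kind c) m ≠ gr (N.kind c) (p.s c))
    (hX : ∀ g ∈ H, c = .inl (g, 0) → (gr (N.kind c) m + gr (N.kind c) (p.s c)).1 ≠ 0 →
      AK.good m = true)
    (hK : ∀ g ∈ H, ∀ j : Fin 7, j ≠ 0 ∧ j ≤ 4 → c = .inl (g, j) →
      (gr (N.kind c) m + gr (N.kind c) (p.s c)).1 = 0) : AZ N (p.upd H c m) := by
  have hphi : N.Phi (p.upd H c m) = gr (N.kind c) m + gr (N.kind c) (p.s c) := by
    rw [Phi_upd, h.phi, zero_add]
  refine ⟨h.ok.upd hm, ?_, ?_, ?_⟩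
  · rw [hphi]
    exact add_ne4 ht
  · rw [hphi]
    intro h1 g hg
    constructor
    · by_cases hc : c = .inl (g, 0)
      · have := hX g hg hc h1
        subst hc
        rwa [Pos.upd_self]
      · rw [Pos.upd_ne (Ne.symm hc)]
        exact h.good g (hH hg)
    · refine (h.two g (hH hg)).upd ?_
      intro j hj hc
      exact h1 (hK g hg j hj hc)
  · intro _ g0 hg0
    by_cases hc : ∃ g ∈ H, ∃ j, c = .inl (g, j)
    · obtain ⟨g, hg, j, rfl⟩ := hc
      refine ⟨g, hg, ?_, ?_⟩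
      · obtain ⟨k, hk, hne, h3⟩ := (h.two g (hH hg)).one (.inl (g, j))
        exact ⟨k, hk, by rw [Pos.upd_ne (Ne.symm hne), h3]⟩
      · intro g' hg' hne
        refine ⟨?_, (h.two g' (hH hg')).upd ?_⟩
        · rw [Pos.upd_ne (by simp [hne])]
          exact h.good g' (hH hg')
        · intro k hk
          simp [Ne.symm hne]
    · push Not at hc
      refine ⟨g0, hg0, ?_, ?_⟩
      · obtain ⟨k, hk, hne, h3⟩ := (h.two g0 (hH hg0)).one c
        exact ⟨k, hk, by rw [Pos.upd_ne (Ne.symm hne), h3]⟩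
      · intro g' hg' hne
        refine ⟨?_, (h.two g' (hH hg')).upd fun k hk => hc g' hg' k⟩
        rw [Pos.upd_ne (Ne.symm (hc g' hg' 0))]
        exact h.good g' (hH hg')

theorem ZP.step {N : Net ι} {p p' : Pos ι} (h : ZP N p) (hm : Mv N p p') :
    ∃ p'', Mv N p' p'' ∧ ZP N p'' := by
  refine AZ.reply ?_
  cases hm with
  | loc c m hmm =>
    have hF := F1 _ _ (ok_lt (h.ok c)) (h.ok c) m hmm
    refine AZ.of_upd h (Finset.Subset.refl _) hF.1 hF.2 ?_ ?_
    · rintro g hg rfl h1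
      have := h.ok (.inl (g, 0))
      rw [kind_X] at this hmm h1
      exact F6 _ (ok_lt this) this (h.good g hg) m hmm h1
    · rintro g hg j hj rfl
      have := h.ok (.inl (g, j))
      rw [kind_K N hj] at this hmm ⊢
      rw [add_eq4 (F7 _ (ok_lt this) this m hmm)]
  | hub g c v hg hp hv =>
    have hF := F4 _ _ (ok_lt (h.ok c)) (h.ok c) v (port_mem hp) hv
    refine AZ.of_upd h (Finset.erase_subset _ _) hF.1 ?_ ?_ ?_
    · by_cases hx : N.kind c = .X ∧ v = 0
      · rcases c with ⟨J, j⟩ | t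
        · obtain ⟨hx1, rfl⟩ := hx
          have hj : j = 0 := by
            by_contra hj
            simp only [Net.kind, hj, if_false] at hx1
            split_ifs at hx1
          subst hj
          rcases hp with ⟨rfl, _⟩ | ⟨_, hp, _⟩
          · rw [kind_X]
            have := h.ok (.inl (g, 0))
            exact F5 _ (ok_lt this) (h.good g hg) hv
          · exact absurd hp (by norm_num)
        · cases t <;> simp [Net.kind] at hx
      · exact hF.2 hx
    · rintro g' hg' rfl h1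
      have hne := Finset.ne_of_mem_erase hg'
      rcases hp with ⟨rfl, _⟩ | ⟨_, rfl, _⟩
      · exact absurd rfl hne
      · have := h.ok (.inl (g', 0))
        rw [kind_X] at this h1
        exact F6q _ (ok_lt this) this (h.good g' (Finset.mem_of_mem_erase hg')) hv h1
    · rintro g' hg' j hj rfl
      have hne := Finset.ne_of_mem_erase hg'
      rcases hp with ⟨rfl, _⟩ | ⟨h0, _, _⟩
      · exact absurd rfl hne
      · exact absurd h0 hj.1

end Pool.Agent.H656R2.AK
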