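import Pool.Agent.H623R2.PS.Defs

/-!
# Arc-Kayles
-/

namespace Pool.Agent.H656R2.AK

/-- ARC-KAYLES on the graph `G`, when the vertices in `S` remain. A move chooses an edge `uv` of the
current graph (the subgraph of `G` induced by `S`) and deletes its endpoints `u` and `v`; a player
with no edge available loses. The first player wins on `S` if he has a move such that, whatever
move the opponent makes next, he wins again on the remaining graph (in particular, if the opponent
has no move). -/
inductive FirstWins {V : Type*} (G : SimpleGraph V) : Set V → Prop
  | move {S : Set V} (u v : V) (hu : u ∈ S) (hv : v ∈ S) (huv : G.Adj u v)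
      (reply : ∀ x y, x ∈ S \ {u, v} → y ∈ S \ {u, v} → G.Adj x y →
        FirstWins G ((S \ {u, v}) \ {x, y})) : FirstWins G S

/-- The adjacency matrix of a graph on `{0, ..., n-1}`, as a list of rows. -/
noncomputable def adjMatrix {n : ℕ} (G : SimpleGraph (Fin n)) : List (List Bool) :=
  open Classical in List.ofFn fun i => List.ofFn fun j => decide (G.Adj i j)

/-- The decision problem ARC-KAYLES: given (the adjacency matrix of) a graph, does the first player
win on this graph? -/
def ArcKayles (M : List (List Bool)) : Prop :=
  ∃ (n : ℕ) (G : SimpleGraph (Fin n)), adjMatrix G = M ∧ FirstWins G Set.univ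

end Pool.Agent.H656R2.AK
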