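import Pool.Agent.H656R2.AK.Defs

/-!
# The two-player game of SET
-/

namespace Pool.Agent.H656R2.AK

/-- Three cards form a Set: they are distinct and in every coordinate their values are all equal or
pairwise distinct. -/
def IsSet {n : ℕ} (a b c : Fin n → Fin 3) : Prop :=
  a ≠ b ∧ b ≠ c ∧ a ≠ c ∧ ∀ i, (a i = b i ∧ b i = c i) ∨ (a i ≠ b i ∧ b i ≠ c i ∧ a i ≠ c i)

/-- 2P 3-value SET with the cards in `C` on the table. A move removes three cards of the table which
form a Set; a player with no legal move loses. The player to move wins if he has a move such that,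
whatever move the opponent makes next, he wins again on the remaining cards (in particular, if the
opponent has no move). -/
inductive SetWins {n : ℕ} : Set (Fin n → Fin 3) → Prop
  | move {C : Set (Fin n → Fin 3)} (a b c : Fin n → Fin 3) (ha : a ∈ C) (hb : b ∈ C) (hc : c ∈ C)
      (habc : IsSet a b c)
      (reply : ∀ x y z, x ∈ C \ {a, b, c} → y ∈ C \ {a, b, c} → z ∈ C \ {a, b, c} → IsSet x y z →
        SetWins ((C \ {a, b, c}) \ {x, y, z})) : SetWins C

/-- A card as a list of its values. -/
def cardCode {n : ℕ} (c : Fin n → Fin 3) : List ℕ := List.ofFn fun i => (c i).val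

/-- The decision problem: given `n ≥ 1` and a list of distinct cards in `{0, 1, 2} ^ n`, does the
first player win 2P 3-value SET? -/
def SetGame (p : ℕ × List (List ℕ)) : Prop :=
  ∃ (n : ℕ) (C : List (Fin n → Fin 3)), 1 ≤ n ∧ C.Nodup ∧ p = (n, C.map cardCode) ∧
    SetWins {c | c ∈ C}

end Pool.Agent.H656R2.AK
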