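import Pool.Agent.H656R2.AK.SetDefs
import Pool.Agent.H656R2.AK.AKIn
import Pool.Agent.H656R2.AK.TQPoly

/-!
# The two-player game of SET is hard for polynomial space
-/

namespace Pool.Agent.H656R2.AK

open Pool.Agent.NPC Pool.Agent.H623R2.PS

set_option linter.unusedSectionVars false

/-- the moves of SET -/
def setMv {n : ℕ} (C C' : Set (Fin n → Fin 3)) : Prop :=
  ∃ a b c, a ∈ C ∧ b ∈ C ∧ c ∈ C ∧ IsSet a b c ∧ C' = C \ {a, b, c}

theorem setWins_iff {n : ℕ} (C : Set (Fin n → Fin 3)) : SetWins C ↔ W setMv C := by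
  constructor
  · intro h
    induction h with
    | move a b c ha hb hc habc hr ih =>
      refine W.mk _ _ ⟨a, b, c, ha, hb, hc, habc, rfl⟩ ?_
      rintro _ ⟨x, y, z, hx, hy, hz, hxyz, rfl⟩
      exact ih x y z hx hy hz hxyz
  · intro h
    induction h with
    | mk a b h hb ih =>
      obtain ⟨u, v, w, hu, hv, hw, huv, rfl⟩ := h
      exact SetWins.move u v w hu hv hw huv fun x y z hx hy hz hxy =>
        ih _ ⟨x, y, z, hx, hy, hz, hxy, rfl⟩

variable {n : ℕ}

/-- the card of a vertex -/
def vc (u : Fin n) : Fin n → Fin 3 := fun i => if i = u then 1 else 0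

/-- the card of an edge -/
def ec (u v : Fin n) : Fin n → Fin 3 := fun i => if i = u ∨ i = v then 2 else 0

theorem vc_inj {u v : Fin n} (h : vc u = vc v) : u = v := by
  have h1 := congrFun h u
  unfold vc at h1
  by_contra hc
  simp [hc] at h1

theorem vc_ne_ec {u v w : Fin n} : vc u ≠ ec v w := by
  intro h
  have h1 := congrFun h u
  unfold vc ec at h1
  rw [if_pos rfl] at h1
  split_ifs at h1 <;> exact absurd h1 (by decide)

theorem ec_comm (u v : Fin n) : ec u v = ec v u := by
  unfold ec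
  funext i
  simp [or_comm]

theorem three_iff (a b c : Fin 3) : ((a = b ∧ b = c) ∨ (a ≠ b ∧ b ≠ c ∧ a ≠ c)) ↔
    a + b + c = 0 := by
  revert a b c
  decide

theorem isSet_sum {a b c : Fin n → Fin 3} (h : IsSet a b c) (i : Fin n) : a i + b i + c i = 0 :=
  (three_iff _ _ _).1 (h.2.2.2 i)

theorem isSet_vve {u v : Fin n} (h : u ≠ v) : IsSet (vc u) (vc v) (ec u v) := by
  refine ⟨fun e => h (vc_inj e), vc_ne_ec, vc_ne_ec, fun i => ?_⟩
  rw [three_iff]
  unfold vc ec
  by_cases h1 : i = u
  · subst h1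
    simp only [h, if_true, if_false, true_or]
    decide
  · by_cases h2 : i = v
    · subst h2
      simp only [h1, if_true, if_false, or_true]
      decide
    · simp only [h1, h2, if_false, or_self]
      decide

/-- vertex, vertex, vertex -/
theorem no_vvv {u v w : Fin n} (h : IsSet (vc u) (vc v) (vc w)) : False := by
  have h1 := isSet_sum h u
  have huv : u ≠ v := fun e => h.1 (by rw [e])
  have huw : u ≠ w := fun e => h.2.2.1 (by rw [e])
  unfold vc at h1
  simp only [huv, huw, if_true, if_false] at h1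
  exact absurd h1 (by decide)

/-- vertex, vertex, edge -/
theorem of_vve {u v x y : Fin n} (huv : u ≠ v) (h : ∀ i, vc u i + vc v i + ec x y i = 0) :
    (x = u ∧ y = v) ∨ (x = v ∧ y = u) := by
  have h1 : u = x ∨ u = y := by
    by_contra hc
    have := h u
    unfold vc ec at this
    simp only [huv, hc, if_true, if_false] at this
    exact absurd this (by decide)
  have h2 : v = x ∨ v = y := by
    by_contra hc
    have := h v
    unfold vc ec at this
    simp only [Ne.symm huv, hc, if_true, if_false] at this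
    exact absurd this (by decide)
  rcases h1 with rfl | rfl <;> rcases h2 with rfl | rfl
  · exact absurd rfl huv
  · exact Or.inl ⟨rfl, rfl⟩
  · exact Or.inr ⟨rfl, rfl⟩
  · exact absurd rfl huv

/-- vertex, edge, edge -/
theorem no_vee {u x y z w : Fin n} (hxy : x ≠ y) (h : ∀ i, vc u i + ec x y i + ec z w i = 0) :
    False := by
  have key : ∀ t, (t = x ∨ t = y) → t = u := by
    intro t ht
    by_contra hc
    have := h t
    unfold vc ec at this
    rw [if_neg hc, if_pos ht] at this
    split_ifs at this <;> exact absurd this (by decide)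
  exact hxy ((key x (Or.inl rfl)).trans (key y (Or.inr rfl)).symm)

/-- edge, edge, edge -/
theorem no_eee {x y z w s t : Fin n} (hxy : x ≠ y) (hne : ec x y ≠ ec z w)
    (h : ∀ i, ec x y i + ec z w i + ec s t i = 0) : False := by
  have key : ∀ i, (i = x ∨ i = y) → (i = z ∨ i = w) := by
    intro i hi
    by_contra hc
    have := h i
    unfold ec at this
    rw [if_pos hi, if_neg hc] at this
    split_ifs at this <;> exact absurd this (by decide)
  have h1 := key x (Or.inl rfl)
  have h2 := key y (Or.inr rfl)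
  rcases h1 with rfl | rfl <;> rcases h2 with rfl | rfl
  · exact hxy rfl
  · exact hne rfl
  · exact hne (ec_comm _ _)
  · exact hxy rfl

/-- The cards of a graph. -/
def IsCard (G : SimpleGraph (Fin n)) (c : Fin n → Fin 3) : Prop :=
  (∃ u, c = vc u) ∨ ∃ u v, G.Adj u v ∧ c = ec u v

theorem isSet_cards {G : SimpleGraph (Fin n)} {a b c : Fin n → Fin 3} (ha : IsCard G a)
    (hb : IsCard G b) (hc : IsCard G c) (h : IsSet a b c) :
    ∃ u v, G.Adj u v ∧ ({a, b, c} : Set (Fin n → Fin 3)) = {vc u, vc v, ec u v} := by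
  have hs := isSet_sum h
  rcases ha with ⟨u, rfl⟩ | ⟨u, u', hu, rfl⟩ <;> rcases hb with ⟨v, rfl⟩ | ⟨v, v', hv, rfl⟩ <;>
    rcases hc with ⟨w, rfl⟩ | ⟨w, w', hw, rfl⟩
  · exact (no_vvv h).elim
  · have huv : u ≠ v := fun e => h.1 (by rw [e])
    rcases of_vve huv hs with ⟨rfl, rfl⟩ | ⟨rfl, rfl⟩
    · exact ⟨_, _, hw, rfl⟩
    · exact ⟨_, _, hw.symm, by rw [ec_comm]⟩
  · have huw : u ≠ w := fun e => h.2.2.1 (by rw [e])
    have hs' : ∀ i, vc u i + vc w i + ec v v' i = 0 := fun i => by
      rw [← hs i, add_right_comm]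
    rcases of_vve huw hs' with ⟨rfl, rfl⟩ | ⟨rfl, rfl⟩
    · exact ⟨_, _, hv, by rw [Set.pair_comm]⟩
    · refine ⟨_, _, hv.symm, by rw [ec_comm, Set.pair_comm]⟩
  · exact (no_vee hv.ne hs).elim
  · have hvw : v ≠ w := fun e => h.2.1 (by rw [e])
    have hs' : ∀ i, vc v i + vc w i + ec u u' i = 0 := fun i => by
      rw [← hs i, add_assoc, add_assoc, add_comm (ec u u' i), add_assoc]
    have hset : ({ec u u', vc v, vc w} : Set (Fin n → Fin 3)) = {vc v, vc w, ec u u'} := by
      ext z
      simp only [Set.mem_insert_iff, Set.mem_singleton_iff]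
      tauto
    rcases of_vve hvw hs' with ⟨rfl, rfl⟩ | ⟨rfl, rfl⟩
    · exact ⟨_, _, hu, hset⟩
    · exact ⟨_, _, hu.symm, by rw [hset, ec_comm]⟩
  · exact (no_vee (u := v) hu.ne fun i => by rw [← hs i, add_comm (vc v i)]).elim
  · exact (no_vee (u := w) hu.ne fun i => by
      rw [← hs i, add_assoc, add_comm (vc w i)]).elim
  · exact (no_eee hu.ne h.1 hs).elim

/-- the relation between sets of vertices and sets of cards -/
structure RS' (G : SimpleGraph (Fin n)) (S : Set (Fin n)) (C : Set (Fin n → Fin 3)) : Prop where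
  v : ∀ u, vc u ∈ C ↔ u ∈ S
  e : ∀ u w, G.Adj u w → u ∈ S → w ∈ S → ec u w ∈ C
  c : ∀ c ∈ C, IsCard G c

theorem RS'.next {G : SimpleGraph (Fin n)} {S : Set (Fin n)} {C : Set (Fin n → Fin 3)}
    (h : RS' G S C) (u v : Fin n) : RS' G (S \ {u, v}) (C \ {vc u, vc v, ec u v}) := by
  refine ⟨?_, ?_, ?_⟩
  · intro w
    simp only [Set.mem_sdiff, h.v, Set.mem_insert_iff, Set.mem_singleton_iff]
    have h1 : vc w = vc u ↔ w = u := ⟨vc_inj, fun e => by rw [e]⟩
    have h2 : vc w = vc v ↔ w = v := ⟨vc_inj, fun e => by rw [e]⟩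
    have h3 : vc w = ec u v ↔ False := ⟨vc_ne_ec, False.elim⟩
    rw [h1, h2, h3]
    tauto
  · intro x y hxy hx hy
    simp only [Set.mem_sdiff, Set.mem_insert_iff, Set.mem_singleton_iff, not_or] at hx hy ⊢
    refine ⟨h.e x y hxy hx.1 hy.1, fun e => vc_ne_ec e.symm, fun e => vc_ne_ec e.symm, fun e => ?_⟩
    have h1 := congrFun e x
    unfold ec at h1
    rw [if_pos (Or.inl rfl), if_neg (by tauto)] at h1
    exact absurd h1 (by decide)
  · intro c hc
    exact h.c c hc.1

theorem setWins_graph (G : SimpleGraph (Fin n)) {C : Set (Fin n → Fin 3)}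
    (h : RS' G Set.univ C) : FirstWins G Set.univ ↔ SetWins C := by
  rw [firstWins_iff, setWins_iff]
  refine W_bisim_iff (RS' G) ?_ ?_ h
  · rintro S C _ hR ⟨u, v, hu, hv, huv, rfl⟩
    exact ⟨_, ⟨vc u, vc v, ec u v, (hR.v u).2 hu, (hR.v v).2 hv, hR.e u v huv hu hv,
      isSet_vve huv.ne, rfl⟩, hR.next u v⟩
  · rintro S C _ hR ⟨a, b, c, ha, hb, hc, habc, rfl⟩
    obtain ⟨u, v, huv, hset⟩ := isSet_cards (hR.c a ha) (hR.c b hb) (hR.c c hc) habc
    have hsub : ∀ x ∈ ({a, b, c} : Set (Fin n → Fin 3)), x ∈ C := by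
      rintro x (rfl | rfl | rfl)
      · exact ha
      · exact hb
      · exact hc
    rw [hset] at hsub ⊢
    refine ⟨S \ {u, v}, ⟨u, v, (hR.v u).1 (hsub _ (by simp)), (hR.v v).1 (hsub _ (by simp)), huv,
      rfl⟩, hR.next u v⟩

/-! ### The instance -/

/-- the code of a vertex card -/
def vcN (n i : ℕ) : List ℕ := (List.range n).map fun k => if k = i then 1 else 0

/-- the code of an edge card -/
def ecN (n i j : ℕ) : List ℕ := (List.range n).map fun k => if k = i ∨ k = j then 2 else 0

/-- the cards of a matrix -/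
def cardsN (M : List (List Bool)) : List (List ℕ) :=
  ((List.range M.length).map fun i => vcN M.length i) ++
    ((List.range M.length ×ˢ List.range M.length).filter fun p =>
      decide (p.1 < p.2) && ent M p.1 p.2).map fun p => ecN M.length p.1 p.2

theorem code_vc (u : Fin n) : cardCode (vc u) = vcN n u.val := by
  unfold cardCode vcN
  apply List.ext_getElem
  · simp
  · intro i h1 h2
    simp only [List.getElem_ofFn, List.getElem_map, List.getElem_range, vc, Fin.ext_iff]
    split_ifs <;> rfl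

theorem code_ec (u v : Fin n) : cardCode (ec u v) = ecN n u.val v.val := by
  unfold cardCode ecN
  apply List.ext_getElem
  · simp
  · intro i h1 h2
    simp only [List.getElem_ofFn, List.getElem_map, List.getElem_range, ec, Fin.ext_iff]
    split_ifs <;> rfl

theorem cardCode_inj {a b : Fin n → Fin 3} (h : cardCode a = cardCode b) : a = b := by
  unfold cardCode at h
  have h1 := List.ofFn_injective h
  funext i
  exact Fin.ext (congrFun h1 i)

theorem cardsN_code {M : List (List Bool)} (hM : valid M = true) :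
    ∃ C : List (Fin M.length → Fin 3), C.map cardCode = cardsN M ∧
      ∀ c, c ∈ C ↔ IsCard (grM M hM) c := by
  have key : ∀ L : List (List ℕ), (∀ l ∈ L, ∃ c : Fin M.length → Fin 3, IsCard (grM M hM) c ∧
      cardCode c = l) → ∃ C : List (Fin M.length → Fin 3), C.map cardCode = L ∧
      ∀ c ∈ C, IsCard (grM M hM) c := by
    intro L
    induction L with
    | nil => intro _; exact ⟨[], rfl, by simp⟩
    | cons l L ih =>
      intro h
      obtain ⟨C, h1, h2⟩ := ih fun l hl => h l (List.mem_cons_of_mem _ hl)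
      obtain ⟨c, h3, h4⟩ := h l List.mem_cons_self
      refine ⟨c :: C, by rw [List.map_cons, h1, h4], ?_⟩
      intro d hd
      rcases List.mem_cons.1 hd with rfl | hd
      · exact h3
      · exact h2 d hd
  obtain ⟨C, h1, h2⟩ := key (cardsN M) (by
    intro l hl
    unfold cardsN at hl
    rw [List.mem_append, List.mem_map, List.mem_map] at hl
    rcases hl with ⟨i, hi, rfl⟩ | ⟨⟨i, j⟩, hij, rfl⟩
    · rw [List.mem_range] at hi
      exact ⟨vc ⟨i, hi⟩, Or.inl ⟨_, rfl⟩, code_vc ⟨i, hi⟩⟩
    · rw [List.mem_filter, mem_prod, List.mem_range, List.mem_range, Bool.and_eq_true] at hij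
      obtain ⟨⟨hi, hj⟩, _, he⟩ := hij
      exact ⟨ec ⟨i, hi⟩ ⟨j, hj⟩, Or.inr ⟨⟨i, hi⟩, ⟨j, hj⟩, he, rfl⟩, code_ec ⟨i, hi⟩ ⟨j, hj⟩⟩)
  refine ⟨C, h1, fun c => ⟨h2 c, ?_⟩⟩
  intro hc
  have h3 : cardCode c ∈ C.map cardCode := by
    rw [h1]
    unfold cardsN
    rw [List.mem_append, List.mem_map, List.mem_map]
    rcases hc with ⟨u, rfl⟩ | ⟨u, v, huv, rfl⟩
    · exact Or.inl ⟨u.val, List.mem_range.2 u.isLt, (code_vc u).symm⟩
    · right
      rcases lt_trichotomy u.val v.val with h | h | h
      · refine ⟨(u.val, v.val), ?_, (code_ec u v).symm⟩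
        rw [List.mem_filter, mem_prod, Bool.and_eq_true]
        exact ⟨⟨List.mem_range.2 u.isLt, List.mem_range.2 v.isLt⟩, by simpa using h, huv⟩
      · exact absurd (Fin.ext h) huv.ne
      · refine ⟨(v.val, u.val), ?_, ?_⟩
        · rw [List.mem_filter, mem_prod, Bool.and_eq_true]
          exact ⟨⟨List.mem_range.2 v.isLt, List.mem_range.2 u.isLt⟩, by simpa using h, huv.symm⟩
        · rw [ec_comm, code_ec]
  rw [List.mem_map] at h3
  obtain ⟨d, hd, hdc⟩ := h3
  rwa [cardCode_inj hdc] at hd

theorem vcN_getD {n i k : ℕ} (hk : k < n) : (vcN n i).getD k 0 = if k = i then 1 else 0 := by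
  simp [vcN, List.getD_eq_getElem?_getD, hk]

theorem ecN_getD {n i j k : ℕ} (hk : k < n) :
    (ecN n i j).getD k 0 = if k = i ∨ k = j then 2 else 0 := by
  simp [ecN, List.getD_eq_getElem?_getD, hk]

theorem cardsN_nodup (M : List (List Bool)) : (cardsN M).Nodup := by
  unfold cardsN
  rw [List.nodup_append]
  refine ⟨?_, ?_, ?_⟩
  · refine List.Nodup.map_on ?_ List.nodup_range
    intro i hi j hj h
    rw [List.mem_range] at hi hj
    have h1 := congrArg (fun l => l.getD i 0) h
    simp only [vcN_getD hi, if_true] at h1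
    by_contra hc
    rw [if_neg hc] at h1
    exact absurd h1 (by decide)
  · refine List.Nodup.map_on ?_ (List.Nodup.filter _ (List.Nodup.product List.nodup_range
      List.nodup_range))
    rintro ⟨i, j⟩ hij ⟨i', j'⟩ hij' h
    rw [List.mem_filter, mem_prod, List.mem_range, List.mem_range, Bool.and_eq_true,
      decide_eq_true_eq] at hij hij'
    obtain ⟨⟨hi, hj⟩, hlt, _⟩ := hij
    obtain ⟨⟨hi', hj'⟩, hlt', _⟩ := hij'
    simp only at hi hj hlt hi' hj' hlt' h
    have key : ∀ k < M.length, (k = i ∨ k = j) ↔ (k = i' ∨ k = j') := by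
      intro k hk
      have h1 := congrArg (fun l => l.getD k 0) h
      simp only [ecN_getD hk] at h1
      by_cases h2 : k = i ∨ k = j <;> by_cases h3 : k = i' ∨ k = j' <;> simp_all
    have k1 := key i hi
    have k2 := key j hj
    have k3 := key i' hi'
    have k4 := key j' hj'
    simp only [Prod.mk.injEq]
    omega
  · intro l hl l' hl' e
    subst e
    rw [List.mem_map] at hl hl'
    obtain ⟨i, hi, rfl⟩ := hl
    obtain ⟨⟨j, k⟩, _, h⟩ := hl'
    rw [List.mem_range] at hi
    have h1 := congrArg (fun l => l.getD i 0) h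
    simp only [vcN_getD hi, ecN_getD hi, if_true] at h1
    split_ifs at h1 <;> omega

theorem setGame_of {M : List (List Bool)} (hM : valid M = true) (hn : 1 ≤ M.length) :
    SetGame (M.length, cardsN M) ↔ ArcKayles M := by
  obtain ⟨C, h1, h2⟩ := cardsN_code hM
  have hC : C.Nodup := List.Nodup.of_map cardCode (by rw [h1]; exact cardsN_nodup M)
  have hR : RS' (grM M hM) Set.univ {c | c ∈ C} := by
    refine ⟨fun u => ?_, fun u v huv _ _ => ?_, fun c hc => (h2 c).1 hc⟩
    · simp only [Set.mem_ofPred_eq, Set.mem_univ, iff_true]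
      exact (h2 _).2 (Or.inl ⟨u, rfl⟩)
    · exact (h2 _).2 (Or.inr ⟨u, v, huv, rfl⟩)
  have hA : ArcKayles M ↔ FirstWins (grM M hM) Set.univ := by
    rw [← arcKayles_iff, adjMatrix_grM]
  rw [hA, setWins_graph _ hR]
  constructor
  · rintro ⟨n, D, _, hD, hp, hW⟩
    rw [Prod.mk.injEq] at hp
    obtain ⟨rfl, hp⟩ := hp
    have : D = C := List.map_injective_iff.2 (fun a b h => cardCode_inj h) (hp.symm.trans h1.symm)
    rwa [← this]
  · intro hW
    exact ⟨M.length, C, hn, hC, by rw [h1], hW⟩

theorem poly_cardsN : NPC.Poly cardsN := by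
  have h : UPoly (fun M : List (List Bool) => M.length) := UPoly.length (by fun_prop)
  have h1 := h.range
  have hv : NPC.Poly (fun q : List (List Bool) × ℕ => vcN q.1.length q.2) :=
    NPC.Poly.map (l := fun q : List (List Bool) × ℕ => List.range q.1.length)
      (F := fun q k => if k = q.2 then 1 else 0) (h1.comp (NPC.Poly.fst NPC.Poly.id)) (by fun_prop)
  have he : NPC.Poly (fun q : List (List Bool) × (ℕ × ℕ) => ecN q.1.length q.2.1 q.2.2) :=
    NPC.Poly.map (l := fun q : List (List Bool) × (ℕ × ℕ) => List.range q.1.length)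
      (F := fun q k => if k = q.2.1 ∨ k = q.2.2 then 2 else 0)
      (h1.comp (NPC.Poly.fst NPC.Poly.id)) (by fun_prop)
  have h2 : NPC.Poly (fun M : List (List Bool) => List.range M.length ×ˢ List.range M.length) := by
    fun_prop
  have h3 : NPC.Poly (fun M : List (List Bool) => (List.range M.length ×ˢ
      List.range M.length).filter fun p => decide (p.1 < p.2) && ent M p.1 p.2) :=
    NPC.Poly.filter (p := fun M p => decide (p.1 < p.2) && ent M p.1 p.2) h2 (by fun_prop)
  exact NPC.Poly.append (NPC.Poly.map (F := fun M i => vcN (List.length M) i) h1 hv)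
    (NPC.Poly.map (F := fun M p => ecN (List.length M) p.1 p.2) h3 he)

theorem matQ_length (Q : QF) : 1 ≤ (matQ Q).length := by
  unfold matQ vlist nn
  simp
  omega

theorem valid_matQ (Q : QF) : valid (matQ Q) = true := by
  have hs : ∀ a b, ad Q a b = ad Q b a := fun a b => by unfold ad; exact Bool.or_comm _ _
  have hi : ∀ a, ad Q a a = false := fun a => by unfold ad; rw [hl_self]; rfl
  unfold matQ
  rw [← adjMatrix_listGraph' (vlist (nn Q)) (ad Q) hs hi]
  exact valid_adjMatrix _

theorem setGame_hard : PSPACEHard (lang SetGame) := by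
  intro L hL
  obtain ⟨f, hf, hwf, hf'⟩ := qbf_hard hL
  have hM : NPC.Poly (fun x => matQ (f x)) := poly_matQ.comp hf
  have h1 : NPC.Poly (fun x => ((matQ (f x)).length, cardsN (matQ (f x)))) :=
    NPC.Poly.pair (NPC.Poly.length hM) (poly_cardsN.comp hM)
  refine ⟨fun x => bits ((matQ (f x)).length, cardsN (matQ (f x))), polyTime_bits h1, fun x => ?_⟩
  rw [bits_mem_lang, setGame_of (valid_matQ _) (matQ_length _), matQ_iff (hwf x), hf' x]

end Pool.Agent.H656R2.AK
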