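import Pool.Agent.H656R2.AK.SetHard

/-!
# The two-player game of SET is in PSPACE
-/

namespace Pool.Agent.H656R2.AK

open Pool.Agent.NPC Pool.Agent.H623R2.PS

set_option linter.unusedSectionVars false

/-- the sum of three digits is divisible by three -/
def q3 (q : (ℕ × ℕ) × ℕ) : Bool := decide ((q.1.1 + q.1.2 + q.2) % 3 = 0)

/-- the test for a Set, on codes -/
def setN (a b c : List ℕ) : Bool :=
  (!decide (a = b)) && ((!decide (b = c)) && ((!decide (a = c)) &&
    ((a.zip b).zip c).all q3))

theorem sum3 (a b c : Fin 3) : a + b + c = 0 ↔ (a.val + b.val + c.val) % 3 = 0 := by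
  revert a b c
  decide

theorem setN_iff {n : ℕ} (a b c : Fin n → Fin 3) :
    setN (cardCode a) (cardCode b) (cardCode c) = true ↔ IsSet a b c := by
  unfold setN IsSet q3
  simp only [Bool.and_eq_true, Bool.not_eq_true', decide_eq_false_iff_not, List.all_eq_true,
    decide_eq_true_eq]
  have h : ∀ a b : Fin n → Fin 3, cardCode a = cardCode b ↔ a = b :=
    fun a b => ⟨cardCode_inj, fun e => by rw [e]⟩
  rw [h, h, h]
  refine and_congr_right fun _ => and_congr_right fun _ => and_congr_right fun _ => ?_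
  have hlen : (((cardCode a).zip (cardCode b)).zip (cardCode c)).length = n := by
    simp [cardCode]
  constructor
  · intro h1 i
    rw [three_iff, sum3]
    have hi : i.val < (((cardCode a).zip (cardCode b)).zip (cardCode c)).length := by
      rw [hlen]; exact i.isLt
    have h2 := h1 _ (List.getElem_mem hi)
    simpa [cardCode] using h2
  · intro h1 q hq
    obtain ⟨i, hi, rfl⟩ := List.getElem_of_mem hq
    have hi' : i < n := by rw [hlen] at hi; exact hi
    have h2 := h1 ⟨i, hi'⟩
    rw [three_iff, sum3] at h2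
    simpa [cardCode] using h2

/-- the test whether the input is a list of distinct cards -/
def validS (p : ℕ × List (List ℕ)) : Bool :=
  decide (1 ≤ p.1) && ((p.2.all fun l => decide (l.length = p.1) && l.all fun d => decide (d < 3)) &&
    ((List.range p.2.length).all fun i => (List.range p.2.length).all fun j =>
      decide (i = j) || !decide (p.2.getD i [] = p.2.getD j [])))

theorem exists_code {n : ℕ} {l : List ℕ} (h1 : l.length = n) (h2 : ∀ d ∈ l, d < 3) :
    ∃ c : Fin n → Fin 3, cardCode c = l := by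
  subst h1
  refine ⟨fun i => ⟨l[i], h2 _ (List.getElem_mem i.isLt)⟩, ?_⟩
  unfold cardCode
  apply List.ext_getElem
  · simp
  · intro i h1 h3
    simp

theorem validS_iff {n : ℕ} {L : List (List ℕ)} : validS (n, L) = true ↔
    ∃ C : List (Fin n → Fin 3), 1 ≤ n ∧ C.Nodup ∧ L = C.map cardCode := by
  unfold validS
  simp only [Bool.and_eq_true, decide_eq_true_eq, List.all_eq_true, List.mem_range,
    Bool.or_eq_true, Bool.not_eq_true', decide_eq_false_iff_not]
  constructor
  · rintro ⟨hn, h1, h2⟩
    have key : ∀ L : List (List ℕ), (∀ l ∈ L, l.length = n ∧ ∀ d ∈ l, d < 3) →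
        ∃ C : List (Fin n → Fin 3), L = C.map cardCode := by
      intro L
      induction L with
      | nil => intro _; exact ⟨[], rfl⟩
      | cons l L ih =>
        intro h
        obtain ⟨C, hC⟩ := ih fun l hl => h l (List.mem_cons_of_mem _ hl)
        obtain ⟨g1, g2⟩ := h l List.mem_cons_self
        obtain ⟨c, hc⟩ := exists_code g1 g2
        exact ⟨c :: C, by rw [List.map_cons, hC, hc]⟩
    obtain ⟨C, hC⟩ := key L h1
    refine ⟨C, hn, ?_, hC⟩
    apply List.Nodup.of_map cardCode
    rw [← hC, List.nodup_iff_injective_get]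
    intro i j hij
    rcases h2 i.val i.isLt j.val j.isLt with h3 | h3
    · exact Fin.ext h3
    · exfalso
      apply h3
      simpa [List.getD_eq_getElem?_getD] using hij
  · rintro ⟨C, hn, hC, rfl⟩
    refine ⟨hn, ?_, ?_⟩
    · intro l hl
      rw [List.mem_map] at hl
      obtain ⟨c, _, rfl⟩ := hl
      refine ⟨by simp [cardCode], ?_⟩
      intro d hd
      unfold cardCode at hd
      rw [List.mem_ofFn] at hd
      obtain ⟨i, rfl⟩ := hd
      exact (c i).isLt
    · intro i hi j hj
      by_cases hij : i = j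
      · exact Or.inl hij
      · right
        intro h
        have hnd : (C.map cardCode).Nodup := hC.map fun a b h => cardCode_inj h
        rw [List.nodup_iff_injective_get] at hnd
        have := @hnd ⟨i, hi⟩ ⟨j, hj⟩ (by
          simpa [List.getD_eq_getElem?_getD, List.getElem?_eq_getElem hi,
            List.getElem?_eq_getElem hj] using h)
        exact hij (congrArg Fin.val this)

/-- the moves on lists of cards -/
def setMoves (b : ℕ × List (List ℕ)) : List (ℕ × List (List ℕ)) :=
  (((b.2 ×ˢ b.2) ×ˢ b.2).filter fun p => setN p.1.1 p.1.2 p.2).map fun p =>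
    (b.1, b.2.filter fun x => !decide (x = p.1.1) && (!decide (x = p.1.2) && !decide (x = p.2)))

theorem mem_setMoves {b b' : ℕ × List (List ℕ)} : b' ∈ setMoves b ↔ ∃ u ∈ b.2, ∃ v ∈ b.2,
    ∃ w ∈ b.2, setN u v w = true ∧ b' = (b.1, b.2.filter fun x =>
      !decide (x = u) && (!decide (x = v) && !decide (x = w))) := by
  unfold setMoves
  rw [List.mem_map]
  constructor
  · rintro ⟨⟨⟨u, v⟩, w⟩, h, rfl⟩
    rw [List.mem_filter, mem_prod, mem_prod] at h
    exact ⟨u, h.1.1.1, v, h.1.1.2, w, h.1.2, h.2, rfl⟩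
  · rintro ⟨u, hu, v, hv, w, hw, h, rfl⟩
    exact ⟨((u, v), w), List.mem_filter.2 ⟨mem_prod.2 ⟨mem_prod.2 ⟨hu, hv⟩, hw⟩, h⟩, rfl⟩

theorem poly_setN {α : Type} [TEnc α] {a b c : α → List ℕ} (h1 : NPC.Poly a) (h2 : NPC.Poly b)
    (h3 : NPC.Poly c) : NPC.Poly (fun x => setN (a x) (b x) (c x)) := by
  have hq : NPC.Poly q3 := by
    unfold q3
    fun_prop
  have hz : NPC.Poly (fun x => ((a x).zip (b x)).zip (c x)) := by fun_prop
  have h4 : NPC.Poly (fun x => (((a x).zip (b x)).zip (c x)).all q3) :=
    NPC.Poly.all (l := fun x => ((a x).zip (b x)).zip (c x)) (p := fun _ q => q3 q) hz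
      (hq.comp (NPC.Poly.snd NPC.Poly.id))
  exact NPC.Poly.and (by fun_prop) (NPC.Poly.and (by fun_prop) (NPC.Poly.and (by fun_prop) h4))

theorem poly_setMoves : NPC.Poly setMoves := by
  have h1 : NPC.Poly (fun b : ℕ × List (List ℕ) => ((b.2 ×ˢ b.2) ×ˢ b.2).filter
      fun p => setN p.1.1 p.1.2 p.2) :=
    NPC.Poly.filter (l := fun b : ℕ × List (List ℕ) => (b.2 ×ˢ b.2) ×ˢ b.2)
      (p := fun _ p => setN p.1.1 p.1.2 p.2) (by fun_prop)
      (poly_setN (by fun_prop) (by fun_prop) (by fun_prop))
  refine NPC.Poly.map (F := fun (b : ℕ × List (List ℕ)) (p : (List ℕ × List ℕ) × List ℕ) =>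
    (b.1, b.2.filter fun x => !decide (x = p.1.1) && (!decide (x = p.1.2) && !decide (x = p.2))))
    h1 ?_
  refine NPC.Poly.pair (by fun_prop) ?_
  exact NPC.Poly.filter
    (l := fun q : (ℕ × List (List ℕ)) × ((List ℕ × List ℕ) × List ℕ) => q.1.2)
    (p := fun q x => !decide (x = q.2.1.1) && (!decide (x = q.2.1.2) && !decide (x = q.2.2)))
    (by fun_prop) (by fun_prop)

theorem poly_validS : NPC.Poly validS := by
  have h : UPoly (fun p : ℕ × List (List ℕ) => p.2.length) := UPoly.length (by fun_prop)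
  have h1 := h.range
  have h0 : NPC.Poly (fun q : (ℕ × List (List ℕ)) × List ℕ => q.2.all fun d => decide (d < 3)) :=
    NPC.Poly.all (l := fun q : (ℕ × List (List ℕ)) × List ℕ => q.2)
      (p := fun _ d => decide (d < 3)) (by fun_prop) (by fun_prop)
  have h2 : NPC.Poly (fun p : ℕ × List (List ℕ) => p.2.all fun l =>
      decide (l.length = p.1) && l.all fun d => decide (d < 3)) :=
    NPC.Poly.all (l := fun p : ℕ × List (List ℕ) => p.2)
      (p := fun p l => decide (l.length = p.1) && l.all fun d => decide (d < 3)) (by fun_prop)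
      (NPC.Poly.and (by fun_prop) h0)
  have h3 : NPC.Poly (fun q : (ℕ × List (List ℕ)) × ℕ => (List.range q.1.2.length).all fun j =>
      decide (q.2 = j) || !decide (q.1.2.getD q.2 [] = q.1.2.getD j [])) :=
    NPC.Poly.all (l := fun q : (ℕ × List (List ℕ)) × ℕ => List.range q.1.2.length)
      (p := fun q j => decide (q.2 = j) || !decide (q.1.2.getD q.2 [] = q.1.2.getD j []))
      (h1.comp (NPC.Poly.fst NPC.Poly.id)) (by fun_prop)
  have h4 : NPC.Poly (fun p : ℕ × List (List ℕ) => (List.range p.2.length).all fun i =>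
      (List.range p.2.length).all fun j =>
      decide (i = j) || !decide (p.2.getD i [] = p.2.getD j [])) :=
    NPC.Poly.all (l := fun p : ℕ × List (List ℕ) => List.range p.2.length)
      (p := fun p i => (List.range p.2.length).all fun j =>
        decide (i = j) || !decide (p.2.getD i [] = p.2.getD j [])) h1 h3
  exact NPC.Poly.and (by fun_prop) (h2.and h4)

/-- the relation between lists of codes and sets of cards -/
def RlS (n : ℕ) (b : ℕ × List (List ℕ)) (C : Set (Fin n → Fin 3)) : Prop :=
  (∀ c : Fin n → Fin 3, cardCode c ∈ b.2 ↔ c ∈ C) ∧ ∀ l ∈ b.2, ∃ c : Fin n → Fin 3, cardCode c = l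

theorem W_setList_iff {n : ℕ} (C : List (Fin n → Fin 3)) :
    W (mvL setMoves) (n, C.map cardCode) ↔ SetWins {c | c ∈ C} := by
  rw [setWins_iff]
  have hcode : ∀ a b : Fin n → Fin 3, cardCode a = cardCode b ↔ a = b :=
    fun a b => ⟨cardCode_inj, fun e => by rw [e]⟩
  refine W_bisim_iff (RlS n) ?_ ?_ ⟨fun c => ?_, ?_⟩
  · rintro ⟨m, L⟩ T b' ⟨h2, h3⟩ hm
    simp only at h2 h3
    rw [mvL, mem_setMoves] at hm
    obtain ⟨_, hu, _, hv, _, hw, he, rfl⟩ := hm
    simp only at hu hv hw he
    obtain ⟨u, rfl⟩ := h3 _ hu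
    obtain ⟨v, rfl⟩ := h3 _ hv
    obtain ⟨w, rfl⟩ := h3 _ hw
    rw [setN_iff] at he
    refine ⟨_, ⟨u, v, w, (h2 _).1 hu, (h2 _).1 hv, (h2 _).1 hw, he, rfl⟩, ?_, ?_⟩
    · intro c
      simp only [List.mem_filter, h2 c, Set.mem_sdiff, Set.mem_insert_iff, Set.mem_singleton_iff,
        Bool.and_eq_true, Bool.not_eq_true', decide_eq_false_iff_not, hcode]
      tauto
    · intro l hl
      exact h3 l (List.mem_filter.1 hl).1
  · rintro ⟨m, L⟩ T T' ⟨h2, h3⟩ hm
    simp only at h2 h3
    obtain ⟨u, v, w, hu, hv, hw, he, rfl⟩ := hm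
    refine ⟨(m, L.filter fun x => !decide (x = cardCode u) && (!decide (x = cardCode v) &&
      !decide (x = cardCode w))), ?_, ?_, ?_⟩
    · rw [mvL, mem_setMoves]
      exact ⟨_, (h2 u).2 hu, _, (h2 v).2 hv, _, (h2 w).2 hw, (setN_iff u v w).2 he, rfl⟩
    · intro c
      simp only [List.mem_filter, h2 c, Set.mem_sdiff, Set.mem_insert_iff, Set.mem_singleton_iff,
        Bool.and_eq_true, Bool.not_eq_true', decide_eq_false_iff_not, hcode]
      tauto
    · intro l hl
      exact h3 l (List.mem_filter.1 hl).1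
  · simp only [List.mem_map, Set.mem_ofPred_eq]
    constructor
    · rintro ⟨d, hd, h⟩
      rwa [← cardCode_inj h]
    · exact fun h => ⟨c, h, rfl⟩
  · intro l hl
    simp only [List.mem_map] at hl
    obtain ⟨c, _, h⟩ := hl
    exact ⟨c, h⟩

theorem setGame_valid (p : ℕ × List (List ℕ)) :
    SetGame p ↔ validS p = true ∧ W (mvL setMoves) p := by
  obtain ⟨m, L⟩ := p
  rw [validS_iff]
  constructor
  · rintro ⟨n, C, hn, hC, hp, h⟩
    rw [Prod.mk.injEq] at hp
    obtain ⟨rfl, rfl⟩ := hp
    exact ⟨⟨C, hn, hC, rfl⟩, (W_setList_iff C).2 h⟩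
  · rintro ⟨⟨C, hn, hC, rfl⟩, h⟩
    exact ⟨m, C, hn, hC, rfl, (W_setList_iff C).1 h⟩

theorem setGame_mem : InPSPACE (lang SetGame) := by
  have hdec : NPC.Poly (fun x : List Bool => (unbits (ℕ × List (List ℕ)) x).getD (0, [])) :=
    NPC.Poly.optGetD poly_unbits (NPC.Poly.const (0, []))
  have hlen : UPoly (fun x : List Bool =>
      ((unbits (ℕ × List (List ℕ)) x).getD (0, [])).2.length) :=
    UPoly.length (NPC.Poly.snd hdec)
  refine inPSPACE_of_game hdec (good := validS) poly_validS poly_setMoves ?_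
    (w := fun x => ((unbits (ℕ × List (List ℕ)) x).getD (0, [])).2.length *
      ((unbits (ℕ × List (List ℕ)) x).getD (0, [])).2.length *
      ((unbits (ℕ × List (List ℕ)) x).getD (0, [])).2.length +
      (((unbits (ℕ × List (List ℕ)) x).getD (0, [])).2.length + 1)) ?_
    (fun x b => b.2.length ≤ ((unbits (ℕ × List (List ℕ)) x).getD (0, [])).2.length)
    (fun b => b.2.length) ?_ ?_ ?_ ?_
  · intro b b' hb'
    rw [mem_setMoves] at hb'
    obtain ⟨u, hu, v, hv, w, hw, he, rfl⟩ := hb'
    obtain ⟨M, S⟩ := b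
    simp only [sz_pair]
    have := sz_filter_le' (fun x => !decide (x = u) && (!decide (x = v) && !decide (x = w))) S
    omega
  · exact ((hlen.mul hlen).mul hlen).add (hlen.add (UPoly.const 1))
  · intro x
    exact le_rfl
  · rintro x b hb b' hb'
    rw [mem_setMoves] at hb'
    obtain ⟨u, hu, v, hv, w, hw, he, rfl⟩ := hb'
    simp only
    have h1 : (b.2.filter fun x => !decide (x = u) && (!decide (x = v) &&
        !decide (x = w))).length < b.2.length := by
      rw [List.length_filter_lt_length_iff_exists]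
      exact ⟨u, hu, by simp⟩
    exact ⟨by omega, h1⟩
  · intro x b hb
    have h1 : (setMoves b).length ≤ b.2.length * b.2.length * b.2.length := by
      unfold setMoves
      rw [List.length_map]
      refine (List.length_filter_le _ _).trans ?_
      rw [List.length_product, List.length_product]
    have h2 := Nat.mul_le_mul (Nat.mul_le_mul hb hb) hb
    exact ⟨by omega, by omega⟩
  · intro x
    rw [mem_lang_iff]
    constructor
    · rintro ⟨M, hM, h⟩
      rw [hM, Option.getD_some]
      exact (setGame_valid M).1 h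
    · intro h
      cases hx : unbits (ℕ × List (List ℕ)) x with
      | none =>
        rw [hx, Option.getD_none] at h
        exact absurd h.1 (by decide)
      | some M =>
        rw [hx, Option.getD_some] at h
        exact ⟨M, rfl, (setGame_valid M).2 h⟩

end Pool.Agent.H656R2.AK
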