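import Pool.Agent.H656R2.AK.Crit

/-!
# Hub games: analysis of all moves from the critical positions
-/

namespace Pool.Agent.H656R2.AK

set_option linter.unusedSectionVars false

open Finset

variable {ι : Type} [DecidableEq ι] [Fintype ι]

theorem G1 : ∀ m ∈ moves .X 29, gr .X m + gr .X 29 = (0, 1) := by decide +kernel

theorem G3 : ∀ m ∈ moves .X 31, good m = true ∨ (ok .X m = true ∧ gr .X m + gr .X 31 = (0, 1) ∧
    (m.testBit 1 = true → gr .X (m ^^^ 2 ^ 1) + gr .X m = (0, 1))) := by decide +kernel

theorem two5 (c : Fin 7) : ∃ j : Fin 7, (j ≠ 0 ∧ ¬ j ≤ 4) ∧ j ≠ c := by revert c; decide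

theorem dl_add_ne {a b : V4} (h : a ≠ 0) : b + a ≠ b := by
  revert a b
  decide

theorem CL.loc_own {N : Net ι} {fl : Bool} {i : ι} {p : Pos ι} (h : CL N fl i p) {a : Fin 7} {m : ℕ}
    (hmm : m ∈ moves (N.kind (.inl (i, a))) (p.s (.inl (i, a)))) :
    ∃ p', Mv N (p.upd p.H (.inl (i, a)) m) p' ∧ ZP N p' := by
  have hF := F1 _ _ (ok_lt (h.ok _)) (h.ok _) m hmm
  refine replyI (h.ok.upd hF.1) h.hi ?_ ?_ ?_ ?_ ?_
  · rw [Phi_upd, h.phi]
    exact dl_add_ne (add_ne4 hF.2)
  · intro h0
    by_cases ha : a = 0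
    · subst ha
      exfalso
      rw [Phi_upd, h.phi, h.xi, kind_X] at h0
      rw [kind_X, h.xi] at hmm
      rw [G1 m hmm] at h0
      revert h0
      generalize N.typ i = b
      revert b
      decide
    · rw [Pos.upd_ne (by simp [Ne.symm ha]), h.xi]
  · intro _
    obtain ⟨j, k, hjk, hj, hk, hja, hka⟩ := three a
    refine ⟨j, hj, ?_⟩
    rw [Pos.upd_ne (by simp [hja]), h.sup j hj.1, full_K N hj]
  · intro _
    obtain ⟨j, hj, hja⟩ := two5 a
    refine ⟨j, hj, ?_⟩
    rw [Pos.upd_ne (by simp [hja]), h.sup j hj.1]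
  · intro g hg hgi
    exact h.others hg hgi (fun hc => absurd (by simpa using hc) (fun hc : i = g ∧ a = 0 => hgi hc.1.symm))

theorem CL.step_loc {N : Net ι} {fl : Bool} {i : ι} {p : Pos ι} (h : CL N fl i p) {c : Cmp ι} {m : ℕ}
    (hmm : m ∈ moves (N.kind c) (p.s c)) :
    (∃ p'', Mv N (p.upd p.H c m) p'' ∧ ZP N p'') ∨
      (∃ p'', Mv N (p.upd p.H c m) p'' ∧ CL N true i p'') := by
  have hF := F1 _ _ (ok_lt (h.ok _)) (h.ok _) m hmm
  rcases c with ⟨g, a⟩ | t
  · by_cases hgi : g = i
    · subst hgi
      exact Or.inl (h.loc_own hmm)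
    · by_cases hc : g ∈ p.H ∧ a = 0
      · obtain ⟨hgH, rfl⟩ := hc
        have h31 := h.oth g hgH hgi 0
        rw [full_X] at h31
        have hmm' := hmm
        rw [kind_X, h31] at hmm'
        rcases G3 m hmm' with h1 | ⟨h1, h2, h3⟩
        · refine Or.inl (h.devi (Finset.Subset.refl _) h.hi (fun a => by simp [hgi]) hF.1 hF.2 ?_)
          intro g' _ _ _
          exact h1
        · refine Or.inr (h.cheat (Finset.Subset.refl _) h.hi hgH hgi h1 ?_ h3)
          rw [h31]
          exact h2
      · refine Or.inl (h.devi (Finset.Subset.refl _) h.hi (fun a => by simp [hgi]) hF.1 hF.2 ?_)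
        intro g' hg' _ hcc
        simp only [Sum.inl.injEq, Prod.mk.injEq] at hcc
        exact absurd ⟨hcc.1 ▸ hg', hcc.2⟩ hc
  · refine Or.inl (h.devi (Finset.Subset.refl _) h.hi (fun a => by simp) hF.1 hF.2 ?_)
    intro g' hg' _ hcc
    simp at hcc

theorem CL.hub_own {N : Net ι} {fl : Bool} {i : ι} {p : Pos ι} (h : CL N fl i p) {a : Fin 7}
    (hv : (p.s (.inl (i, a))).testBit 0 = true) :
    ∃ p', Mv N (p.upd (p.H.erase i) (.inl (i, a)) (p.s (.inl (i, a)) ^^^ 2 ^ 0)) p' ∧ ZP N p' := by
  have hp : N.port i (.inl (i, a)) 0 := Or.inl ⟨rfl, rfl⟩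
  refine h.gri (F4 _ _ (ok_lt (h.ok _)) (h.ok _) 0 (port_mem hp) hv).1 ?_ ?_
  · by_cases ha : a = 0
    · subst ha
      rw [h.xi, kind_X]
      cases N.typ i <;> decide +kernel
    · rw [h.sup a ha]
      simp only [Net.kind, ha, if_false]
      split_ifs with h1 h2
      · cases N.typ i <;> decide +kernel
      · rw [h2]; decide +kernel
      · rw [Bool.not_eq_true] at h2
        rw [h2]; decide +kernel
  · intro g hg hgi hc
    exact absurd (by simpa using hc) (fun hc : i = g ∧ a = 0 => hgi hc.1.symm)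

theorem CL.hub_flag {N : Net ι} {fl : Bool} {i : ι} {p : Pos ι} (h : CL N fl i p) {t : Bool} {v : ℕ}
    (hp : N.port i (.inr t) v) (hv : (p.s (.inr t)).testBit v = true) :
    ∃ p', Mv N (p.upd (p.H.erase i) (.inr t) (p.s (.inr t) ^^^ 2 ^ v)) p' ∧ ZP N p' := by
  refine h.gri (F4 _ _ (ok_lt (h.ok _)) (h.ok _) v (port_mem hp) hv).1 ?_ ?_
  · rcases hp with rfl | ⟨rfl, rfl⟩
    · by_cases ht : t = N.typ i
      · subst ht
        rw [h.fs]
        simp only [Net.kind]
        cases N.typ i <;> decide +kernel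
      · have ht' : t = !N.typ i := by
          cases t <;> cases hN : N.typ i <;> simp_all
        subst ht'
        cases fl with
        | true =>
          exfalso
          rw [h.fo] at hv
          revert hv
          simp only [Net.kind]
          cases N.typ i <;> decide +kernel
        | false =>
          rw [h.fo]
          simp only [Net.kind]
          cases N.typ i <;> decide +kernel
    · rw [h.fs]
      simp only [Net.kind]
      cases N.typ i <;> decide +kernel
  · intro g hg hgi hc
    simp at hc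

theorem CL.next {N : Net ι} {i : ι} {p : Pos ι} (h : CL N false i p) {J : ι} (hJ : J ∈ p.H)
    (hJi : J ≠ i) (hE : N.E i J) :
    CL N false J (p.upd (p.H.erase i) (.inl (J, 0)) (p.s (.inl (J, 0)) ^^^ 2 ^ 1)) := by
  have h31 := h.oth J hJ hJi 0
  rw [full_X] at h31
  have ht : N.typ J = !N.typ i := by
    have := N.bip i J hE
    cases h1 : N.typ J <;> cases h2 : N.typ i <;> simp_all
  rw [h31]
  constructor
  · refine h.ok.upd ?_
    rw [kind_X]; decide +kernel
  · rw [Phi_upd, h.phi, h31, kind_X, ht]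
    cases N.typ i <;> decide +kernel
  · exact Finset.mem_erase.2 ⟨hJi, hJ⟩
  · rw [Pos.upd_self]; decide
  · intro c hc
    rw [Pos.upd_ne (by simp [hc]), h.oth J hJ hJi]
  · intro g hg hgJ c
    have hne := Finset.ne_of_mem_erase hg
    have hg' := Finset.mem_of_mem_erase hg
    rw [Pos.upd_ne (by simp [hgJ]), h.oth g hg' hne]
  · intro g hg hb
    exfalso
    by_cases hgJ : g = J
    · subst hgJ
      exact hg (Finset.mem_erase.2 ⟨hJi, hJ⟩)
    · rw [Pos.upd_ne (by simp [hgJ])] at hb
      by_cases hgi : g = i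
      · subst hgi
        rw [h.xi] at hb
        revert hb
        decide
      · have hgp : g ∉ p.H := fun hg' => hg (Finset.mem_erase.2 ⟨hgi, hg'⟩)
        exact absurd (h.abs g hgp hb).1 (by simp)
  · rw [Pos.upd_ne (by simp), ht, h.fo]
    simp
  · rw [Pos.upd_ne (by simp), ht, Bool.not_not, h.fs]
    simp

theorem CL.flag_next {N : Net ι} {i : ι} {p : Pos ι} (h : CL N true i p) {J : ι} (hJ : J ∈ p.H)
    (hJi : J ≠ i) (hE : N.E i J) :
    ∃ p', Mv N (p.upd (p.H.erase i) (.inl (J, 0)) (p.s (.inl (J, 0)) ^^^ 2 ^ 1)) p' ∧ ZP N p' := by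
  have h31 := h.oth J hJ hJi 0
  rw [full_X] at h31
  have ht : N.typ J = !N.typ i := by
    have := N.bip i J hE
    cases h1 : N.typ J <;> cases h2 : N.typ i <;> simp_all
  rw [h31]
  set p1 := p.upd (p.H.erase i) (.inl (J, 0)) (31 ^^^ 2 ^ 1) with hp1
  have hok1 : okp N p1 := h.ok.upd (by rw [kind_X]; decide +kernel)
  have hphi1 : N.Phi p1 = dl (N.typ i) + (0, 1) := by
    rw [hp1, Phi_upd, h.phi, kind_X, h31]
    cases N.typ i <;> decide +kernel
  have e3 : p1.s (.inr (!N.typ i)) = full (N.kind (.inr (!N.typ i))) ^^^ 2 ^ vv (!N.typ i) := by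
    rw [hp1, Pos.upd_ne (by simp), h.fo]
    simp
  have hv : (p1.s (.inr (!N.typ i))).testBit 0 = true := by
    rw [e3]
    simp only [Net.kind]
    cases N.typ i <;> decide +kernel
  have hp : N.port J (.inr (!N.typ i)) 0 := Or.inr ⟨rfl, ht⟩
  refine ⟨_, Mv.hub p1 J (.inr (!N.typ i)) 0 (Finset.mem_erase.2 ⟨hJi, hJ⟩) hp hv, ?_, ?_, ?_, ?_⟩
  · exact hok1.upd (F4 _ _ (ok_lt (hok1 _)) (hok1 _) _ (port_mem hp) hv).1
  · rw [Phi_upd, hphi1, e3]
    simp only [Net.kind]
    cases N.typ i <;> decide +kernel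
  · intro g hg
    have hne := Finset.ne_of_mem_erase hg
    have hg1 : g ∈ p.H.erase i := Finset.mem_of_mem_erase hg
    have hgi := Finset.ne_of_mem_erase hg1
    have hg2 := Finset.mem_of_mem_erase hg1
    rw [Pos.upd_ne (by simp)]
    exact (h.others hg2 hgi (fun hc => absurd (by simpa using hc) (fun hc : J = g => hne hc.symm))).1
  · intro g hg
    have hne := Finset.ne_of_mem_erase hg
    have hg1 : g ∈ p.H.erase i := Finset.mem_of_mem_erase hg
    have hgi := Finset.ne_of_mem_erase hg1
    have hg2 := Finset.mem_of_mem_erase hg1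
    refine Two.upd ?_ (by simp)
    exact (h.others hg2 hgi (fun hc => absurd (by simpa using hc) (fun hc : J = g => hne hc.symm))).2

/-- All moves from a critical position. -/
theorem CL.step {N : Net ι} {fl : Bool} {i : ι} {p p' : Pos ι} (h : CL N fl i p) (hm : Mv N p p') :
    (∃ p'', Mv N p' p'' ∧ ZP N p'') ∨ (∃ p'', Mv N p' p'' ∧ CL N true i p'') ∨
      (fl = false ∧ ∃ J ∈ p.H, J ≠ i ∧ N.E i J ∧ CL N false J p' ∧ p'.H = p.H.erase i) := by
  cases hm with
  | loc c m hmm =>
    rcases h.step_loc hmm with h1 | h1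
    · exact Or.inl h1
    · exact Or.inr (Or.inl h1)
  | hub g c v hg hp hv =>
    have hF := F4 _ _ (ok_lt (h.ok c)) (h.ok c) v (port_mem hp) hv
    by_cases hgi : g = i
    · subst hgi
      rcases c with ⟨J, a⟩ | t
      · rcases hp with ⟨rfl, rfl⟩ | ⟨rfl, rfl, hE⟩
        · exact Or.inl (h.hub_own hv)
        · have hJi : J ≠ g := fun e => N.bip g J hE (by rw [e])
          by_cases hJ : J ∈ p.H
          · cases fl with
            | true => exact Or.inl (h.flag_next hJ hJi hE)
            | false => exact Or.inr (Or.inr ⟨rfl, J, hJ, hJi, hE, h.next hJ hJi hE, rfl⟩)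
          · left
            refine h.gri hF.1 ?_ ?_
            · rw [kind_X, (h.abs J hJ hv).2]
              cases N.typ g <;> decide +kernel
            · intro g' hg' _ hc
              simp only [Sum.inl.injEq, Prod.mk.injEq, and_true] at hc
              exact absurd (hc ▸ hg') hJ
      · exact Or.inl (h.hub_flag hp hv)
    · have hsub : p.H.erase g ⊆ p.H := Finset.erase_subset _ _
      have hi' : i ∈ p.H.erase g := Finset.mem_erase.2 ⟨Ne.symm hgi, h.hi⟩
      rcases c with ⟨J, a⟩ | t
      · rcases hp with ⟨rfl, rfl⟩ | ⟨rfl, rfl, hE⟩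
        · left
          refine h.devi hsub hi' (fun b => by simp [hgi]) hF.1 ?_ ?_
          · by_cases ha : a = 0
            · subst ha
              have h31 := h.oth g hg hgi 0
              rw [full_X] at h31
              rw [h31, kind_X]
              decide +kernel
            · refine hF.2 ?_
              rintro ⟨h1, _⟩
              simp only [Net.kind, ha, if_false] at h1
              split_ifs at h1
          · intro g' hg' _ hc
            simp only [Sum.inl.injEq, Prod.mk.injEq] at hc
            exact absurd hc.1.symm (Finset.ne_of_mem_erase hg')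
        · have hJg : J ≠ g := fun e => N.bip g J hE (by rw [e])
          have hJi : J ≠ i := by
            rintro rfl
            rw [h.xi] at hv
            revert hv
            decide
          by_cases hJ : J ∈ p.H
          · right; left
            have h31 := h.oth J hJ hJi 0
            rw [full_X] at h31
            rw [h31]
            refine h.cheat hsub hi' (Finset.mem_erase.2 ⟨hJg, hJ⟩) hJi (by decide +kernel) ?_ ?_
            · rw [h31]; decide +kernel
            · decide +kernel
          · left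
            refine h.devi hsub hi' (fun b => by simp [hJi]) hF.1 (hF.2 (by simp)) ?_
            intro g' hg' _ hc
            simp only [Sum.inl.injEq, Prod.mk.injEq, and_true] at hc
            exact absurd (hc ▸ (Finset.mem_of_mem_erase hg')) hJ
      · left
        refine h.devi hsub hi' (fun b => by simp) hF.1 (hF.2 ?_) ?_
        · rintro ⟨h1, _⟩
          simp only [Net.kind] at h1
          split_ifs at h1
        · intro g' hg' _ hc
          simp at hc

end Pool.Agent.H656R2.AK
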