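import Pool.Agent.H623R2.PS.Savitch
import Pool.Agent.H623R2.PS.TM
import Pool.Agent.H656R2.AK.QG

/-!
# Quantified formulas for rule systems
-/

namespace Pool.Agent.H656R2.AK

open Pool.Agent.NPC Pool.Agent.H623R2.PS

set_option linter.unusedSectionVars false

/-! ### Evaluation -/

theorem evc_append (u : List Bool) (C C' : List (List (Bool × ℕ))) :
    evc u (C ++ C') = (evc u C && evc u C') := by
  unfold evc
  rw [List.all_append]

theorem evc_congr {u u' : List Bool} {C : List (List (Bool × ℕ))}
    (h : ∀ c ∈ C, ∀ l ∈ c, u.getD l.2 false = u'.getD l.2 false) : evc u C = evc u' C := by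
  rw [Bool.eq_iff_iff]
  unfold evc
  simp only [List.all_eq_true, List.any_eq_true]
  constructor
  · intro h1 c hc
    obtain ⟨l, hl, h2⟩ := h1 c hc
    exact ⟨l, hl, by rw [← h c hc l hl]; exact h2⟩
  · intro h1 c hc
    obtain ⟨l, hl, h2⟩ := h1 c hc
    exact ⟨l, hl, by rw [h c hc l hl]; exact h2⟩

theorem getD_append_left {u v : List Bool} {i : ℕ} (h : i < u.length) :
    (u ++ v).getD i false = u.getD i false := by
  simp only [List.getD_eq_getElem?_getD]
  rw [List.getElem?_append_left h]

theorem getD_append_right {u v : List Bool} {i j : ℕ} (h : i = u.length + j) :
    (u ++ v).getD i false = v.getD j false := by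
  subst h
  simp only [List.getD_eq_getElem?_getD]
  rw [List.getElem?_append_right (by omega)]
  congr 2
  omega

/-! ### Implication systems -/

/-- One step: some implication list is satisfied. -/
def R1 (imps : List (List (ℕ × ℕ))) (x y : ℕ → Bool) : Prop :=
  ∃ i < imps.length, ∀ e ∈ imps.getD i [], x e.1 = true → y e.2 = true

/-- Paths of length `2 ^ k`. -/
def Pa (imps : List (List (ℕ × ℕ))) : ℕ → (ℕ → Bool) → (ℕ → Bool) → Prop
  | 0, x, y => R1 imps x y
  | k + 1, x, y => ∃ z, Pa imps k x z ∧ Pa imps k z y

/-- All indices are smaller than `w`. -/
def Bnd (w : ℕ) (imps : List (List (ℕ × ℕ))) : Prop := ∀ L ∈ imps, ∀ e ∈ L, e.1 < w ∧ e.2 < w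

theorem Pa.mono {w : ℕ} {imps : List (List (ℕ × ℕ))} (hb : Bnd w imps) {k : ℕ} :
    ∀ {x x' y y' : ℕ → Bool}, (∀ p < w, x' p = true → x p = true) →
      (∀ p < w, y p = true → y' p = true) → Pa imps k x y → Pa imps k x' y' := by
  induction k with
  | zero =>
    rintro x x' y y' hx hy ⟨i, hi, h⟩
    refine ⟨i, hi, fun e he h1 => ?_⟩
    have hmem : imps.getD i [] ∈ imps := by
      rw [List.getD_eq_getElem _ _ hi]
      exact List.getElem_mem hi
    obtain ⟨h2, h3⟩ := hb _ hmem e he
    exact hy _ h3 (h e he (hx _ h2 h1))
  | succ k ih =>
    rintro x x' y y' hx hy ⟨z, h1, h2⟩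
    exact ⟨z, ih hx (fun _ _ h => h) h1, ih (fun _ _ h => h) hy h2⟩

/-- The last clauses: the previous position is at `o`, the next one at `o + w`, the selectors at
`o + 2w`. -/
def lastC (w o : ℕ) (imps : List (List (ℕ × ℕ))) : List (List (Bool × ℕ)) :=
  ((List.range imps.length).map fun i => (true, o + 2 * w + i)) ::
    (List.range imps.length).flatMap fun i => (imps.getD i []).map fun e =>
      [(false, o + 2 * w + i), (false, o + e.1), (true, o + w + e.2)]

/-- The clauses of a level. -/
def levC (w o : ℕ) : List (List (Bool × ℕ)) :=
  (List.range w).flatMap fun p =>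
    [[(true, o + 3 * w), (false, o + p), (true, o + 3 * w + 1 + p)],
     [(true, o + 3 * w), (false, o + 4 * w + 1 + p), (true, o + 2 * w + p)],
     [(false, o + 3 * w), (false, o + 2 * w + p), (true, o + 3 * w + 1 + p)],
     [(false, o + 3 * w), (false, o + 4 * w + 1 + p), (true, o + w + p)]]

/-- All clauses of `k` levels. -/
def allC (w : ℕ) (imps : List (List (ℕ × ℕ))) : ℕ → ℕ → List (List (Bool × ℕ))
  | 0, o => lastC w o imps
  | k + 1, o => levC w o ++ allC w imps k (o + (3 * w + 1))

/-- The quantifiers. -/
def levQ (w m : ℕ) : ℕ → List Bool
  | 0 => List.replicate m false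
  | k + 1 => List.replicate w false ++ (true :: (List.replicate (2 * w) false ++ levQ w m k))

theorem evc_lastC {w o : ℕ} {imps : List (List (ℕ × ℕ))} {U M : List Bool}
    (hU : U.length = o + 2 * w) (hb : Bnd w imps) (_hM : M.length = imps.length) :
    evc (U ++ M) (lastC w o imps) = true ↔ (∃ i < imps.length, M.getD i false = true) ∧
      ∀ i < imps.length, M.getD i false = true → ∀ e ∈ imps.getD i [],
        U.getD (o + e.1) false = true → U.getD (o + w + e.2) false = true := by
  have hsel : ∀ i, (U ++ M).getD (o + 2 * w + i) false = M.getD i false := fun i =>
    getD_append_right (by omega)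
  unfold evc lastC
  rw [List.all_cons, Bool.and_eq_true]
  refine and_congr ?_ ?_
  · simp only [List.any_map, List.any_eq_true, List.mem_range, Function.comp, hsel]
    simp
  · simp only [List.all_eq_true, List.mem_flatMap, List.mem_range, List.mem_map]
    constructor
    · intro h i hi hMi e he hx
      have h1 := h _ ⟨i, hi, e, he, rfl⟩
      have hmem : imps.getD i [] ∈ imps := by
        rw [List.getD_eq_getElem _ _ hi]
        exact List.getElem_mem hi
      obtain ⟨h2, h3⟩ := hb _ hmem e he
      simp only [List.any_cons, List.any_nil, hsel, Bool.or_false, Bool.or_eq_true, beq_iff_eq] at h1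
      rw [hMi, getD_append_left (by omega), hx, getD_append_left (by omega)] at h1
      simpa using h1
    · rintro h _ ⟨i, hi, e, he, rfl⟩
      have hmem : imps.getD i [] ∈ imps := by
        rw [List.getD_eq_getElem _ _ hi]
        exact List.getElem_mem hi
      obtain ⟨h2, h3⟩ := hb _ hmem e he
      simp only [List.any_cons, List.any_nil, hsel, Bool.or_false, Bool.or_eq_true, beq_iff_eq]
      rw [getD_append_left (by omega), getD_append_left (by omega)]
      by_cases hMi : M.getD i false = true
      · by_cases hx : U.getD (o + e.1) false = true
        · exact Or.inr (Or.inr (h i hi hMi e he hx))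
        · exact Or.inr (Or.inl (by simpa using hx))
      · exact Or.inl (by simpa using hMi)

/-- The meaning of the clauses of a level. -/
theorem evc_levC {w o : ℕ} (U : List Bool) :
    evc U (levC w o) = true ↔ ∀ p < w,
      ((U.getD (o + 3 * w) false = true ∨ (U.getD (o + p) false = true →
        U.getD (o + 3 * w + 1 + p) false = true)) ∧
      (U.getD (o + 3 * w) false = true ∨ (U.getD (o + 4 * w + 1 + p) false = true →
        U.getD (o + 2 * w + p) false = true)) ∧
      (U.getD (o + 3 * w) false = false ∨ (U.getD (o + 2 * w + p) false = true →
        U.getD (o + 3 * w + 1 + p) false = true)) ∧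
      (U.getD (o + 3 * w) false = false ∨ (U.getD (o + 4 * w + 1 + p) false = true →
        U.getD (o + w + p) false = true))) := by
  unfold evc levC
  simp only [List.all_flatMap, List.all_eq_true, List.mem_range]
  refine forall₂_congr fun p _ => ?_
  simp only [List.mem_cons, List.not_mem_nil, or_false, forall_eq_or_imp, forall_eq,
    List.any_cons, List.any_nil, Bool.or_false, Bool.or_eq_true, beq_iff_eq]
  simp only [imp_iff_not_or, Bool.not_eq_true]

theorem levC_lt {w o : ℕ} : ∀ c ∈ levC w o, ∀ l ∈ c, l.2 < o + 5 * w + 1 := by
  intro c hc l hl
  unfold levC at hc
  rw [List.mem_flatMap] at hc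
  obtain ⟨p, hp, hc⟩ := hc
  rw [List.mem_range] at hp
  simp only [List.mem_cons, List.not_mem_nil, or_false] at hc
  rcases hc with rfl | rfl | rfl | rfl <;>
    (simp only [List.mem_cons, List.not_mem_nil, or_false] at hl
     rcases hl with rfl | rfl | rfl <;> simp only <;> omega)

theorem evq_one (q : Bool) (qs : List Bool) (φ : List Bool → Bool) :
    evq (q :: qs) φ = true ↔ if q = true then
      (∀ b, evq qs (fun u => φ (b :: u)) = true) else ∃ b, evq qs (fun u => φ (b :: u)) = true := by
  cases q
  · simp [evq]
  · simp [evq]

theorem lev_iff {w : ℕ} {imps : List (List (ℕ × ℕ))} (hb : Bnd w imps) (k : ℕ) :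
    ∀ (o : ℕ) (U : List Bool), U.length = o + 2 * w →
      (evq (levQ w imps.length k) (fun v => evc (U ++ v) (allC w imps k o)) = true ↔
        Pa imps k (fun p => U.getD (o + p) false) (fun p => U.getD (o + w + p) false)) := by
  induction k with
  | zero =>
    intro o U hU
    have h1 := evq_exists imps.length [] (fun v => evc (U ++ v) (allC w imps 0 o))
    rw [List.append_nil] at h1
    rw [levQ, h1]
    constructor
    · rintro ⟨M, hM, h⟩
      simp only [evq, List.append_nil, allC] at h
      rw [evc_lastC hU hb hM] at h
      obtain ⟨⟨i, hi, hMi⟩, h2⟩ := h
      exact ⟨i, hi, h2 i hi hMi⟩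
    · rintro ⟨i, hi, h⟩
      refine ⟨(List.range imps.length).map fun j => decide (j = i), by simp, ?_⟩
      simp only [evq, List.append_nil, allC]
      rw [evc_lastC hU hb (by simp)]
      have hget : ∀ j < imps.length,
          ((List.range imps.length).map fun j => decide (j = i)).getD j false = decide (j = i) := by
        intro j hj
        simp [List.getD_eq_getElem?_getD, hj]
      refine ⟨⟨i, hi, by rw [hget i hi]; simp⟩, ?_⟩
      intro j hj hMj
      rw [hget j hj, decide_eq_true_eq] at hMj
      subst hMj
      exact h
  | succ k ih =>
    intro o U hU
    rw [levQ, evq_exists]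
    have key : ∀ (M : List Bool) (b : Bool), M.length = w →
        (evq (List.replicate (2 * w) false ++ levQ w imps.length k)
          (fun u => evc (U ++ (M ++ b :: u)) (allC w imps (k + 1) o)) = true ↔
        if b = true then Pa imps k (fun p => M.getD p false) (fun p => U.getD (o + w + p) false)
        else Pa imps k (fun p => U.getD (o + p) false) (fun p => M.getD p false)) := by
      intro M b hM
      rw [evq_exists]
      have hev : ∀ CD : List Bool, CD.length = 2 * w →
          (evq (levQ w imps.length k) (fun u => evc (U ++ (M ++ b :: (CD ++ u)))
            (allC w imps (k + 1) o)) = true ↔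
          evc (U ++ (M ++ b :: CD)) (levC w o) = true ∧
            Pa imps k (fun p => CD.getD p false) (fun p => CD.getD (w + p) false)) := by
        intro CD hCD
        have hlen : (U ++ (M ++ b :: CD)).length = (o + (3 * w + 1)) + 2 * w := by
          simp only [List.length_append, List.length_cons]
          omega
        have h1 : (fun u => evc (U ++ (M ++ b :: (CD ++ u))) (allC w imps (k + 1) o)) =
            (fun u => evc (U ++ (M ++ b :: CD)) (levC w o) &&
              evc ((U ++ (M ++ b :: CD)) ++ u) (allC w imps k (o + (3 * w + 1)))) := by
          funext u
          rw [allC, evc_append]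
          congr 1
          · refine evc_congr fun c hc l hl => ?_
            have h2 := levC_lt c hc l hl
            rw [show U ++ (M ++ b :: (CD ++ u)) = (U ++ (M ++ b :: CD)) ++ u by simp]
            exact getD_append_left (by omega)
          · simp
        rw [h1, evq_and, Bool.and_eq_true, ih _ _ hlen]
        refine and_congr_right fun _ => ?_
        have e1 : (fun p => (U ++ (M ++ b :: CD)).getD (o + (3 * w + 1) + p) false) =
            (fun p => CD.getD p false) := by
          funext p
          rw [show U ++ (M ++ b :: CD) = (U ++ (M ++ [b])) ++ CD by simp]
          exact getD_append_right (by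
            simp only [List.length_append, List.length_cons, List.length_nil]
            omega)
        have e2 : (fun p => (U ++ (M ++ b :: CD)).getD (o + (3 * w + 1) + w + p) false) =
            (fun p => CD.getD (w + p) false) := by
          funext p
          rw [show U ++ (M ++ b :: CD) = (U ++ (M ++ [b])) ++ CD by simp]
          exact getD_append_right (by
            simp only [List.length_append, List.length_cons, List.length_nil]
            omega)
        rw [e1, e2]
      have hmean : ∀ CD : List Bool, CD.length = 2 * w →
          (evc (U ++ (M ++ b :: CD)) (levC w o) = true ↔ ∀ p < w,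
            if b = true then (M.getD p false = true → CD.getD p false = true) ∧
              (CD.getD (w + p) false = true → U.getD (o + w + p) false = true)
            else (U.getD (o + p) false = true → CD.getD p false = true) ∧
              (CD.getD (w + p) false = true → M.getD p false = true)) := by
        intro CD hCD
        rw [evc_levC]
        refine forall₂_congr fun p hp => ?_
        have g1 : (U ++ (M ++ b :: CD)).getD (o + 3 * w) false = b := by
          rw [show U ++ (M ++ b :: CD) = (U ++ M) ++ (b :: CD) by simp,
            getD_append_right (j := 0) (by simp only [List.length_append]; omega)]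
          simp
        have g2 : (U ++ (M ++ b :: CD)).getD (o + p) false = U.getD (o + p) false :=
          getD_append_left (by omega)
        have g3 : (U ++ (M ++ b :: CD)).getD (o + w + p) false = U.getD (o + w + p) false :=
          getD_append_left (by omega)
        have g4 : (U ++ (M ++ b :: CD)).getD (o + 2 * w + p) false = M.getD p false := by
          rw [getD_append_right (j := p) (by omega), getD_append_left (by omega)]
        have g5 : (U ++ (M ++ b :: CD)).getD (o + 3 * w + 1 + p) false = CD.getD p false := by
          rw [show U ++ (M ++ b :: CD) = (U ++ (M ++ [b])) ++ CD by simp]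
          exact getD_append_right (by
            simp only [List.length_append, List.length_cons, List.length_nil]
            omega)
        have g6 : (U ++ (M ++ b :: CD)).getD (o + 4 * w + 1 + p) false = CD.getD (w + p) false := by
          rw [show U ++ (M ++ b :: CD) = (U ++ (M ++ [b])) ++ CD by simp]
          exact getD_append_right (by
            simp only [List.length_append, List.length_cons, List.length_nil]
            omega)
        rw [g1, g2, g3, g4, g5, g6]
        cases b
        · simp
        · simp
      constructor
      · rintro ⟨CD, hCD, h⟩
        rw [hev CD hCD, hmean CD hCD] at h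
        obtain ⟨h1, h2⟩ := h
        cases b with
        | true =>
          simp only [if_true] at h1 ⊢
          exact h2.mono hb (fun p hp => (h1 p hp).1) (fun p hp => (h1 p hp).2)
        | false =>
          simp only [Bool.false_eq_true, if_false] at h1 ⊢
          exact h2.mono hb (fun p hp => (h1 p hp).1) (fun p hp => (h1 p hp).2)
      · intro h
        cases b with
        | true =>
          simp only [if_true] at h
          refine ⟨M ++ (List.range w).map (fun p => U.getD (o + w + p) false), by simp; omega, ?_⟩
          rw [hev _ (by simp; omega), hmean _ (by simp; omega)]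
          have g1 : ∀ p < w, (M ++ (List.range w).map (fun p => U.getD (o + w + p) false)).getD
              p false = M.getD p false := fun p hp => getD_append_left (by omega)
          have g2 : ∀ p < w, (M ++ (List.range w).map (fun p => U.getD (o + w + p) false)).getD
              (w + p) false = U.getD (o + w + p) false := by
            intro p hp
            rw [getD_append_right (j := p) (by omega)]
            simp [List.getD_eq_getElem?_getD, hp]
          refine ⟨?_, h.mono hb (fun p hp => ?_) (fun p hp => ?_)⟩
          · intro p hp
            simp only [if_true]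
            rw [g1 p hp, g2 p hp]
            exact ⟨fun h => h, fun h => h⟩
          · rw [g1 p hp]
            exact fun h => h
          · rw [g2 p hp]
            exact fun h => h
        | false =>
          simp only [Bool.false_eq_true, if_false] at h
          refine ⟨(List.range w).map (fun p => U.getD (o + p) false) ++ M, by simp; omega, ?_⟩
          rw [hev _ (by simp; omega), hmean _ (by simp; omega)]
          have g1 : ∀ p < w, ((List.range w).map (fun p => U.getD (o + p) false) ++ M).getD
              p false = U.getD (o + p) false := by
            intro p hp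
            rw [getD_append_left (by simpa using hp)]
            simp [List.getD_eq_getElem?_getD, hp]
          have g2 : ∀ p < w, ((List.range w).map (fun p => U.getD (o + p) false) ++ M).getD
              (w + p) false = M.getD p false := by
            intro p hp
            rw [getD_append_right (j := p) (by simp)]
          refine ⟨?_, h.mono hb (fun p hp => ?_) (fun p hp => ?_)⟩
          · intro p hp
            simp only [Bool.false_eq_true, if_false]
            rw [g1 p hp, g2 p hp]
            exact ⟨fun h => h, fun h => h⟩
          · rw [g1 p hp]
            exact fun h => h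
          · rw [g2 p hp]
            exact fun h => h
    constructor
    · rintro ⟨M, hM, h⟩
      rw [evq_one, if_pos rfl] at h
      have h1 := (key M false hM).1 (h false)
      have h2 := (key M true hM).1 (h true)
      simp only [Bool.false_eq_true, if_false] at h1
      simp only [if_true] at h2
      exact ⟨fun p => M.getD p false, h1, h2⟩
    · rintro ⟨z, h1, h2⟩
      refine ⟨(List.range w).map z, by simp, ?_⟩
      have hget : ∀ p < w, ((List.range w).map z).getD p false = z p := by
        intro p hp
        simp [List.getD_eq_getElem?_getD, hp]
      rw [evq_one, if_pos rfl]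
      intro b
      rw [key _ b (by simp)]
      cases b with
      | true =>
        simp only [if_true]
        exact h2.mono hb (fun p hp => by rw [hget p hp]; exact fun h => h) (fun _ _ h => h)
      | false =>
        simp only [Bool.false_eq_true, if_false]
        exact h1.mono hb (fun _ _ h => h) (fun p hp => by rw [hget p hp]; exact fun h => h)

end Pool.Agent.H656R2.AK
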