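import Mathlib

/-!
# Small components and their Grundy values
-/

namespace Pool.Agent.H656R2.AK

/-- The group of nimbers `0, 1, 2, 3`. -/
abbrev V4 := ZMod 2 × ZMod 2

/-- The kinds of components. -/
inductive Kind | X | K | P | N | FA | FB
  deriving DecidableEq

instance : Fintype Kind := ⟨{.X, .K, .P, .N, .FA, .FB}, fun k => by cases k <;> decide⟩

/-- The edges of a component. -/
def edges : Kind → List (ℕ × ℕ)
  | .X => [(0, 3), (3, 2), (2, 1), (1, 4)]
  | .K => [(0, 1)]
  | .P => [(0, 1), (0, 3), (1, 2)]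
  | .N => [(0, 1), (0, 2), (0, 5), (1, 2), (1, 4), (2, 3)]
  | .FA => [(0, 1), (2, 3), (0, 5), (0, 6), (2, 4), (2, 5), (4, 6), (5, 7), (6, 7)]
  | .FB => [(0, 2), (0, 5), (1, 2), (1, 4), (2, 3)]

/-- The intact component. -/
def full : Kind → ℕ
  | .X => 31
  | .K => 3
  | .P => 15
  | .N => 63
  | .FA => 255
  | .FB => 63

/-- The ports of a component. -/
def ports : Kind → List ℕ
  | .X => [0, 1]
  | .K => [0]
  | .P => [0]
  | .N => [0]
  | .FA => [0, 2]
  | .FB => [0, 1]

/-- Table of Grundy values. -/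
def tab : Kind → ℕ
  | .X => 0x2504105005000000
  | .K => 0x40
  | .P => 0x90041000
  | .N => 0x21140090090000042000001001000000
  | .FA => 0x4022002200110000009100100010000020100010e291009100000000104000000000000000000000e29100910040000011400040004000001040000011400040
  | .FB => 0xe9140014090000042100001001000000

/-- Table of reachable states. -/
def rch : Kind → ℕ
  | .X => 0xf35f3013
  | .K => 0xd
  | .P => 0xd341
  | .N => 0xd70d310341041001
  | .FA => 0xdd0d0d004d0404004404dd0d04004d0400000000dd0d0d00dd0d0d004d04dd0d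
  | .FB => 0xf70f310351051001

/-- Grundy value of a state. -/
def gr (k : Kind) (m : ℕ) : V4 :=
  (if (tab k).testBit (2 * m + 1) then 1 else 0, if (tab k).testBit (2 * m) then 1 else 0)

/-- Reachable states. -/
def ok (k : Kind) (m : ℕ) : Bool := (rch k).testBit m

/-- Good states of `X`. -/
def good (m : ℕ) : Bool := (0xd3551011 : ℕ).testBit m

/-- Local moves. -/
def moves (k : Kind) (m : ℕ) : List ℕ :=
  ((edges k).filter fun e => m.testBit e.1 && m.testBit e.2).map fun e => m ^^^ 2 ^ e.1 ^^^ 2 ^ e.2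

theorem ok_lt {k : Kind} {m : ℕ} (h : ok k m = true) : m < 256 := by
  by_contra hc
  have h1 : rch k < 2 ^ m := by
    refine lt_of_lt_of_le (b := 2 ^ 256) ?_ (Nat.pow_le_pow_right (by norm_num) (by omega))
    cases k <;> norm_num [rch]
  unfold ok at h
  rw [Nat.testBit_lt_two_pow h1] at h
  exact absurd h (by simp)

theorem F1 : ∀ k : Kind, ∀ m < 256, ok k m = true → ∀ m' ∈ moves k m,
    ok k m' = true ∧ gr k m' ≠ gr k m := by
  decide +kernel

theorem F2 : ∀ k : Kind, ∀ m < 256, ok k m = true → (gr k m).1 ≠ 0 → ∀ b : ZMod 2,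
    ∃ m' ∈ moves k m, gr k m' = gr k m + (1, b) := by
  decide +kernel

theorem F3 : ∀ k : Kind, ∀ m < 256, ok k m = true → (gr k m).2 ≠ 0 →
    ∃ m' ∈ moves k m, gr k m' = gr k m + (0, 1) := by
  decide +kernel

theorem F4 : ∀ k : Kind, ∀ m < 256, ok k m = true → ∀ v ∈ ports k, m.testBit v = true →
    ok k (m ^^^ 2 ^ v) = true ∧ (¬ (k = .X ∧ v = 0) → gr k (m ^^^ 2 ^ v) ≠ gr k m) := by
  decide +kernel

theorem F5 : ∀ m < 256, good m = true → m.testBit 0 = true → gr .X (m ^^^ 2 ^ 0) ≠ gr .X m := by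
  decide +kernel

theorem F6 : ∀ m < 256, ok .X m = true → good m = true → ∀ m' ∈ moves .X m,
    (gr .X m' + gr .X m).1 ≠ 0 → good m' = true := by
  decide +kernel

theorem F6q : ∀ m < 256, ok .X m = true → good m = true → m.testBit 1 = true →
    (gr .X (m ^^^ 2 ^ 1) + gr .X m).1 ≠ 0 → good (m ^^^ 2 ^ 1) = true := by
  decide +kernel

theorem F7 : ∀ m < 256, ok .K m = true → ∀ m' ∈ moves .K m, gr .K m' = gr .K m + (0, 1) := by
  decide +kernel

theorem F7p : ∀ m < 256, ok .K m = true → m.testBit 0 = true → gr .K (m ^^^ 2 ^ 0) = gr .K m + (0, 1) := by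
  decide +kernel

theorem F8 : ∀ m < 256, ok .X m = true → m.testBit 0 = false → good m = true := by
  decide +kernel

end Pool.Agent.H656R2.AK
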